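import Pool.Agent.BL.Base

set_option autoImplicit false

namespace Pool.Agent.QG

open Set Filter Topology MeasureTheory Pool.Agent.BL
open scoped ContDiff

/-! ### Path metric of a (possibly non-open) subset of 3-space with a Riemannian metric -/

/-- Length, for the Riemannian metric `g`, of a `C^1` curve parametrised by the unit interval. -/
noncomputable def curveLen (g : V3 → V3 → V3 → ℝ) (c : ℝ → V3) : ℝ :=
  ∫ t in (0 : ℝ)..1,
    Real.sqrt (g (c t) (derivWithin c (Icc 0 1) t) (derivWithin c (Icc 0 1) t))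

/-- `L` is the length of a piecewise continuously differentiable curve in `X` from `p` to `q`:
the curve is the concatenation of the `C^1` curves `c 0, ..., c (n-1) : [0,1] → X`. -/
def IsPath (X : Set V3) (g : V3 → V3 → V3 → ℝ) (p q : V3) (L : ℝ) : Prop :=
  ∃ (n : ℕ) (pt : ℕ → V3) (c : ℕ → ℝ → V3), pt 0 = p ∧ pt n = q ∧
    (∀ i < n, ContDiffOn ℝ 1 (c i) (Icc 0 1) ∧ (∀ t ∈ Icc (0 : ℝ) 1, c i t ∈ X) ∧
      c i 0 = pt i ∧ c i 1 = pt (i + 1)) ∧
    L = ∑ i ∈ Finset.range n, curveLen g (c i)

/-- The induced path metric of `(X, g)`: infimum of the lengths of piecewise `C^1` curves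
in `X`. -/
noncomputable def pdist (X : Set V3) (g : V3 → V3 → V3 → ℝ) (p q : V3) : ℝ :=
  sInf {L | IsPath X g p q L}

/-! ### Compact 3-manifolds with `K < 0` and totally geodesic boundary, given by their universal
covering -/

/-- Near its point `x`, the set `X` is `{f ≥ 0}` for a smooth function `f` with `f x = 0`,
`df_x ≠ 0` (so `X` is a smooth manifold with boundary `{f = 0}` near `x`), and the boundary is
totally geodesic for the connection with Christoffel symbols `Ch`: the Hessian
`∇df (v, w) = D²f(v,w) - df (Ch v w)` (which is the second fundamental form of `{f = 0}` up to the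
factor `|∇f|`) vanishes on the tangent vectors of the boundary. -/
def TotGeodBoundaryAt (X : Set V3) (Ch : V3 → V3 → V3 → V3) (x : V3) : Prop :=
  ∃ f : V3 → ℝ, ContDiff ℝ ∞ f ∧ f x = 0 ∧ fderiv ℝ f x ≠ 0 ∧
    (∀ᶠ y in 𝓝 x, (y ∈ X ↔ 0 ≤ f y)) ∧
    ∀ᶠ y in 𝓝 x, f y = 0 → ∀ v w : V3, fderiv ℝ f y v = 0 → fderiv ℝ f y w = 0 →
      fderiv ℝ (fun z => fderiv ℝ f z w) y v - fderiv ℝ f y (Ch y v w) = 0

/-- `(X, g, G)` is the universal covering of a compact connected Riemannian 3-manifold `M = G \ X`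
with nonempty boundary, strictly negative sectional curvature and totally geodesic boundary:
`X` is a contractible subset of 3-space, closed in the open set `Y`, every point of `X` is an
interior point or a point near which `X` has a smooth totally geodesic boundary (and there are
boundary points); `g` is a smooth Riemannian metric on `Y` with Levi-Civita connection `Ch`,
with `K < 0` on `X`; and `G` is a group of smooth isometries of `(X, g)` acting freely, properly
discontinuously and cocompactly on `X`. -/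
structure IsBdryModel (Y X : Set V3) (g : V3 → V3 → V3 → ℝ) (Ch : V3 → V3 → V3 → V3)
    (G : Subgroup (Equiv.Perm X)) : Prop where
  isOpen : IsOpen Y
  closedIn : ∃ F : Set V3, IsClosed F ∧ X = Y ∩ F
  contractible : ContractibleSpace X
  metric : IsMetric Y g
  connection : IsLeviCivita Y g Ch
  curvature : ∀ z ∈ X, ∀ u v, LinearIndependent ℝ ![u, v] → sec g Ch z u v < 0
  boundary : ∀ x ∈ X, x ∈ interior X ∨ TotGeodBoundaryAt X Ch x
  boundary_nonempty : ∃ x ∈ X, x ∉ interior X
  isometries : ∀ γ ∈ G, ∃ F : V3 → V3, ContDiffOn ℝ ∞ F Y ∧ (∀ x : X, (γ x : V3) = F x) ∧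
    ∀ x ∈ X, ∀ v w, g (F x) (fderiv ℝ F x v) (fderiv ℝ F x w) = g x v w
  free : ∀ γ ∈ G, (∃ x, γ x = x) → γ = 1
  properlyDisc : ∀ K : Set X, IsCompact K → {γ | γ ∈ G ∧ (γ '' K ∩ K).Nonempty}.Finite
  cocompact : ∃ K : Set X, IsCompact K ∧ ∀ x, ∃ γ ∈ G, γ x ∈ K

/-- `f` is a quasi-isometry of the metric space `(α, d)` to itself. -/
def IsQI {α : Type*} (d : α → α → ℝ) (f : α → α) : Prop :=
  ∃ L C : ℝ, 1 ≤ L ∧ 0 ≤ C ∧
    (∀ x y, L⁻¹ * d x y - C ≤ d (f x) (f y) ∧ d (f x) (f y) ≤ L * d x y + C) ∧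
    ∀ y, ∃ x, d (f x) y ≤ C

end Pool.Agent.QG
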