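import Pool.Agent.BL.Defs
import Pool.Agent.BL.ActAlg
import Pool.Agent.QG.Defs

set_option autoImplicit false

namespace Pool.Agent.QG

open Set Filter Topology MeasureTheory Pool.Agent.BL
open Pool.Agent.BL.ActAlg (zt NN)
open scoped ContDiff

/-! ### Objects used in the proof only -/

/-- reflection in the plane `x₁ = 0` -/
def sg (x : V3) : V3 := ![x 0, -x 1, x 2]

/-- complex conjugate matrix -/
noncomputable def cj (A : Matrix (Fin 2) (Fin 2) ℂ) : Matrix (Fin 2) (Fin 2) ℂ :=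
  A.map (starRingEnd ℂ)

/-- equation of the wall `A⁻¹ {x₁ = 0}` -/
noncomputable def fW (A : Matrix (Fin 2) (Fin 2) ℂ) (x : V3) : ℝ :=
  (A 0 0 * (starRingEnd ℂ) (A 1 0)).im * (x 0 ^ 2 + x 1 ^ 2 + x 2 ^ 2) +
    (A 0 0 * (starRingEnd ℂ) (A 1 1) + A 0 1 * (starRingEnd ℂ) (A 1 0)).im * x 0 +
    (A 0 0 * (starRingEnd ℂ) (A 1 1) - A 0 1 * (starRingEnd ℂ) (A 1 0)).re * x 1 +
    (A 0 1 * (starRingEnd ℂ) (A 1 1)).im

/-- the chamber of the point `p0` -/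
def XX (p0 : V3) : Set V3 := {x | x ∈ U ∧ ∀ A ∈ Gm, 0 ≤ fW A x * fW A p0}

/-- `p0` is a point off the walls, in a chamber which contains the plane `x₁ = 0` -/
structure PB (p0 : V3) : Prop where
  mem : p0 ∈ U
  pos : 0 < p0 1
  ne : ∀ A ∈ Gm, fW A p0 ≠ 0
  plane : ∀ A ∈ Gm, ∀ x ∈ U, x 1 = 0 → 0 ≤ fW A x * fW A p0

/-- the balls of radius `arcosh C` around the points of the orbit of `o3` are disjoint -/
def Dis (C : ℝ) : Prop :=
  ∀ A ∈ Gm, ∀ B ∈ Gm, ∀ z ∈ U, ch (act A o3) z < C → ch (act B o3) z < C → act A o3 = act B o3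

/-- Euclidean norm -/
noncomputable def en (y : V3) : ℝ := Real.sqrt (y 0 ^ 2 + y 1 ^ 2 + y 2 ^ 2)

/-- hyperbolic cosine of the distance to the vertical axis -/
noncomputable def RR (y : V3) : ℝ := en y / y 2

/-- a matrix of the order, of determinant one -/
noncomputable def B0 : Matrix (Fin 2) (Fin 2) ℂ := qm ![2, -1, -2, -1]

/-- its inverse -/
noncomputable def B1 : Matrix (Fin 2) (Fin 2) ℂ := qm ![2, 1, 2, 1]

/-- translation along the vertical axis -/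
noncomputable def lam : ℝ := (51841 + 23184 * Real.sqrt 5) ^ 2

/-- the conformal factor and its properties -/
structure Pk (u : V3 → ℝ) (b : ℝ → ℝ) (C₁ : ℝ) : Prop where
  one_lt : 1 < C₁
  dis : Dis C₁
  hb : ContDiff ℝ ∞ b
  hb0 : ∀ c, C₁ ≤ c → b c = 0
  smooth : ContDiffOn ℝ ∞ u U
  inv : ∀ A ∈ Gm, ∀ x ∈ U, u (act A x) = u x
  loc : ∀ x ∈ U, ∃ A ∈ Gm, ∀ᶠ y in 𝓝 x, u y = b (ch (act A o3) y)
  nonpos : ∀ x ∈ U, u x ≤ 0
  bdd : ∀ x ∈ U, -1 ≤ u x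
  neg0 : u o3 < 0
  kap : ∀ c Q, 1 ≤ c → 0 ≤ Q → Q ≤ c ^ 2 - 1 → kappa b c Q < 0
  axis : ∀ z ∈ U, Real.exp (-(u z)) ≤ RR (act B0 z)

end Pool.Agent.QG
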