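import Pool.Agent.BL.Latt
import Pool.Agent.BL.HgM
import Pool.Agent.BL.HdPm
import Pool.Agent.BL.ActDer
import Pool.Agent.BL.ChPos
import Pool.Agent.QG.Defs2

set_option autoImplicit false

namespace Pool.Agent.QG
open Set Filter Topology MeasureTheory Pool.Agent.BL
open Pool.Agent.BL.ActAlg (zt NN)
open scoped ContDiff

theorem act_mem (A : Matrix (Fin 2) (Fin 2) ℂ) (hA : A.det = 1) (z : V3) (hz : z ∈ U) :
    act A z ∈ U := Pool.Agent.BL.ActAlg.act_mem A hA z hz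
theorem act_one (z : V3) (hz : z ∈ U) : act 1 z = z := Pool.Agent.BL.ActAlg.act_one z hz
theorem act_mul (A B : Matrix (Fin 2) (Fin 2) ℂ) (hA : A.det = 1) (hB : B.det = 1)
    (z : V3) (hz : z ∈ U) : act (A * B) z = act A (act B z) :=
  Pool.Agent.BL.ActAlg.act_mul A B hA hB z hz
theorem NN_pos (A : Matrix (Fin 2) (Fin 2) ℂ) (hA : A.det = 1) (z : V3) (hz : z ∈ U) :
    0 < NN A z := Pool.Agent.BL.ActAlg.NN_pos A hA z hz
theorem NN_mul (A B : Matrix (Fin 2) (Fin 2) ℂ) (hB : B.det = 1)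
    (z : V3) (hz : z ∈ U) : NN (A * B) z = NN A (act B z) * NN B z :=
  Pool.Agent.BL.ActAlg.NN_mul A B hB z hz
theorem act_ch (A : Matrix (Fin 2) (Fin 2) ℂ) (hA : A.det = 1) (z w : V3) (hz : z ∈ U)
    (hw : w ∈ U) : ch (act A z) (act A w) = ch z w := Pool.Agent.BL.ActCh.act_ch A hA z w hz hw
theorem act_smooth (A : Matrix (Fin 2) (Fin 2) ℂ) (hA : A.det = 1) :
    ContDiffOn ℝ ∞ (act A) U := Pool.Agent.BL.ActSm.act_smooth A hA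
theorem act_deriv (A : Matrix (Fin 2) (Fin 2) ℂ) (hA : A.det = 1) (z : V3) (hz : z ∈ U)
    (v w : V3) : dot (fderiv ℝ (act A) z v) (fderiv ℝ (act A) z w)
      = ((act A z) 2 / z 2) ^ 2 * dot v w := Pool.Agent.BL.ActDer.act_deriv A hA z hz v w
theorem gm_det (A : Matrix (Fin 2) (Fin 2) ℂ) (hA : A ∈ Gm) : A.det = 1 :=
  Pool.Agent.BL.QAlg.gm_det A hA
theorem gm_one : (1 : Matrix (Fin 2) (Fin 2) ℂ) ∈ Gm := Pool.Agent.BL.QAlg.gm_one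
theorem gm_mul (A B : Matrix (Fin 2) (Fin 2) ℂ) (hA : A ∈ Gm) (hB : B ∈ Gm) : A * B ∈ Gm :=
  Pool.Agent.BL.QAlg.gm_mul A B hA hB
theorem gm_inv (A : Matrix (Fin 2) (Fin 2) ℂ) (hA : A ∈ Gm) :
    ∃ B ∈ Gm, A * B = 1 ∧ B * A = 1 := Pool.Agent.BL.QAlg.gm_inv A hA
theorem gm_free (A : Matrix (Fin 2) (Fin 2) ℂ) (hA : A ∈ Gm) (z : V3) (hz : z ∈ U)
    (h : act A z = z) : A = 1 := Pool.Agent.BL.GFree.gm_free A hA z hz h
theorem gm_finite (R : ℝ) : {A | A ∈ Gm ∧ ch o3 (act A o3) ≤ R}.Finite :=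
  Pool.Agent.BL.GFin.gm_finite R
theorem gm_cocompact : ∃ R : ℝ, ∀ z ∈ U, ∃ A ∈ Gm, ch o3 (act A z) ≤ R :=
  Pool.Agent.BL.GCoc.gm_cocompact
theorem ch_one_le (p x : V3) (hp : p ∈ U) (hx : x ∈ U) : 1 ≤ ch p x :=
  Pool.Agent.BL.ChPos.ch_pos p x hp hx
theorem ch_symm (p x : V3) : ch p x = ch x p := Pool.Agent.BL.Latt.ch_symm p x
theorem ch_tri (p y w : V3) (hp : 0 < p 2) (hy : 0 < y 2) (hw : 0 < w 2) :
    ch p w ≤ 2 * ch p y * ch y w := Pool.Agent.BL.Latt.ch_tri p y w hp hy hw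
theorem hd_tri (x y z : U) : hd x z ≤ hd x y + hd y z := Pool.Agent.BL.HdPm.hd_pm.tri x y z
theorem hd_comm (x y : U) : hd x y = hd y x := Pool.Agent.BL.HdPm.hd_pm.symm x y
theorem cosh_hd (x y : U) : Real.cosh (hd x y) = ch x y :=
  Real.cosh_arcosh (ch_one_le x y x.2 y.2)
theorem hd_nn (x y : U) : 0 ≤ hd x y := Real.arcosh_nonneg (ch_one_le x y x.2 y.2)
theorem sqrt5_sq : ((Real.sqrt 5 : ℝ) : ℂ) ^ 2 = 5 := Pool.Agent.BL.QAlg.sqrt5_sq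
/-- product of the order -/
def qmulv (x y : Fin 4 → GaussianInt) : Fin 4 → GaussianInt :=
  ![x 0 * y 0 + 5 * (x 1 * y 1) + 2 * (x 2 * y 2) - 10 * (x 3 * y 3),
    x 0 * y 1 + x 1 * y 0 - 2 * (x 2 * y 3) + 2 * (x 3 * y 2),
    x 0 * y 2 + x 2 * y 0 + 5 * (x 1 * y 3) - 5 * (x 3 * y 1),
    x 0 * y 3 + x 1 * y 2 - x 2 * y 1 + x 3 * y 0]
theorem qm_mul (x y : Fin 4 → GaussianInt) : qm x * qm y = qm (qmulv x y) :=
  Pool.Agent.BL.QAlg.qm_mul x y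
theorem qn_mul (x y : Fin 4 → GaussianInt) : qn (qmulv x y) = qn x * qn y :=
  Pool.Agent.BL.QAlg.qn_mul x y
theorem qm_det (x : Fin 4 → GaussianInt) : (qm x).det = (qn x : ℂ) :=
  Pool.Agent.BL.GCoc.qm_det x
theorem hg_levi (u : V3 → ℝ) (hu : ContDiffOn ℝ ∞ u U) (a : ℝ) :
    IsLeviCivita U (hg u a) (chr (fun y => u y - Real.log (y 2) + a)) :=
  Pool.Agent.BL.HgM.hg_levi u hu a

end Pool.Agent.QG
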