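import Pool.Agent.QG.G

set_option autoImplicit false

namespace Pool.Agent.QG
open Set Filter Topology MeasureTheory Pool.Agent.BL
open Pool.Agent.BL.ActAlg (zt NN)
open scoped ContDiff

namespace J_axis_ne














theorem axn_irr (p q : ℤ) (h : (p : ℝ) + q * Real.sqrt 5 = 0) : q = 0 := by
  by_contra hq
  have hirr : Irrational (Real.sqrt ((5 : ℕ) : ℝ)) := (by norm_num : Nat.Prime 5).irrational_sqrt
  apply hirr
  refine ⟨-(p : ℚ) / q, ?_⟩
  have hq' : (q : ℝ) ≠ 0 := by exact_mod_cast hq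
  push_cast
  field_simp
  linarith

theorem axn_w (m : Fin 4 → GaussianInt) (h : (qm m) 0 1 * (starRingEnd ℂ) ((qm m) 1 1) +
    (qm m) 0 0 * (starRingEnd ℂ) ((qm m) 1 0) = 0) :
    2 * (m 3 * star (m 0) - m 2 * star (m 1)) + (m 1 * star (m 2) - m 0 * star (m 3)) = 0 := by
  set P : GaussianInt := 2 * (m 2 * star (m 0)) - 10 * (m 3 * star (m 1)) + m 0 * star (m 2) - 5 * (m 1 * star (m 3)) with hP
  set Q : GaussianInt := 2 * (m 3 * star (m 0) - m 2 * star (m 1)) + (m 1 * star (m 2) - m 0 * star (m 3)) with hQ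
  have hs : ((Real.sqrt 5 : ℝ) : ℂ) ^ 2 = 5 := by
    rw [← Complex.ofReal_pow, Real.sq_sqrt (by norm_num)]
    norm_num
  have h1 : (P : ℂ) + (Q : ℂ) * (Real.sqrt 5 : ℝ) = 0 := by
    rw [← h, hP, hQ]
    unfold qm
    simp only [Matrix.of_apply, Matrix.cons_val', Matrix.cons_val_zero, Matrix.cons_val_one, Matrix.cons_val_fin_one,
      map_sub, map_add, map_mul, Complex.conj_ofReal, GaussianInt.toComplex_star, map_ofNat]
    linear_combination (2 * (m 3 : ℂ) * (starRingEnd ℂ) (m 1 : ℂ) + (m 1 : ℂ) * (starRingEnd ℂ) (m 3 : ℂ)) * hs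
  have h2 := congrArg Complex.re h1
  have h3 := congrArg Complex.im h1
  simp only [Complex.add_re, Complex.add_im, Complex.mul_re, Complex.mul_im, Complex.ofReal_re, Complex.ofReal_im,
    mul_zero, sub_zero, zero_add, Complex.zero_re, Complex.zero_im, ← GaussianInt.intCast_re,
    ← GaussianInt.intCast_im] at h2 h3
  have e1 := axn_irr _ _ h2
  have e2 := axn_irr _ _ h3
  exact Zsqrtd.ext e1 e2

/-- no point of the orbit of `act B0 o3` is on the vertical axis -/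
theorem axis_ne (A : Matrix (Fin 2) (Fin 2) ℂ) (hA : A ∈ Gm) :
    1 < RR (act (A * B0) o3) := by
  obtain ⟨x, hx, hx1, ⟨a0, h0⟩, ⟨a1, h1⟩, ⟨a2, h2⟩, ⟨a3, h3⟩⟩ := hA
  have hM : A * B0 = qm (qmulv x ![2, -1, -2, -1]) := by
    rw [hx, B0, qm_mul]
  have hdet : (qm (qmulv x ![2, -1, -2, -1])).det = 1 := by
    rw [qm_det, qn_mul, hx1]
    have : qn ![2, -1, -2, -1] = 1 := by
      unfold qn
      simp only [Matrix.cons_val_zero, Matrix.cons_val_one, Matrix.cons_val]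
      ring
    rw [this]
    simp
  rw [hM]
  set m := qmulv x ![2, -1, -2, -1] with hm
  have ho : o3 ∈ U := by simp [U, o3]
  have hU : act (qm m) o3 ∈ U := act_mem _ hdet _ ho
  have hN := NN_pos _ hdet _ ho
  have hpos : 0 < (act (qm m) o3) 2 := hU
  have ho0 : o3 0 = 0 := rfl
  have ho1 : o3 1 = 0 := rfl
  have ho2 : o3 2 = 1 := rfl
  have hz : (⟨o3 0, o3 1⟩ : ℂ) = 0 := by
    rw [ho0, ho1]
    rfl
  have hne : 0 < (act (qm m) o3) 0 ^ 2 + (act (qm m) o3) 1 ^ 2 := by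
    by_contra hcon
    have q0 : (act (qm m) o3) 0 = 0 := by
      nlinarith [sq_nonneg ((act (qm m) o3) 0), sq_nonneg ((act (qm m) o3) 1)]
    have q1 : (act (qm m) o3) 1 = 0 := by
      nlinarith [sq_nonneg ((act (qm m) o3) 0), sq_nonneg ((act (qm m) o3) 1)]
    have r0 : (((qm m) 0 0 * ⟨o3 0, o3 1⟩ + (qm m) 0 1) * (starRingEnd ℂ) ((qm m) 1 0 * ⟨o3 0, o3 1⟩ + (qm m) 1 1)
        + (qm m) 0 0 * (starRingEnd ℂ) ((qm m) 1 0) * ((o3 2 ^ 2 : ℝ) : ℂ)).re / NN (qm m) o3 = 0 := q0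
    have r1 : (((qm m) 0 0 * ⟨o3 0, o3 1⟩ + (qm m) 0 1) * (starRingEnd ℂ) ((qm m) 1 0 * ⟨o3 0, o3 1⟩ + (qm m) 1 1)
        + (qm m) 0 0 * (starRingEnd ℂ) ((qm m) 1 0) * ((o3 2 ^ 2 : ℝ) : ℂ)).im / NN (qm m) o3 = 0 := q1
    rw [div_eq_zero_iff, or_iff_left hN.ne', hz, ho2, mul_zero, zero_add, mul_zero, zero_add, one_pow,
      Complex.ofReal_one, mul_one] at r0 r1
    have hw := axn_w m (Complex.ext r0 r1)
    have m0 : m 0 = 2 + 3 * (2 * a0 - 5 * a1 - 4 * a2 + 10 * a3) := by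
      have : x 0 = 1 + 3 * a0 := by rw [← h0]; ring
      simp only [hm, qmulv, Matrix.cons_val_zero, Matrix.cons_val_one, Matrix.cons_val]
      rw [this, h1, h2, h3]
      ring
    have m1 : m 1 = -1 + 3 * (-a0 + 2 * a1 + 2 * a2 - 4 * a3) := by
      have : x 0 = 1 + 3 * a0 := by rw [← h0]; ring
      simp only [hm, qmulv, Matrix.cons_val_zero, Matrix.cons_val_one, Matrix.cons_val]
      rw [this, h1, h2, h3]
      ring
    have m2 : m 2 = -2 + 3 * (-2 * a0 + 2 * a2 - 5 * a1 + 5 * a3) := by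
      have : x 0 = 1 + 3 * a0 := by rw [← h0]; ring
      simp only [hm, qmulv, Matrix.cons_val_zero, Matrix.cons_val_one, Matrix.cons_val]
      rw [this, h1, h2, h3]
      ring
    have m3 : m 3 = -1 + 3 * (-a0 - 2 * a1 + a2 + 2 * a3) := by
      have : x 0 = 1 + 3 * a0 := by rw [← h0]; ring
      simp only [hm, qmulv, Matrix.cons_val_zero, Matrix.cons_val_one, Matrix.cons_val]
      rw [this, h1, h2, h3]
      ring
    set n0 := 2 * a0 - 5 * a1 - 4 * a2 + 10 * a3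
    set n1 := -a0 + 2 * a1 + 2 * a2 - 4 * a3
    set n2 := -2 * a0 + 2 * a2 - 5 * a1 + 5 * a3
    set n3 := -a0 - 2 * a1 + a2 + 2 * a3
    have s0 : star (m 0) = 2 + 3 * star n0 := by rw [m0]; simp
    have s1 : star (m 1) = -1 + 3 * star n1 := by rw [m1]; simp
    have s2 : star (m 2) = -2 + 3 * star n2 := by rw [m2]; simp
    have s3 : star (m 3) = -1 + 3 * star n3 := by rw [m3]; simp
    rw [s0, s1, s2, s3, m0, m1, m2, m3] at hw
    have hK : 3 * (2 * (-star n0 + 2 * n3 + 3 * n3 * star n0 + 2 * star n1 + n2 - 3 * n2 * star n1) +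
        (-star n2 - 2 * n1 + 3 * n1 * star n2 - 2 * star n3 + n0 - 3 * n0 * star n3)) = (4 : GaussianInt) := by
      linear_combination hw
    set K := (2 * (-star n0 + 2 * n3 + 3 * n3 * star n0 + 2 * star n1 + n2 - 3 * n2 * star n1) +
        (-star n2 - 2 * n1 + 3 * n1 * star n2 - 2 * star n3 + n0 - 3 * n0 * star n3))
    have hre := congrArg Zsqrtd.re hK
    simp at hre
    omega
  unfold RR en
  rw [one_lt_div hpos, Real.lt_sqrt hpos.le]
  linarith

end J_axis_ne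
export J_axis_ne (axis_ne)
end Pool.Agent.QG
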