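import Pool.Agent.QG.G

set_option autoImplicit false

namespace Pool.Agent.QG
open Set Filter Topology MeasureTheory Pool.Agent.BL
open Pool.Agent.BL.ActAlg (zt NN)
open scoped ContDiff

namespace J_bdd_fin














/-- proper discontinuity, in terms of bounded sets -/
theorem bdd_fin (R S : ℝ) :
    {A | A ∈ Gm ∧ ∃ z ∈ U, ch o3 z ≤ R ∧ ch o3 (act A z) ≤ S}.Finite := by
  refine (gm_finite (2 * S * R)).subset ?_
  rintro A ⟨hA, z, hz, hzR, hzS⟩
  have ho : o3 ∈ U := oU.2
  have hdet := gm_det A hA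
  have h1 : act A z ∈ U := act_mem A hdet z hz
  have h2 : act A o3 ∈ U := act_mem A hdet o3 ho
  have h3 := ch_tri o3 (act A z) (act A o3) ho h1 h2
  rw [act_ch A hdet z o3 hz ho, ch_symm z o3] at h3
  have h4 := ch_one_le o3 z ho hz
  have h5 := ch_one_le o3 (act A z) ho h1
  refine ⟨hA, h3.trans ?_⟩
  have h6 : ch o3 (act A z) * ch o3 z ≤ S * R :=
    mul_le_mul hzS hzR (by linarith) (by linarith)
  nlinarith

end J_bdd_fin
export J_bdd_fin (bdd_fin)
end Pool.Agent.QG
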