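import Pool.Agent.QG.G

set_option autoImplicit false

namespace Pool.Agent.QG
open Set Filter Topology MeasureTheory Pool.Agent.BL
open Pool.Agent.BL.ActAlg (zt NN)
open scoped ContDiff

namespace J_lam_gm








theorem qm_int (a b : ℤ) : qm ![(a : GaussianInt), (b : GaussianInt), 0, 0] =
    !![(((a : ℝ) + b * Real.sqrt 5 : ℝ) : ℂ), 0; 0, (((a : ℝ) - b * Real.sqrt 5 : ℝ) : ℂ)] := by
  unfold qm
  ext i j
  fin_cases i <;> fin_cases j <;> simp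

theorem int_gm (a b : ℤ) (h : a ^ 2 - 5 * b ^ 2 = 1) (ha : (3 : ℤ) ∣ a - 1) (hb : (3 : ℤ) ∣ b) :
    qm ![(a : GaussianInt), (b : GaussianInt), 0, 0] ∈ Gm := by
  refine ⟨_, rfl, ?_, ?_, ?_, ?_, ?_⟩
  · have h1 : ((a ^ 2 - 5 * b ^ 2 : ℤ) : GaussianInt) = 1 := by rw [h, Int.cast_one]
    show (a : GaussianInt) ^ 2 - 5 * (b : GaussianInt) ^ 2 - 2 * 0 ^ 2 + 10 * 0 ^ 2 = 1
    rw [← h1]
    push_cast
    ring
  · obtain ⟨c, hc⟩ := ha
    refine ⟨(c : GaussianInt), ?_⟩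
    show (a : GaussianInt) - 1 = 3 * c
    exact_mod_cast congrArg (fun z : ℤ => (z : GaussianInt)) hc
  · obtain ⟨c, hc⟩ := hb
    refine ⟨(c : GaussianInt), ?_⟩
    show (b : GaussianInt) = 3 * c
    exact_mod_cast congrArg (fun z : ℤ => (z : GaussianInt)) hc
  · exact dvd_zero _
  · exact dvd_zero _

theorem act_int (a b : ℤ) (h : a ^ 2 - 5 * b ^ 2 = 1) (x : V3) :
    act (qm ![(a : GaussianInt), (b : GaussianInt), 0, 0]) x =
      (((a : ℝ) + b * Real.sqrt 5) ^ 2) • x := by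
  have h5 : Real.sqrt 5 ^ 2 = 5 := Real.sq_sqrt (by norm_num)
  have hR : (a : ℝ) ^ 2 - 5 * (b : ℝ) ^ 2 = 1 := by exact_mod_cast congrArg (fun z : ℤ => (z : ℝ)) h
  have hss : ((a : ℝ) + b * Real.sqrt 5) * ((a : ℝ) - b * Real.sqrt 5) = 1 := by
    linear_combination hR - (b : ℝ) ^ 2 * h5
  rw [qm_int]
  generalize hs : (a : ℝ) + b * Real.sqrt 5 = s at *
  generalize hs' : (a : ℝ) - b * Real.sqrt 5 = s' at *
  have hs0 : s' ≠ 0 := right_ne_zero_of_mul_eq_one hss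
  have key : ∀ y : ℝ, y / (s' * s') = s ^ 2 * y := by
    intro y
    rw [div_eq_iff (mul_ne_zero hs0 hs0)]
    linear_combination (-y * (s * s' + 1)) * hss
  unfold act
  have hη : ((s : ℂ) * (⟨x 0, x 1⟩ : ℂ) + 0) * (starRingEnd ℂ) (0 * (⟨x 0, x 1⟩ : ℂ) + (s' : ℂ)) +
      (s : ℂ) * (starRingEnd ℂ) 0 * (((x 2) ^ 2 : ℝ) : ℂ) = (⟨x 0, x 1⟩ : ℂ) := by
    rw [zero_mul, zero_add, Complex.conj_ofReal, map_zero, mul_zero, zero_mul, add_zero, add_zero]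
    have : (s : ℂ) * (s' : ℂ) = 1 := by exact_mod_cast congrArg (fun z : ℝ => (z : ℂ)) hss
    linear_combination (⟨x 0, x 1⟩ : ℂ) * this
  have hN : Complex.normSq (0 * (⟨x 0, x 1⟩ : ℂ) + (s' : ℂ)) + Complex.normSq 0 * (x 2) ^ 2 =
      s' * s' := by
    rw [zero_mul, zero_add, map_zero, zero_mul, add_zero, Complex.normSq_ofReal]
  funext i
  simp only [Matrix.of_apply, Matrix.cons_val_zero, Matrix.cons_val_one, Matrix.cons_val',
    Matrix.cons_val_fin_one, hη, hN]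
  fin_cases i
  · exact key (x 0)
  · exact key (x 1)
  · exact key (x 2)

theorem pow_ab (n : ℕ) : ∃ a b : ℤ, (a : ℝ) + b * Real.sqrt 5 = (51841 + 23184 * Real.sqrt 5) ^ n ∧
    a ^ 2 - 5 * b ^ 2 = 1 ∧ (3 : ℤ) ∣ a - 1 ∧ (3 : ℤ) ∣ b := by
  have h5 : Real.sqrt 5 ^ 2 = 5 := Real.sq_sqrt (by norm_num)
  induction n with
  | zero => exact ⟨1, 0, by simp, by norm_num, by norm_num, by norm_num⟩
  | succ n ih =>
    obtain ⟨a, b, h1, h2, ⟨c, h3⟩, ⟨d, h4⟩⟩ := ih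
    refine ⟨51841 * a + 5 * 23184 * b, 23184 * a + 51841 * b, ?_, ?_, ?_, ?_⟩
    · rw [pow_succ, ← h1]
      push_cast
      linear_combination (-(23184 : ℝ) * b) * h5
    · linear_combination h2
    · exact ⟨51841 * c + 17280 + 5 * 23184 * d, by rw [h4]; linear_combination 51841 * h3⟩
    · exact ⟨7728 * a + 51841 * d, by rw [h4]; ring⟩

theorem zpow_ab (k : ℤ) : ∃ a b : ℤ, (a : ℝ) + b * Real.sqrt 5 = (51841 + 23184 * Real.sqrt 5) ^ k ∧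
    a ^ 2 - 5 * b ^ 2 = 1 ∧ (3 : ℤ) ∣ a - 1 ∧ (3 : ℤ) ∣ b := by
  have h5 : Real.sqrt 5 ^ 2 = 5 := Real.sq_sqrt (by norm_num)
  obtain ⟨n, hn | hn⟩ := Int.eq_nat_or_neg k
  · obtain ⟨a, b, h1, h2, h3, h4⟩ := pow_ab n
    exact ⟨a, b, by rw [hn, zpow_natCast]; exact h1, h2, h3, h4⟩
  · obtain ⟨a, b, h1, h2, h3, h4⟩ := pow_ab n
    refine ⟨a, -b, ?_, by rw [neg_sq]; exact h2, h3, (dvd_neg).mpr h4⟩
    rw [hn, zpow_neg, zpow_natCast, ← h1]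
    have hR : (a : ℝ) ^ 2 - 5 * (b : ℝ) ^ 2 = 1 := by
      exact_mod_cast congrArg (fun z : ℤ => (z : ℝ)) h2
    apply eq_inv_of_mul_eq_one_left
    push_cast
    linear_combination hR - (b : ℝ) ^ 2 * h5

/-- the translation of the axis -/
theorem lam_gm : 1 < lam ∧ ∀ k : ℤ, ∃ A ∈ Gm, ∀ x ∈ U, act A x = (lam ^ k) • x := by
  refine ⟨?_, fun k => ?_⟩
  · unfold lam
    have h : 0 ≤ Real.sqrt 5 := Real.sqrt_nonneg 5
    exact one_lt_pow₀ (by linarith) (by norm_num)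
  · obtain ⟨a, b, h1, h2, h3, h4⟩ := zpow_ab k
    refine ⟨_, int_gm a b h2 h3 h4, fun x _ => ?_⟩
    rw [act_int a b h2, h1]
    unfold lam
    rw [← zpow_natCast, ← zpow_natCast, ← zpow_mul, ← zpow_mul, mul_comm k]

end J_lam_gm
export J_lam_gm (lam_gm)
end Pool.Agent.QG
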