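import Pool.Agent.QG.G

set_option autoImplicit false

namespace Pool.Agent.QG
open Set Filter Topology MeasureTheory Pool.Agent.BL
open Pool.Agent.BL.ActAlg (zt NN)
open scoped ContDiff

namespace J_gm_normal











/-- conjugate -/
def gm_normal_bar (r : Fin 4 → GaussianInt) : Fin 4 → GaussianInt := ![r 0, -r 1, -r 2, -r 3]

theorem gm_normal_assoc (r w : Fin 4 → GaussianInt) (hr : qn r = 1) :
    qmulv r (qmulv (gm_normal_bar r) w) = w := by
  unfold qn at hr
  funext i
  fin_cases i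
  · simp only [qmulv, gm_normal_bar, Fin.isValue, Fin.zero_eta, Matrix.cons_val_zero,
      Matrix.cons_val_one, Matrix.cons_val]
    linear_combination w 0 * hr
  · simp only [qmulv, gm_normal_bar, Fin.isValue, Fin.mk_one, Matrix.cons_val_zero,
      Matrix.cons_val_one, Matrix.cons_val]
    linear_combination w 1 * hr
  · simp only [qmulv, gm_normal_bar, Fin.isValue, Fin.reduceFinMk, Matrix.cons_val_zero,
      Matrix.cons_val_one, Matrix.cons_val]
    linear_combination w 2 * hr
  · simp only [qmulv, gm_normal_bar, Fin.isValue, Fin.reduceFinMk, Matrix.cons_val_zero,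
      Matrix.cons_val_one, Matrix.cons_val]
    linear_combination w 3 * hr

theorem gm_normal_qnbar (r : Fin 4 → GaussianInt) : qn (gm_normal_bar r) = qn r := by
  simp only [qn, gm_normal_bar, Fin.isValue, Matrix.cons_val_zero,
      Matrix.cons_val_one, Matrix.cons_val]
  ring

theorem gm_normal (r : Fin 4 → ℤ) (hr : qn (fun i => (r i : GaussianInt)) = 1) :
    cj (qm (fun i => (r i : GaussianInt))) = qm (fun i => (r i : GaussianInt)) ∧
    (qm (fun i => (r i : GaussianInt))).det = 1 ∧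
    ∀ A ∈ Gm, ∃ A' ∈ Gm, A * qm (fun i => (r i : GaussianInt)) =
      qm (fun i => (r i : GaussianInt)) * A' := by
  refine ⟨?_, ?_, ?_⟩
  · have h2 : (starRingEnd ℂ) 2 = 2 := by
      have := Complex.conj_ofReal 2
      simpa using this
    ext i j
    fin_cases i <;> fin_cases j <;>
      simp [cj, qm, Matrix.map_apply, Complex.conj_ofReal, h2]
  · rw [qm_det, hr]; simp
  · generalize hR : (fun i => (r i : GaussianInt)) = R at hr
    rintro A ⟨x, rfl, hx, h0, h1, h2, h3⟩
    refine ⟨qm (qmulv (gm_normal_bar R) (qmulv x R)), ⟨_, rfl, ?_, ?_, ?_, ?_, ?_⟩, ?_⟩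
    · rw [qn_mul, qn_mul, gm_normal_qnbar, hr, hx]; norm_num
    · obtain ⟨y0, h0⟩ := h0
      obtain ⟨y1, h1⟩ := h1
      obtain ⟨y2, h2⟩ := h2
      obtain ⟨y3, h3⟩ := h3
      have h0' : x 0 = 1 + 3 * y0 := by rw [← h0]; ring
      refine ⟨qmulv (gm_normal_bar R) (qmulv ![y0, y1, y2, y3] R) 0, ?_⟩
      unfold qn at hr
      simp only [qmulv, gm_normal_bar, Fin.isValue, Matrix.cons_val_zero,
        Matrix.cons_val_one, Matrix.cons_val, h0', h1, h2, h3]
      linear_combination hr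
    · obtain ⟨y0, h0⟩ := h0
      obtain ⟨y1, h1⟩ := h1
      obtain ⟨y2, h2⟩ := h2
      obtain ⟨y3, h3⟩ := h3
      have h0' : x 0 = 1 + 3 * y0 := by rw [← h0]; ring
      refine ⟨qmulv (gm_normal_bar R) (qmulv ![y0, y1, y2, y3] R) 1, ?_⟩
      simp only [qmulv, gm_normal_bar, Fin.isValue, Matrix.cons_val_zero,
        Matrix.cons_val_one, Matrix.cons_val, h0', h1, h2, h3]
      ring
    · obtain ⟨y0, h0⟩ := h0
      obtain ⟨y1, h1⟩ := h1
      obtain ⟨y2, h2⟩ := h2
      obtain ⟨y3, h3⟩ := h3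
      have h0' : x 0 = 1 + 3 * y0 := by rw [← h0]; ring
      refine ⟨qmulv (gm_normal_bar R) (qmulv ![y0, y1, y2, y3] R) 2, ?_⟩
      simp only [qmulv, gm_normal_bar, Fin.isValue, Matrix.cons_val_zero,
        Matrix.cons_val_one, Matrix.cons_val, h0', h1, h2, h3]
      ring
    · obtain ⟨y0, h0⟩ := h0
      obtain ⟨y1, h1⟩ := h1
      obtain ⟨y2, h2⟩ := h2
      obtain ⟨y3, h3⟩ := h3
      have h0' : x 0 = 1 + 3 * y0 := by rw [← h0]; ring
      refine ⟨qmulv (gm_normal_bar R) (qmulv ![y0, y1, y2, y3] R) 3, ?_⟩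
      simp only [qmulv, gm_normal_bar, Fin.isValue, Matrix.cons_val_zero,
        Matrix.cons_val_one, Matrix.cons_val, h0', h1, h2, h3]
      ring
    · rw [qm_mul, qm_mul, gm_normal_assoc R _ hr]

end J_gm_normal
export J_gm_normal (gm_normal)
end Pool.Agent.QG
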