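import Pool.Agent.QG.G
import Pool.Agent.QG.P_gm_normal

set_option autoImplicit false

namespace Pool.Agent.QG
open Set Filter Topology MeasureTheory Pool.Agent.BL
open Pool.Agent.BL.ActAlg (zt NN)
open scoped ContDiff

namespace J_rr_ge














theorem rr_ge : (∀ y ∈ U, 1 ≤ RR y) ∧ B0.det = 1 ∧ B1.det = 1 ∧ B0 * B1 = 1 ∧ B1 * B0 = 1 ∧
    cj B0 = B0 ∧ cj B1 = B1 ∧ (∀ A ∈ Gm, ∃ A' ∈ Gm, A * B0 = B0 * A') ∧
    (∀ A ∈ Gm, ∃ A' ∈ Gm, A * B1 = B1 * A') ∧ (∀ A ∈ Gm, ∃ A' ∈ Gm, B0 * A = A' * B0) := by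
  have hv0 : (![2, -1, -2, -1] : Fin 4 → GaussianInt) =
      fun i => (((![2, -1, -2, -1] : Fin 4 → ℤ) i : ℤ) : GaussianInt) := by
    funext i
    fin_cases i <;> simp
  have hv1 : (![2, 1, 2, 1] : Fin 4 → GaussianInt) =
      fun i => (((![2, 1, 2, 1] : Fin 4 → ℤ) i : ℤ) : GaussianInt) := by
    funext i
    fin_cases i <;> simp
  have hB0 : B0 = qm (fun i => (((![2, -1, -2, -1] : Fin 4 → ℤ) i : ℤ) : GaussianInt)) := by
    unfold B0
    rw [hv0]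
  have hB1 : B1 = qm (fun i => (((![2, 1, 2, 1] : Fin 4 → ℤ) i : ℤ) : GaussianInt)) := by
    unfold B1
    rw [hv1]
  have hq0 : qn (fun i => (((![2, -1, -2, -1] : Fin 4 → ℤ) i : ℤ) : GaussianInt)) = 1 := by
    rw [← hv0]
    simp [qn]
    norm_num
  have hq1 : qn (fun i => (((![2, 1, 2, 1] : Fin 4 → ℤ) i : ℤ) : GaussianInt)) = 1 := by
    rw [← hv1]
    simp [qn]
    norm_num
  obtain ⟨c0, d0, n0⟩ := gm_normal _ hq0
  obtain ⟨c1, d1, n1⟩ := gm_normal _ hq1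
  rw [← hB0] at c0 d0 n0
  rw [← hB1] at c1 d1 n1
  have h01 : B0 * B1 = 1 := by
    unfold B0 B1
    rw [qm_mul]
    have : qmulv ![2, -1, -2, -1] ![2, 1, 2, 1] = ![1, 0, 0, 0] := by
      unfold qmulv
      funext i
      fin_cases i <;> simp <;> norm_num
    rw [this]
    unfold qm
    ext i j
    fin_cases i <;> fin_cases j <;> simp
  have h10 : B1 * B0 = 1 := mul_eq_one_comm.1 h01
  refine ⟨?_, d0, d1, h01, h10, c0, c1, n0, n1, ?_⟩
  · intro y hy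
    have hy2 : 0 < y 2 := hy
    unfold RR
    rw [le_div_iff₀ hy2, one_mul]
    unfold en
    apply Real.le_sqrt_of_sq_le
    nlinarith [sq_nonneg (y 0), sq_nonneg (y 1)]
  · intro A hA
    obtain ⟨A', hA', h⟩ := n1 A hA
    refine ⟨A', hA', ?_⟩
    have e1 : A' = B0 * A * B1 := by
      rw [mul_assoc, h, ← mul_assoc, h01, one_mul]
    rw [e1, mul_assoc (B0 * A), h10, mul_one]

end J_rr_ge
export J_rr_ge (rr_ge)
end Pool.Agent.QG
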