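import Pool.Agent.QG.G
import Pool.Agent.QG.P_bdd_fin
import Pool.Agent.QG.P_axis_ne
import Pool.Agent.QG.P_lam_gm
import Pool.Agent.QG.P_rr_ge

set_option autoImplicit false

namespace Pool.Agent.QG
open Set Filter Topology MeasureTheory Pool.Agent.BL
open Pool.Agent.BL.ActAlg (zt NN)
open scoped ContDiff

namespace J_axis_gap


























theorem axis_gap : ∃ κ : ℝ, 1 < κ ∧ ∀ A ∈ Gm, κ ≤ RR (act (A * B0) o3) := by
  obtain ⟨_, hB0, _⟩ := rr_ge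
  have ho3 : o3 ∈ U := by simp [U, o3]
  set q := act B0 o3 with hq
  have hqU : q ∈ U := act_mem B0 hB0 o3 ho3
  have hact : ∀ A ∈ Gm, act (A * B0) o3 = act A q :=
    fun A hA => act_mul A B0 (gm_det A hA) hB0 o3 ho3
  have hfin := bdd_fin (ch o3 q) (lam ^ 2 + 1)
  obtain ⟨κ, hκ1, hκ⟩ : ∃ κ : ℝ, 1 < κ ∧
      ∀ A ∈ {A | A ∈ Gm ∧ ∃ z ∈ U, ch o3 z ≤ ch o3 q ∧ ch o3 (act A z) ≤ lam ^ 2 + 1},
        κ ≤ RR (act (A * B0) o3) := by
    rcases Set.eq_empty_or_nonempty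
      {A | A ∈ Gm ∧ ∃ z ∈ U, ch o3 z ≤ ch o3 q ∧ ch o3 (act A z) ≤ lam ^ 2 + 1} with h | h
    · exact ⟨2, by norm_num, by rw [h]; simp⟩
    · obtain ⟨A0, hA0, hmin⟩ := Set.exists_min_image _ (fun A => RR (act (A * B0) o3)) hfin h
      exact ⟨_, axis_ne A0 hA0.1, hmin⟩
  obtain ⟨hlam, htr⟩ := lam_gm
  have hlam0 : 0 < lam := by linarith
  refine ⟨min κ 2, lt_min hκ1 (by norm_num), fun A hA => ?_⟩
  by_cases h2 : 2 ≤ RR (act (A * B0) o3)
  · exact (min_le_right _ _).trans h2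
  rw [not_le] at h2
  refine (min_le_left _ _).trans ?_
  rw [hact A hA] at h2 ⊢
  set y := act A q with hy
  have hyU : y ∈ U := act_mem A (gm_det A hA) q hqU
  have hy2 : 0 < y 2 := hyU
  have hen : 0 < en y := Real.sqrt_pos.2 (by positivity)
  obtain ⟨n, hn1, hn2⟩ := exists_mem_Ico_zpow hen hlam
  obtain ⟨T, hT, hTact⟩ := htr (-n)
  set c := lam ^ (-n) with hc
  have hc0 : 0 < c := zpow_pos hlam0 _
  have hcn : c * lam ^ n = 1 := by
    rw [hc, ← zpow_add₀ hlam0.ne']; simp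
  have hTA : T * A ∈ Gm := gm_mul T A hT hA
  have hTA2 : act (T * A) q = c • y := by
    rw [act_mul T A (gm_det T hT) (gm_det A hA) q hqU, ← hy, hTact y hyU]
  have hs : ∀ i, (c • y) i = c * y i := fun i => rfl
  have henc : en (c • y) = c * en y := by
    unfold en
    rw [hs, hs, hs, ← Real.sqrt_sq hc0.le, ← Real.sqrt_mul (by positivity), Real.sqrt_sq hc0.le]
    congr 1; ring
  have hRR : RR (c • y) = RR y := by
    unfold RR
    rw [henc, hs, mul_div_mul_left _ _ hc0.ne']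
  have h1 : 1 ≤ en (c • y) := by
    rw [henc, ← hcn]
    exact mul_le_mul_of_nonneg_left hn1 hc0.le
  have h3 : en (c • y) ≤ lam := by
    rw [henc]
    have h4 := mul_le_mul_of_nonneg_left hn2.le hc0.le
    rw [zpow_add₀ hlam0.ne', zpow_one, ← mul_assoc, hcn, one_mul] at h4
    exact h4
  have hw2 : 0 < (c • y) 2 := by rw [hs]; positivity
  have h5 : 1 / 2 < (c • y) 2 := by
    have h6 : RR (c • y) < 2 := by rw [hRR]; exact h2
    unfold RR at h6
    rw [div_lt_iff₀ hw2] at h6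
    linarith
  have hsq : (c • y) 0 ^ 2 + (c • y) 1 ^ 2 + (c • y) 2 ^ 2 = en (c • y) ^ 2 := by
    unfold en
    rw [Real.sq_sqrt (by positivity)]
  have hch : ch o3 (c • y) ≤ lam ^ 2 + 1 := by
    have e0 : o3 0 = 0 := rfl
    have e1 : o3 1 = 0 := rfl
    have e2 : o3 2 = 1 := rfl
    have h7 : ch o3 (c • y) = (en (c • y) ^ 2 + 1) / (2 * (c • y) 2) := by
      unfold ch
      rw [e0, e1, e2, ← hsq]
      field_simp
      ring
    rw [h7, div_le_iff₀ (by positivity)]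
    have h8 : en (c • y) ^ 2 ≤ lam ^ 2 := by gcongr
    nlinarith [sq_nonneg lam]
  have h9 := hκ (T * A) ⟨hTA, q, hqU, le_rfl, by rw [hTA2]; exact hch⟩
  rwa [hact _ hTA, hTA2, hRR] at h9

end J_axis_gap
export J_axis_gap (axis_gap)
end Pool.Agent.QG
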