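import Pool.Agent.QG.G
import Pool.Agent.QG.P_lam_gm

set_option autoImplicit false

namespace Pool.Agent.QG
open Set Filter Topology MeasureTheory Pool.Agent.BL
open Pool.Agent.BL.ActAlg (zt NN)
open scoped ContDiff

namespace J_axis_path











theorem axis_path_aux_len (u : V3 → ℝ) (b : ℝ → ℝ) (C₁ : ℝ) (P : Pk u b C₁) (i : ℕ) :
    curveLen (hg u 0) (fun t => (lam ^ i * Real.exp (t * Real.log lam)) • o3) =
      ∫ t in (0 : ℝ)..1, Real.log lam * Real.exp (u (Real.exp (t * Real.log lam) • o3)) := by
  have hl1 : 1 < lam := lam_gm.1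
  have hl0 : 0 < lam := by linarith
  have hl : 0 < Real.log lam := Real.log_pos hl1
  unfold curveLen
  apply intervalIntegral.integral_congr
  intro t ht
  rw [uIcc_of_le zero_le_one] at ht
  have hd : HasDerivAt (fun t : ℝ => (lam ^ i * Real.exp (t * Real.log lam)) • o3)
      ((lam ^ i * (Real.exp (t * Real.log lam) * Real.log lam)) • o3) t := by
    apply HasDerivAt.smul_const
    apply HasDerivAt.const_mul
    have h1 : HasDerivAt (fun t : ℝ => t * Real.log lam) (Real.log lam) t := by
      simpa using (hasDerivAt_id t).mul_const (Real.log lam)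
    exact h1.exp
  have hdw : derivWithin (fun t : ℝ => (lam ^ i * Real.exp (t * Real.log lam)) • o3) (Icc 0 1) t
      = (lam ^ i * (Real.exp (t * Real.log lam) * Real.log lam)) • o3 :=
    hd.hasDerivWithinAt.derivWithin (uniqueDiffOn_Icc zero_lt_one t ht)
  show Real.sqrt (hg u 0 ((lam ^ i * Real.exp (t * Real.log lam)) • o3) _ _) = _
  simp only [hdw]
  have hinv : u ((lam ^ i * Real.exp (t * Real.log lam)) • o3)
      = u (Real.exp (t * Real.log lam) • o3) := by
    obtain ⟨A, hA, hAx⟩ := lam_gm.2 (i : ℤ)
    have hU : Real.exp (t * Real.log lam) • o3 ∈ U := by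
      simp [U, o3, Real.exp_pos]
    have h1 := P.inv A hA _ hU
    rw [hAx _ hU] at h1
    rw [← h1, smul_smul]
    simp
  have hy : 0 < lam ^ i * Real.exp (t * Real.log lam) := by positivity
  set y : ℝ := lam ^ i * Real.exp (t * Real.log lam) with hydef
  have e1 : lam ^ i * (Real.exp (t * Real.log lam) * Real.log lam) = y * Real.log lam := by
    rw [hydef]; ring
  rw [e1]
  have e2 : hg u 0 (y • o3) ((y * Real.log lam) • o3) ((y * Real.log lam) • o3) =
      (Real.log lam * Real.exp (u (y • o3))) ^ 2 := by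
    have e3 : (y • o3) 2 = y := by simp [o3]
    simp only [hg, cg, e3]
    have e4 : dot ((y * Real.log lam) • o3) ((y * Real.log lam) • o3) = (y * Real.log lam) ^ 2 := by
      simp [dot, o3]; ring
    rw [e4]
    have e5 : Real.exp (2 * (u (y • o3) - Real.log y + 0)) =
        Real.exp (u (y • o3)) ^ 2 / y ^ 2 := by
      have : 2 * (u (y • o3) - Real.log y + 0) = (u (y • o3) - Real.log y) + (u (y • o3) - Real.log y) := by
        ring
      rw [this, Real.exp_add, Real.exp_sub, Real.exp_log hy]
      field_simp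
    rw [e5]
    field_simp
  rw [e2, Real.sqrt_sq (by positivity), hinv]

theorem axis_path_aux_lt (u : V3 → ℝ) (b : ℝ → ℝ) (C₁ : ℝ) (P : Pk u b C₁) :
    (∫ t in (0 : ℝ)..1, Real.log lam * Real.exp (u (Real.exp (t * Real.log lam) • o3))) <
      Real.log lam := by
  have hl1 : 1 < lam := lam_gm.1
  have hl : 0 < Real.log lam := Real.log_pos hl1
  have hU : ∀ t : ℝ, Real.exp (t * Real.log lam) • o3 ∈ U := by
    intro t
    simp [U, o3, Real.exp_pos]
  have hcont : Continuous (fun t : ℝ => u (Real.exp (t * Real.log lam) • o3)) := by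
    apply P.smooth.continuousOn.comp_continuous _ hU
    fun_prop
  have h1 : (∫ t in (0 : ℝ)..1, Real.log lam * Real.exp (u (Real.exp (t * Real.log lam) • o3))) <
      ∫ t in (0 : ℝ)..1, Real.log lam := by
    apply intervalIntegral.integral_lt_integral_of_continuousOn_of_le_of_exists_lt zero_lt_one
    · exact (continuous_const.mul (Real.continuous_exp.comp hcont)).continuousOn
    · exact continuousOn_const
    · intro t _
      have h2 : Real.exp (u (Real.exp (t * Real.log lam) • o3)) ≤ 1 :=
        Real.exp_le_one_iff.2 (P.nonpos _ (hU t))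
      nlinarith
    · refine ⟨0, by simp, ?_⟩
      have h2 : Real.exp (u (Real.exp ((0 : ℝ) * Real.log lam) • o3)) < 1 := by
        rw [zero_mul, Real.exp_zero, one_smul]
        have := Real.exp_lt_exp.2 P.neg0
        rwa [Real.exp_zero] at this
      nlinarith
  simpa using h1

theorem axis_path (u : V3 → ℝ) (b : ℝ → ℝ) (C₁ : ℝ) (P : Pk u b C₁) (p0 : V3) (h : PB p0) :
    ∃ L0 : ℝ, L0 < Real.log lam ∧ ∀ n : ℕ,
      pdist (XX p0) (hg u 0) o3 ![0, 0, lam ^ n] ≤ n * L0 := by
  have hl1 : 1 < lam := lam_gm.1
  have hl0 : 0 < lam := by linarith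
  have hl : 0 < Real.log lam := Real.log_pos hl1
  refine ⟨∫ t in (0 : ℝ)..1, Real.log lam * Real.exp (u (Real.exp (t * Real.log lam) • o3)),
    axis_path_aux_lt u b C₁ P, ?_⟩
  intro n
  unfold pdist
  apply csInf_le
  · refine ⟨0, ?_⟩
    rintro L ⟨m, pt, c, _, _, _, rfl⟩
    apply Finset.sum_nonneg
    intro i _
    unfold curveLen
    apply intervalIntegral.integral_nonneg zero_le_one
    intro t _
    exact Real.sqrt_nonneg _
  · refine ⟨n, fun i => (lam ^ i) • o3,
      fun i t => (lam ^ i * Real.exp (t * Real.log lam)) • o3, ?_, ?_, ?_, ?_⟩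
    · simp
    · ext j
      fin_cases j <;> simp [o3]
    · intro i _
      refine ⟨?_, ?_, ?_, ?_⟩
      · apply ContDiff.contDiffOn
        have hc : ContDiff ℝ 1 (fun t : ℝ => lam ^ i * Real.exp (t * Real.log lam)) :=
          contDiff_const.mul ((contDiff_id.mul contDiff_const).exp)
        exact hc.smul contDiff_const
      · intro t _
        have hU : (lam ^ i * Real.exp (t * Real.log lam)) • o3 ∈ U := by
          have : 0 < lam ^ i * Real.exp (t * Real.log lam) := by positivity
          simpa [U, o3] using this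
        exact ⟨hU, fun A hA => h.plane A hA _ hU (by simp [o3])⟩
      · simp
      · simp only [one_mul]
        rw [Real.exp_log hl0, pow_succ]
    · rw [Finset.sum_congr rfl (fun i _ => axis_path_aux_len u b C₁ P i)]
      simp

end J_axis_path
export J_axis_path (axis_path)
end Pool.Agent.QG
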