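import Pool.Agent.QG.G

set_option autoImplicit false

namespace Pool.Agent.QG
open Set Filter Topology MeasureTheory Pool.Agent.BL
open Pool.Agent.BL.ActAlg (zt NN)
open scoped ContDiff

namespace J_dis_ex

















theorem dis_ex_o3 : o3 ∈ U := oU.2

theorem dis_ex_gt (x : V3) (hx : x ∈ U) (h : x ≠ o3) : 1 < ch o3 x := by
  have hx2 : 0 < x 2 := hx
  have h0 : o3 0 = 0 := rfl
  have h1 : o3 1 = 0 := rfl
  have h2 : o3 2 = 1 := rfl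
  unfold ch
  rw [h0, h1, h2]
  have h3 : 0 < (x 0 - 0) ^ 2 + (x 1 - 0) ^ 2 + (x 2 - 1) ^ 2 := by
    by_contra hcon
    push Not at hcon
    apply h
    have e0 : x 0 = 0 := by nlinarith [sq_nonneg (x 0 - 0), sq_nonneg (x 1 - 0), sq_nonneg (x 2 - 1)]
    have e1 : x 1 = 0 := by nlinarith [sq_nonneg (x 0 - 0), sq_nonneg (x 1 - 0), sq_nonneg (x 2 - 1)]
    have e2 : x 2 = 1 := by
      have : (x 2 - 1) ^ 2 = 0 := by
        nlinarith [sq_nonneg (x 0 - 0), sq_nonneg (x 1 - 0), sq_nonneg (x 2 - 1)]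
      have := pow_eq_zero_iff (two_ne_zero) |>.1 this
      linarith
    ext i
    fin_cases i
    · exact e0
    · exact e1
    · exact e2
  have h4 : 0 < ((x 0 - 0) ^ 2 + (x 1 - 0) ^ 2 + (x 2 - 1) ^ 2) / (2 * 1 * x 2) := by positivity
  linarith

theorem dis_ex_gap : ∃ m : ℝ, 0 < m ∧ ∀ A ∈ Gm, act A o3 ≠ o3 → 1 + m ≤ ch o3 (act A o3) := by
  have hfin : {A | (A ∈ Gm ∧ ch o3 (act A o3) ≤ 10) ∧ act A o3 ≠ o3}.Finite :=
    (gm_finite 10).subset fun A hA => hA.1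
  rcases Set.eq_empty_or_nonempty {A | (A ∈ Gm ∧ ch o3 (act A o3) ≤ 10) ∧ act A o3 ≠ o3} with
    h0 | hne
  · refine ⟨9, by norm_num, fun A hA hne => ?_⟩
    by_contra hcon
    push Not at hcon
    have : A ∈ {A | (A ∈ Gm ∧ ch o3 (act A o3) ≤ 10) ∧ act A o3 ≠ o3} :=
      ⟨⟨hA, by linarith⟩, hne⟩
    rw [h0] at this
    exact this
  · obtain ⟨A0, hA0, hmin⟩ := Set.exists_min_image _ (fun A => ch o3 (act A o3)) hfin hne
    have h1 := dis_ex_gt (act A0 o3) (act_mem A0 (gm_det A0 hA0.1.1) o3 dis_ex_o3) hA0.2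
    refine ⟨ch o3 (act A0 o3) - 1, by linarith, fun A hA hne => ?_⟩
    by_cases h2 : ch o3 (act A o3) ≤ 10
    · have := hmin A ⟨⟨hA, h2⟩, hne⟩
      linarith
    · have := hA0.1.2
      linarith

theorem dis_ex_tri (p q z : V3) (hp : p ∈ U) (hq : q ∈ U) (hz : z ∈ U) (C : ℝ) (hC : 1 < C)
    (h1 : ch p z < C) (h2 : ch q z < C) : ch p q < 2 * C ^ 2 - 1 := by
  have e1 : Real.cosh (hd ⟨p, hp⟩ ⟨z, hz⟩) = ch p z := cosh_hd ⟨p, hp⟩ ⟨z, hz⟩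
  have e2 : Real.cosh (hd ⟨z, hz⟩ ⟨q, hq⟩) = ch q z := by
    rw [hd_comm]
    exact cosh_hd ⟨q, hq⟩ ⟨z, hz⟩
  have e3 : Real.cosh (hd ⟨p, hp⟩ ⟨q, hq⟩) = ch p q := cosh_hd ⟨p, hp⟩ ⟨q, hq⟩
  have h3 := hd_tri ⟨p, hp⟩ ⟨z, hz⟩ ⟨q, hq⟩
  have h4 : Real.cosh (hd ⟨p, hp⟩ ⟨q, hq⟩) ≤
      Real.cosh (hd ⟨p, hp⟩ ⟨z, hz⟩ + hd ⟨z, hz⟩ ⟨q, hq⟩) := by
    rw [Real.cosh_le_cosh, abs_of_nonneg (hd_nn _ _),
      abs_of_nonneg (add_nonneg (hd_nn _ _) (hd_nn _ _))]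
    exact h3
  rw [e3, Real.cosh_add, e1, e2] at h4
  have h5 := Real.cosh_sq (hd ⟨p, hp⟩ ⟨z, hz⟩)
  have h6 := Real.cosh_sq (hd ⟨z, hz⟩ ⟨q, hq⟩)
  rw [e1] at h5
  rw [e2] at h6
  have h7 : 1 ≤ ch p z := ch_one_le p z hp hz
  have h8 : 1 ≤ ch q z := ch_one_le q z hq hz
  generalize Real.sinh (hd ⟨p, hp⟩ ⟨z, hz⟩) = s at *
  generalize Real.sinh (hd ⟨z, hz⟩ ⟨q, hq⟩) = t at *
  have k1 : ch p z ^ 2 < C ^ 2 := by nlinarith
  have k2 : ch q z ^ 2 < C ^ 2 := by nlinarith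
  nlinarith [sq_nonneg (s - t), sq_nonneg (ch p z - ch q z)]

theorem dis_ex : ∃ C : ℝ, 1 < C ∧ Dis C := by
  obtain ⟨m, hm, hgap⟩ := dis_ex_gap
  have hC : 1 < Real.sqrt (1 + m / 2) := by
    rw [Real.lt_sqrt (by norm_num)]
    linarith
  refine ⟨Real.sqrt (1 + m / 2), hC, ?_⟩
  intro A hA B hB z hz h1 h2
  have hAU := act_mem A (gm_det A hA) o3 dis_ex_o3
  have hBU := act_mem B (gm_det B hB) o3 dis_ex_o3
  have h3 := dis_ex_tri (act A o3) (act B o3) z hAU hBU hz _ hC h1 h2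
  rw [Real.sq_sqrt (by linarith)] at h3
  obtain ⟨A', hA', hAA', hA'A⟩ := gm_inv A hA
  have h4 : ch (act A o3) (act B o3) = ch o3 (act (A' * B) o3) := by
    rw [← act_ch A' (gm_det A' hA') _ _ hAU hBU,
      ← act_mul A' A (gm_det A' hA') (gm_det A hA) o3 dis_ex_o3, hA'A, act_one o3 dis_ex_o3,
      ← act_mul A' B (gm_det A' hA') (gm_det B hB) o3 dis_ex_o3]
  have h5 : act (A' * B) o3 = o3 := by
    by_contra hne
    have := hgap (A' * B) (gm_mul A' B hA' hB) hne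
    linarith
  rw [act_mul A' B (gm_det A' hA') (gm_det B hB) o3 dis_ex_o3] at h5
  have h6 : act A (act A' (act B o3)) = act B o3 := by
    rw [← act_mul A A' (gm_det A hA) (gm_det A' hA') _ hBU, hAA', act_one _ hBU]
  rw [← h6, h5]

end J_dis_ex
export J_dis_ex (dis_ex)
end Pool.Agent.QG
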