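import Pool.Agent.QG.G

set_option autoImplicit false

namespace Pool.Agent.QG
open Set Filter Topology MeasureTheory Pool.Agent.BL
open Pool.Agent.BL.ActAlg (zt NN)
open scoped ContDiff

namespace J_fw_calc




theorem fwc_fderiv (a b c d : ℝ) (x v : V3) :
    fderiv ℝ (fun x : V3 => a * (x 0 ^ 2 + x 1 ^ 2 + x 2 ^ 2) + b * x 0 + c * x 1 + d) x v
      = 2 * a * dot x v + b * v 0 + c * v 1 := by
  have hp : ∀ i : Fin 3, HasFDerivAt (fun z : V3 => z i) (ContinuousLinearMap.proj (R := ℝ) (φ := fun _ : Fin 3 => ℝ) i) x :=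
    fun i => hasFDerivAt_apply i x
  have h := (((((hp 0).pow 2).add ((hp 1).pow 2)).add ((hp 2).pow 2)).const_mul a).add ((hp 0).const_mul b)
  have h2 := (h.add ((hp 1).const_mul c)).add_const d
  have h3 : fderiv ℝ (fun x : V3 => a * (x 0 ^ 2 + x 1 ^ 2 + x 2 ^ 2) + b * x 0 + c * x 1 + d) x = _ := h2.fderiv
  rw [h3]
  simp [dot]
  ring

theorem fwc_id (p q r s : ℂ) (h : p * s - q * r = 1) :
    (p * (starRingEnd ℂ) s + q * (starRingEnd ℂ) r).im ^ 2 + (p * (starRingEnd ℂ) s - q * (starRingEnd ℂ) r).re ^ 2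
      - 4 * (p * (starRingEnd ℂ) r).im * (q * (starRingEnd ℂ) s).im = 1 := by
  have h1 := congrArg Complex.re h
  have h2 := congrArg Complex.im h
  simp at h1 h2
  simp
  have h3 : (p.re * s.re - p.im * s.im - (q.re * r.re - q.im * r.im)) ^ 2 +
      (p.re * s.im + p.im * s.re - (q.re * r.im + q.im * r.re)) ^ 2 = 1 := by
    rw [h1, h2]; norm_num
  rw [← h3]
  ring

theorem fw_calc (A : Matrix (Fin 2) (Fin 2) ℂ) (hA : A.det = 1) : ContDiff ℝ ∞ (fW A) ∧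
    (∀ x ∈ U, fW A x = 0 → fderiv ℝ (fW A) x ≠ 0) ∧
    ∃ a b c : ℝ, (∀ x v : V3, fderiv ℝ (fW A) x v = 2 * a * dot x v + b * v 0 + c * v 1) ∧
      ∀ x v w : V3, fderiv ℝ (fun z => fderiv ℝ (fW A) z w) x v = 2 * a * dot v w := by
  have hfW : fW A = fun x : V3 => (A 0 0 * (starRingEnd ℂ) (A 1 0)).im * (x 0 ^ 2 + x 1 ^ 2 + x 2 ^ 2) +
    (A 0 0 * (starRingEnd ℂ) (A 1 1) + A 0 1 * (starRingEnd ℂ) (A 1 0)).im * x 0 +
    (A 0 0 * (starRingEnd ℂ) (A 1 1) - A 0 1 * (starRingEnd ℂ) (A 1 0)).re * x 1 +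
    (A 0 1 * (starRingEnd ℂ) (A 1 1)).im := rfl
  rw [Matrix.det_fin_two] at hA
  have hid := fwc_id _ _ _ _ hA
  obtain ⟨a, ha⟩ : ∃ a, a = (A 0 0 * (starRingEnd ℂ) (A 1 0)).im := ⟨_, rfl⟩
  obtain ⟨b, hb⟩ : ∃ b, b = (A 0 0 * (starRingEnd ℂ) (A 1 1) + A 0 1 * (starRingEnd ℂ) (A 1 0)).im := ⟨_, rfl⟩
  obtain ⟨c, hc⟩ : ∃ c, c = (A 0 0 * (starRingEnd ℂ) (A 1 1) - A 0 1 * (starRingEnd ℂ) (A 1 0)).re := ⟨_, rfl⟩
  obtain ⟨d, hd⟩ : ∃ d, d = (A 0 1 * (starRingEnd ℂ) (A 1 1)).im := ⟨_, rfl⟩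
  rw [← ha, ← hb, ← hc, ← hd] at hfW hid
  rw [hfW]
  refine ⟨by fun_prop, ?_, a, b, c, fun x v => fwc_fderiv a b c d x v, ?_⟩
  · intro x hx _ h0
    have hx2 : 0 < x 2 := hx
    have e : ∀ v : V3, 2 * a * dot x v + b * v 0 + c * v 1 = 0 := by
      intro v
      rw [← fwc_fderiv a b c d x v, h0]
      rfl
    have e2 := e ![0, 0, 1]
    have e0 := e ![1, 0, 0]
    have e1 := e ![0, 1, 0]
    simp [dot] at e2 e0 e1
    have ha0 : a = 0 := by
      rcases e2 with h | h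
      · exact h
      · exact absurd h hx2.ne'
    subst ha0
    simp at e0 e1
    rw [e0, e1] at hid
    norm_num at hid
  · intro x v w
    have e : (fun z : V3 => fderiv ℝ (fun x : V3 => a * (x 0 ^ 2 + x 1 ^ 2 + x 2 ^ 2) + b * x 0 + c * x 1 + d) z w)
        = fun z => 2 * a * dot z w + b * w 0 + c * w 1 := by
      funext z
      exact fwc_fderiv a b c d z w
    rw [e]
    have hp : ∀ i : Fin 3, HasFDerivAt (fun z : V3 => z i) (ContinuousLinearMap.proj (R := ℝ) (φ := fun _ : Fin 3 => ℝ) i) x :=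
      fun i => hasFDerivAt_apply i x
    have h := ((((((hp 0).mul_const (w 0)).add ((hp 1).mul_const (w 1))).add ((hp 2).mul_const (w 2))).const_mul (2 * a)).add_const (b * w 0)).add_const (c * w 1)
    have h3 : fderiv ℝ (fun z : V3 => 2 * a * dot z w + b * w 0 + c * w 1) x = _ := h.fderiv
    rw [h3]
    simp [dot]
    ring

end J_fw_calc
export J_fw_calc (fw_calc)
end Pool.Agent.QG
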