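import Pool.Agent.QG.G

set_option autoImplicit false

namespace Pool.Agent.QG
open Set Filter Topology MeasureTheory Pool.Agent.BL
open Pool.Agent.BL.ActAlg (zt NN)
open scoped ContDiff

namespace J_act_cj








theorem act_cj (A : Matrix (Fin 2) (Fin 2) ℂ) (hA : A.det = 1) (x : V3) (hx : x ∈ U) :
    act (cj A) (sg x) = sg (act A x) := by
  have h1 : ∀ i j, (cj A) i j = (starRingEnd ℂ) (A i j) := fun i j => rfl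
  have s0 : sg x 0 = x 0 := rfl
  have s1 : sg x 1 = -x 1 := rfl
  have s2 : sg x 2 = x 2 := rfl
  have hz : (⟨sg x 0, sg x 1⟩ : ℂ) = (starRingEnd ℂ) (⟨x 0, x 1⟩ : ℂ) := by
    rw [s0, s1]; rfl
  have hN : Complex.normSq ((cj A) 1 0 * (⟨sg x 0, sg x 1⟩ : ℂ) + (cj A) 1 1) +
      Complex.normSq ((cj A) 1 0) * (sg x 2) ^ 2 =
      Complex.normSq (A 1 0 * (⟨x 0, x 1⟩ : ℂ) + A 1 1) + Complex.normSq (A 1 0) * (x 2) ^ 2 := by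
    rw [hz, h1, h1, s2, ← map_mul, ← map_add, Complex.normSq_conj, Complex.normSq_conj]
  have hE : ((cj A) 0 0 * (⟨sg x 0, sg x 1⟩ : ℂ) + (cj A) 0 1) *
      (starRingEnd ℂ) ((cj A) 1 0 * (⟨sg x 0, sg x 1⟩ : ℂ) + (cj A) 1 1)
      + (cj A) 0 0 * (starRingEnd ℂ) ((cj A) 1 0) * (((sg x 2) ^ 2 : ℝ) : ℂ) =
      (starRingEnd ℂ) ((A 0 0 * (⟨x 0, x 1⟩ : ℂ) + A 0 1) *
        (starRingEnd ℂ) (A 1 0 * (⟨x 0, x 1⟩ : ℂ) + A 1 1)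
        + A 0 0 * (starRingEnd ℂ) (A 1 0) * (((x 2) ^ 2 : ℝ) : ℂ)) := by
    rw [hz]
    simp only [h1, s2, map_mul, map_add, Complex.conj_conj, Complex.conj_ofReal]
  have hact : act (cj A) (sg x) = ![(((cj A) 0 0 * (⟨sg x 0, sg x 1⟩ : ℂ) + (cj A) 0 1) *
      (starRingEnd ℂ) ((cj A) 1 0 * (⟨sg x 0, sg x 1⟩ : ℂ) + (cj A) 1 1)
      + (cj A) 0 0 * (starRingEnd ℂ) ((cj A) 1 0) * (((sg x 2) ^ 2 : ℝ) : ℂ)).re /
      (Complex.normSq ((cj A) 1 0 * (⟨sg x 0, sg x 1⟩ : ℂ) + (cj A) 1 1) +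
      Complex.normSq ((cj A) 1 0) * (sg x 2) ^ 2),
      (((cj A) 0 0 * (⟨sg x 0, sg x 1⟩ : ℂ) + (cj A) 0 1) *
      (starRingEnd ℂ) ((cj A) 1 0 * (⟨sg x 0, sg x 1⟩ : ℂ) + (cj A) 1 1)
      + (cj A) 0 0 * (starRingEnd ℂ) ((cj A) 1 0) * (((sg x 2) ^ 2 : ℝ) : ℂ)).im /
      (Complex.normSq ((cj A) 1 0 * (⟨sg x 0, sg x 1⟩ : ℂ) + (cj A) 1 1) +
      Complex.normSq ((cj A) 1 0) * (sg x 2) ^ 2),
      sg x 2 / (Complex.normSq ((cj A) 1 0 * (⟨sg x 0, sg x 1⟩ : ℂ) + (cj A) 1 1) +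
      Complex.normSq ((cj A) 1 0) * (sg x 2) ^ 2)] := rfl
  rw [hact, hE, hN, s2, Complex.conj_re, Complex.conj_im, neg_div]
  rfl

end J_act_cj
export J_act_cj (act_cj)
end Pool.Agent.QG
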