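import Pool.Agent.QG.G

set_option autoImplicit false

namespace Pool.Agent.QG
open Set Filter Topology MeasureTheory Pool.Agent.BL
open Pool.Agent.BL.ActAlg (zt NN)
open scoped ContDiff

namespace J_cj_gm




theorem cj_gm : (∀ A ∈ Gm, cj A ∈ Gm) ∧
    (∀ A B : Matrix (Fin 2) (Fin 2) ℂ, cj (A * B) = cj A * cj B) ∧
    (∀ A : Matrix (Fin 2) (Fin 2) ℂ, A.det = 1 → (cj A).det = 1) ∧
    (∀ A : Matrix (Fin 2) (Fin 2) ℂ, cj (cj A) = A) ∧
    cj (1 : Matrix (Fin 2) (Fin 2) ℂ) = 1 := by
  refine ⟨?_, ?_, ?_, ?_, ?_⟩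
  · rintro A ⟨x, rfl, h1, h2, h3, h4, h5⟩
    have hdvd : ∀ y : GaussianInt, (3 : GaussianInt) ∣ y → (3 : GaussianInt) ∣ star y := by
      rintro y ⟨z, rfl⟩
      refine ⟨star z, ?_⟩
      rw [star_mul, mul_comm]
      congr 1
    refine ⟨fun i => star (x i), ?_, ?_, ?_, hdvd _ h3, hdvd _ h4, hdvd _ h5⟩
    · unfold cj qm
      ext i j
      have e2 : (starRingEnd ℂ) 2 = 2 := Complex.conj_ofNat 2
      fin_cases i <;> fin_cases j <;> simp [Matrix.map_apply, GaussianInt.toComplex_star, e2]
    · have h6 : qn (fun i => star (x i)) = star (qn x) := by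
        unfold qn
        have e5 : star (5 : GaussianInt) = 5 := rfl
        have e2 : star (2 : GaussianInt) = 2 := rfl
        have e10 : star (10 : GaussianInt) = 10 := rfl
        simp only [star_add, star_sub, star_mul, star_pow, e5, e2, e10]
        ring
      rw [h6, h1, star_one]
    · have h7 := hdvd _ h2
      rw [star_sub, star_one] at h7
      exact h7
  · intro A B
    unfold cj
    exact Matrix.map_mul
  · intro A hA
    have h : (cj A).det = (starRingEnd ℂ) A.det := by
      unfold cj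
      rw [Matrix.det_fin_two, Matrix.det_fin_two]
      simp [Matrix.map_apply]
    rw [h, hA, map_one]
  · intro A
    unfold cj
    ext i j
    simp [Matrix.map_apply]
  · unfold cj
    ext i j
    fin_cases i <;> fin_cases j <;> simp [Matrix.map_apply]

end J_cj_gm
export J_cj_gm (cj_gm)
end Pool.Agent.QG
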