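import Pool.Agent.QG.G

set_option autoImplicit false

namespace Pool.Agent.QG
open Set Filter Topology MeasureTheory Pool.Agent.BL
open Pool.Agent.BL.ActAlg (zt NN)
open scoped ContDiff

namespace J_fw_act








theorem fw_act (A : Matrix (Fin 2) (Fin 2) ℂ) (hA : A.det = 1) (x : V3) (hx : x ∈ U) :
    fW A x = act A x 1 * NN A x := by
  have hN := NN_pos A hA x hx
  have h1 : act A x 1 * NN A x =
      ((A 0 0 * zt x + A 0 1) * (starRingEnd ℂ) (A 1 0 * zt x + A 1 1)
        + A 0 0 * (starRingEnd ℂ) (A 1 0) * ((x 2) ^ 2 : ℝ)).im := by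
    have e : act A x 1 = ((A 0 0 * zt x + A 0 1) * (starRingEnd ℂ) (A 1 0 * zt x + A 1 1)
        + A 0 0 * (starRingEnd ℂ) (A 1 0) * ((x 2) ^ 2 : ℝ)).im / NN A x := rfl
    rw [e, div_mul_cancel₀ _ hN.ne']
  rw [h1]
  unfold fW zt
  simp only [Complex.add_im, Complex.mul_im, Complex.mul_re, Complex.add_re, map_add, map_mul,
    Complex.conj_re, Complex.conj_im, Complex.ofReal_re, Complex.ofReal_im, Complex.sub_re]
  ring

end J_fw_act
export J_fw_act (fw_act)
end Pool.Agent.QG
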