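import Pool.Agent.QG.G
import Pool.Agent.QG.P_fw_act
import Pool.Agent.QG.P_act_cj
import Pool.Agent.QG.P_cj_gm

set_option autoImplicit false

namespace Pool.Agent.QG
open Set Filter Topology MeasureTheory Pool.Agent.BL
open Pool.Agent.BL.ActAlg (zt NN)
open scoped ContDiff

namespace J_gapw




















theorem gapw (C : ℝ) (hC : Dis C) (A B : Matrix (Fin 2) (Fin 2) ℂ) (hA : A ∈ Gm) (hB : B ∈ Gm)
    (y : V3) (hy : y ∈ U) (h0 : fW A y = 0) (h : ch (act B o3) y < C) :
    fW A (act B o3) = 0 := by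
  have hAd := gm_det A hA
  have hBd := gm_det B hB
  have ho : o3 ∈ U := by simp [U, o3]
  have hBo : act B o3 ∈ U := act_mem B hBd o3 ho
  obtain ⟨z, hz⟩ : ∃ z, z = act A y := ⟨_, rfl⟩
  have hzU : z ∈ U := by rw [hz]; exact act_mem A hAd y hy
  have hz1 : z 1 = 0 := by
    have := fw_act A hAd y hy
    rw [h0, ← hz] at this
    exact (mul_eq_zero.1 this.symm).resolve_right (NN_pos A hAd y hy).ne'
  have hsz : sg z = z := by
    ext i
    fin_cases i
    · rfl
    · show -z 1 = z 1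
      rw [hz1, neg_zero]
    · rfl
  have hso : sg o3 = o3 := by
    ext i
    fin_cases i <;> simp [sg, o3]
  have hchsg : ∀ p x, ch (sg p) (sg x) = ch p x := by
    intro p x
    show 1 + ((x 0 - p 0) ^ 2 + (-x 1 - -p 1) ^ 2 + (x 2 - p 2) ^ 2) / (2 * p 2 * x 2)
      = 1 + ((x 0 - p 0) ^ 2 + (x 1 - p 1) ^ 2 + (x 2 - p 2) ^ 2) / (2 * p 2 * x 2)
    ring
  obtain ⟨q, hq⟩ : ∃ q, q = act (A * B) o3 := ⟨_, rfl⟩
  have hABm := gm_mul A B hA hB
  have hABd := gm_det _ hABm
  have hq' : q = act A (act B o3) := by rw [hq]; exact act_mul A B hAd hBd o3 ho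
  have h1 : ch q z < C := by rw [hq', hz, act_ch A hAd _ _ hBo hy]; exact h
  have h2 : ch (sg q) z < C := by
    have := hchsg q z
    rw [hsz] at this
    rw [this]
    exact h1
  have h3 : sg q = act (cj (A * B)) o3 := by
    have := act_cj (A * B) hABd o3 ho
    rw [hso, ← hq] at this
    exact this.symm
  have h4 : q = sg q := by
    rw [h3] at h2
    rw [h3, hq]
    rw [hq] at h1
    exact hC (A * B) hABm (cj (A * B)) (cj_gm.1 _ hABm) z hzU h1 h2
  have h5 : q 1 = 0 := by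
    have h6 : q 1 = - q 1 := congrFun h4 1
    linarith
  rw [fw_act A hAd _ hBo, ← hq', h5, zero_mul]

end J_gapw
export J_gapw (gapw)
end Pool.Agent.QG
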