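import Pool.Agent.QG.G

set_option autoImplicit false

namespace Pool.Agent.QG
open Set Filter Topology MeasureTheory Pool.Agent.BL
open Pool.Agent.BL.ActAlg (zt NN)
open scoped ContDiff

namespace J_fw_ivt




/-- if `fW A` has different signs at two points of `U` then it vanishes at a point of `U` between
them: on the Euclidean segment, and, if both points are on the plane `x₁ = 0`, at a point of this
plane. -/
theorem fw_ivt (A : Matrix (Fin 2) (Fin 2) ℂ) (x y : V3) (hx : x ∈ U) (hy : y ∈ U)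
    (h : fW A x * fW A y ≤ 0) : ∃ z ∈ segment ℝ x y, z ∈ U ∧ fW A z = 0 ∧
      (x 1 = 0 → y 1 = 0 → z 1 = 0) := by
  have hc : Continuous (fun t : ℝ => fW A (x + t • (y - x))) := by
    unfold fW
    fun_prop
  have h0 : (0:ℝ) ∈ uIcc (fW A (x + (0:ℝ) • (y - x))) (fW A (x + (1:ℝ) • (y - x))) := by
    rw [zero_smul, add_zero, one_smul, add_sub_cancel, mem_uIcc]
    rcases mul_nonpos_iff.1 h with h | h
    · exact Or.inr ⟨h.2, h.1⟩
    · exact Or.inl ⟨h.1, h.2⟩
  obtain ⟨t, ht, ht0⟩ := intermediate_value_uIcc (a := (0:ℝ)) (b := 1) hc.continuousOn h0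
  rw [uIcc_of_le zero_le_one] at ht
  refine ⟨x + t • (y - x), ?_, ?_, ht0, ?_⟩
  · rw [segment_eq_image']
    exact ⟨t, ht, rfl⟩
  · have hx2 : 0 < x 2 := hx
    have hy2 : 0 < y 2 := hy
    show 0 < (x + t • (y - x)) 2
    have e : (x + t • (y - x)) 2 = (1 - t) * x 2 + t * y 2 := by
      simp only [Pi.add_apply, Pi.smul_apply, Pi.sub_apply, smul_eq_mul]
      ring
    rw [e]
    rcases eq_or_lt_of_le ht.1 with h1 | h1
    · rw [← h1]; simpa using hx2
    · have := mul_pos h1 hy2
      have := mul_nonneg (sub_nonneg.2 ht.2) hx2.le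
      linarith
  · intro h1 h2
    simp [h1, h2]

end J_fw_ivt
export J_fw_ivt (fw_ivt)
end Pool.Agent.QG
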