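import Pool.Agent.QG.G
import Pool.Agent.QG.P_fw_act

set_option autoImplicit false

namespace Pool.Agent.QG
open Set Filter Topology MeasureTheory Pool.Agent.BL
open Pool.Agent.BL.ActAlg (zt NN)
open scoped ContDiff

namespace J_fw_mul











theorem fw_mul (A B : Matrix (Fin 2) (Fin 2) ℂ) (hA : A.det = 1) (hB : B.det = 1) (x : V3)
    (hx : x ∈ U) : fW (A * B) x = fW A (act B x) * NN B x := by
  have hAB : (A * B).det = 1 := by rw [Matrix.det_mul, hA, hB, one_mul]
  rw [fw_act (A * B) hAB x hx, fw_act A hA (act B x) (act_mem B hB x hx), act_mul A B hA hB x hx,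
    NN_mul A B hB x hx, mul_assoc]

end J_fw_mul
export J_fw_mul (fw_mul)
end Pool.Agent.QG
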