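import Pool.Agent.QG.G

set_option autoImplicit false

namespace Pool.Agent.QG
open Set Filter Topology MeasureTheory Pool.Agent.BL
open Pool.Agent.BL.ActAlg (zt NN)
open scoped ContDiff

namespace J_fw_real




theorem fw_real (M : Matrix (Fin 2) (Fin 2) ℂ) (hM : cj M = M) (h1 : M.det = 1) (x : V3) :
    fW M x = x 1 := by
  have him : ∀ i j, (M i j).im = 0 := by
    intro i j
    have h := congrFun (congrFun hM i) j
    unfold cj at h
    rw [Matrix.map_apply] at h
    exact Complex.conj_eq_iff_im.1 h
  have hdet : (M 0 0 * M 1 1 - M 0 1 * M 1 0).re = 1 := by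
    rw [← Matrix.det_fin_two, h1, Complex.one_re]
  have e00 := him 0 0
  have e01 := him 0 1
  have e10 := him 1 0
  have e11 := him 1 1
  simp only [Complex.sub_re, Complex.mul_re, e00, e01, e10, e11, mul_zero, sub_zero] at hdet
  unfold fW
  simp only [Complex.sub_re, Complex.add_im, Complex.mul_re, Complex.mul_im, Complex.conj_re,
    Complex.conj_im, e00, e01, e10, e11, mul_zero, zero_mul, sub_zero, neg_zero, add_zero,
    zero_add, hdet, one_mul]

end J_fw_real
export J_fw_real (fw_real)
end Pool.Agent.QG
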