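import Pool.Agent.QG.G
import Pool.Agent.QG.P_fw_act
import Pool.Agent.QG.P_fw_mul
import Pool.Agent.QG.P_fw_real

set_option autoImplicit false

namespace Pool.Agent.QG
open Set Filter Topology MeasureTheory Pool.Agent.BL
open Pool.Agent.BL.ActAlg (zt NN)
open scoped ContDiff

namespace J_fw_lmul

















theorem fw_lmul (M A : Matrix (Fin 2) (Fin 2) ℂ) (hM : cj M = M) (h1 : M.det = 1)
    (hA : A.det = 1) (x : V3) (hx : x ∈ U) : fW (M * A) x = fW A x := by
  rw [fw_mul M A h1 hA x hx, fw_real M hM h1, fw_act A hA x hx]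

end J_fw_lmul
export J_fw_lmul (fw_lmul)
end Pool.Agent.QG
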