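import Pool.Agent.QG.G
import Pool.Agent.QG.P_fw_act
import Pool.Agent.QG.P_fw_lmul
import Pool.Agent.QG.P_act_cj
import Pool.Agent.QG.P_cj_gm

set_option autoImplicit false

namespace Pool.Agent.QG
open Set Filter Topology MeasureTheory Pool.Agent.BL
open Pool.Agent.BL.ActAlg (zt NN)
open scoped ContDiff

namespace J_wall_ref























theorem wall_ref_sgU (y : V3) (hy : y ∈ U) : sg y ∈ U := by
  show 0 < sg y 2
  have : sg y 2 = y 2 := rfl
  rw [this]
  exact hy

theorem wall_ref_sg (y : V3) : sg y = y ↔ y 1 = 0 := by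
  constructor
  · intro h
    have h1 : sg y 1 = y 1 := congrFun h 1
    have h2 : sg y 1 = -y 1 := rfl
    linarith
  · intro h
    funext i
    fin_cases i
    · rfl
    · show -y 1 = y 1
      rw [h, neg_zero]
    · rfl

/-- if the wall of `A` contains `y` then `M = A⁻¹ (cj A)` maps `sg y` to `y`, and conversely;
and `M` determines the function `fW A`. -/
theorem wall_ref : ∃ M : Matrix (Fin 2) (Fin 2) ℂ → Matrix (Fin 2) (Fin 2) ℂ,
    (∀ A ∈ Gm, M A ∈ Gm) ∧
    (∀ A ∈ Gm, ∀ y ∈ U, (fW A y = 0 ↔ act (M A) (sg y) = y)) ∧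
    (∀ A ∈ Gm, ∀ B ∈ Gm, M A = M B → ∀ y ∈ U, fW B y = fW A y) := by
  classical
  obtain ⟨hcjG, hcjmul, hcjdet, hcjcj, hcj1⟩ := cj_gm
  choose! I hIG hI1 hI2 using gm_inv
  have hsgU : ∀ y ∈ U, sg y ∈ U := wall_ref_sgU
  have hsgfix : ∀ y : V3, sg y = y ↔ y 1 = 0 := wall_ref_sg
  refine ⟨fun A => I A * cj A, fun A hA => gm_mul _ _ (hIG A hA) (hcjG A hA), ?_, ?_⟩
  · intro A hA y hy
    have hdA := gm_det A hA
    have hdI := gm_det _ (hIG A hA)
    have hAy := act_mem A hdA y hy
    have hN := NN_pos A hdA y hy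
    rw [fw_act A hdA y hy, mul_eq_zero, or_iff_left hN.ne', ← hsgfix, ← act_cj A hdA y hy]
    rw [act_mul _ _ hdI (hcjdet A hdA) _ (hsgU y hy)]
    constructor
    · intro h
      rw [h, ← act_mul _ _ hdI hdA y hy, hI2 A hA, act_one y hy]
    · intro h
      have h2 := congrArg (act A) h
      rw [← act_mul A (I A) hdA hdI _ (act_mem _ (hcjdet A hdA) _ (hsgU y hy)), hI1 A hA,
        act_one _ (act_mem _ (hcjdet A hdA) _ (hsgU y hy))] at h2
      exact h2
  · intro A hA B hB hM y hy
    have hM' : I A * cj A = I B * cj B := hM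
    have hdA := gm_det A hA
    have hdB := gm_det B hB
    have hdIA := gm_det _ (hIG A hA)
    have hN : B * I A = cj B * I (cj A) := by
      have h1 : B * (I A * cj A) * I (cj A) = B * (I B * cj B) * I (cj A) := by rw [hM']
      rw [← mul_assoc B (I B), hI1 B hB, one_mul, mul_assoc, mul_assoc,
        hI1 (cj A) (hcjG A hA), mul_one] at h1
      exact h1
    have hcjI : cj (I A) = I (cj A) := by
      have h1 : cj (I A) * cj A = 1 := by rw [← hcjmul, hI2 A hA, hcj1]
      calc cj (I A) = cj (I A) * (cj A * I (cj A)) := by rw [hI1 (cj A) (hcjG A hA), mul_one]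
        _ = I (cj A) := by rw [← mul_assoc, h1, one_mul]
    have hfix : cj (B * I A) = B * I A := by
      rw [hcjmul, hcjI, hN]
    have hdet : (B * I A).det = 1 := by rw [Matrix.det_mul, hdB, hdIA, one_mul]
    have h3 := fw_lmul (B * I A) A hfix hdet hdA y hy
    rw [mul_assoc, hI2 A hA, mul_one] at h3
    exact h3

end J_wall_ref
export J_wall_ref (wall_ref)
end Pool.Agent.QG
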