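import Pool.Agent.QG.G
import Pool.Agent.QG.P_fw_mul
import Pool.Agent.QG.P_wall_ref
import Pool.Agent.QG.P_bdd_fin
import Pool.Agent.QG.P_fw_ivt

set_option autoImplicit false

namespace Pool.Agent.QG
open Set Filter Topology MeasureTheory Pool.Agent.BL
open Pool.Agent.BL.ActAlg (zt NN)
open scoped ContDiff

namespace J_xx_coc





























theorem ch_o3_352 (z : V3) :
    ch o3 z = 1 + (z 0 ^ 2 + z 1 ^ 2 + (z 2 - 1) ^ 2) / (2 * z 2) := by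
  simp [ch, o3]

theorem ch_le_352 {z : V3} (hz : z ∈ U) (R : ℝ) :
    ch o3 z ≤ R ↔ z 0 ^ 2 + z 1 ^ 2 + (z 2 - 1) ^ 2 ≤ (R - 1) * (2 * z 2) := by
  have h2 : 0 < z 2 := hz
  rw [ch_o3_352, ← le_sub_iff_add_le', div_le_iff₀ (by positivity)]

theorem seg_352 {x y z : V3} (hx : x ∈ U) (hy : y ∈ U) (hz : z ∈ U) (R : ℝ) (h1 : ch o3 x ≤ R)
    (h2 : ch o3 y ≤ R) (hs : z ∈ segment ℝ x y) : ch o3 z ≤ R := by
  rw [ch_le_352 hx] at h1
  rw [ch_le_352 hy] at h2
  rw [ch_le_352 hz]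
  obtain ⟨a, b, ha, hb, hab, rfl⟩ := hs
  simp only [Pi.add_apply, Pi.smul_apply, smul_eq_mul]
  have e : a * x 2 + b * y 2 - 1 = a * (x 2 - 1) + b * (y 2 - 1) := by
    linear_combination hab
  have q : ∀ u v : ℝ, (a * u + b * v) ^ 2 ≤ a * u ^ 2 + b * v ^ 2 := by
    intro u v
    have hb' : b = 1 - a := by linarith
    have e1 : a * u ^ 2 + b * v ^ 2 - (a * u + b * v) ^ 2 = a * b * (u - v) ^ 2 := by
      rw [hb']; ring
    have e2 : 0 ≤ a * b * (u - v) ^ 2 := by positivity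
    linarith
  rw [e]
  have q0 := q (x 0) (y 0)
  have q1 := q (x 1) (y 1)
  have q2 := q (x 2 - 1) (y 2 - 1)
  have m1 := mul_le_mul_of_nonneg_left h1 ha
  have m2 := mul_le_mul_of_nonneg_left h2 hb
  nlinarith

theorem cs_352 (R : ℝ) (B : Matrix (Fin 2) (Fin 2) ℂ)
    (hno : ¬ ∃ z ∈ U, ch o3 z ≤ R ∧ fW B z = 0) {x y : V3} (hx : x ∈ U) (hy : y ∈ U)
    (h1 : ch o3 x ≤ R) (h2 : ch o3 y ≤ R) : 0 < fW B x * fW B y := by
  by_contra hle
  rw [not_lt] at hle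
  obtain ⟨z, hz, hzU, hz0, -⟩ := fw_ivt B x y hx hy hle
  exact hno ⟨z, hzU, seg_352 hx hy hzU R h1 h2 hz, hz0⟩

theorem nn_352 {a b m n : ℝ} (hm : 0 < m) (hn : 0 < n) (h : 0 ≤ (a * m) * (b * n)) :
    0 ≤ a * b := by
  by_contra hc
  rw [not_le] at hc
  have h1 := mul_neg_of_neg_of_pos hc (mul_pos hm hn)
  have e : (a * m) * (b * n) = a * b * (m * n) := by ring
  rw [e] at h
  linarith

theorem pp_352 {a b m n : ℝ} (hm : 0 < m) (hn : 0 < n) (h : 0 < (a * m) * (b * n)) :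
    0 < a * b := by
  by_contra hc
  rw [not_lt] at hc
  have h1 := mul_nonpos_of_nonpos_of_nonneg hc (mul_pos hm hn).le
  have e : (a * m) * (b * n) = a * b * (m * n) := by ring
  rw [e] at h
  linarith

theorem sg_352 {a b c : ℝ} (h1 : 0 ≤ a * b) (h2 : 0 < b * c) : 0 ≤ a * c := by
  have hb : b ≠ 0 := by
    rintro rfl
    simp at h2
  have hb2 : 0 < b ^ 2 := by positivity
  by_contra hc
  rw [not_le] at hc
  have h3 := mul_neg_of_neg_of_pos hc hb2
  have h4 := mul_nonneg h1 h2.le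
  have e : a * b * (b * c) = a * c * b ^ 2 := by ring
  rw [e] at h4
  linarith

theorem xs_352 {p0 : V3} (h : PB p0) {A B : Matrix (Fin 2) (Fin 2) ℂ} (hA : A ∈ Gm)
    (hB : B ∈ Gm) {y : V3} (hy : y ∈ XX p0) : 0 ≤ fW B (act A y) * fW B (act A p0) := by
  have h1 := hy.2 (B * A) (gm_mul B A hB hA)
  rw [fw_mul B A (gm_det B hB) (gm_det A hA) y hy.1,
    fw_mul B A (gm_det B hB) (gm_det A hA) p0 h.mem] at h1
  exact nn_352 (NN_pos A (gm_det A hA) y hy.1) (NN_pos A (gm_det A hA) p0 h.mem) h1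

theorem ne_352 {p0 : V3} (h : PB p0) {A B : Matrix (Fin 2) (Fin 2) ℂ} (hA : A ∈ Gm)
    (hB : B ∈ Gm) : fW B (act A p0) ≠ 0 := by
  have h1 := h.ne (B * A) (gm_mul B A hB hA)
  rw [fw_mul B A (gm_det B hB) (gm_det A hA) p0 h.mem] at h1
  intro h2
  rw [h2, zero_mul] at h1
  exact h1 rfl

theorem dl_352 {p0 : V3} (h : PB p0) {D : Matrix (Fin 2) (Fin 2) ℂ} (hD : D ∈ Gm)
    (hP : ∀ C ∈ Gm, 0 < fW C (act D p0) * fW C p0) :
    ∀ y ∈ U, (act D y ∈ XX p0 ↔ y ∈ XX p0) := by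
  intro y hy
  constructor
  · intro hDy
    refine ⟨hy, fun E hE => ?_⟩
    obtain ⟨D', hD', h1, h2⟩ := gm_inv D hD
    have hC : E * D' ∈ Gm := gm_mul E D' hE hD'
    have hCD : E * D' * D = E := by rw [mul_assoc, h2, mul_one]
    have e1 := fw_mul (E * D') D (gm_det _ hC) (gm_det D hD) y hy
    have e2 := fw_mul (E * D') D (gm_det _ hC) (gm_det D hD) p0 h.mem
    rw [hCD] at e1 e2
    rw [e1, e2]
    have h3 := hDy.2 (E * D') hC
    have h4 := hP (E * D') hC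
    have h5 : 0 ≤ fW (E * D') (act D y) * fW (E * D') (act D p0) := by
      refine sg_352 h3 ?_
      rw [mul_comm]; exact h4
    have n1 := NN_pos D (gm_det D hD) y hy
    have n2 := NN_pos D (gm_det D hD) p0 h.mem
    have e3 : fW (E * D') (act D y) * NN D y * (fW (E * D') (act D p0) * NN D p0) =
        (fW (E * D') (act D y) * fW (E * D') (act D p0)) * (NN D y * NN D p0) := by ring
    rw [e3]
    positivity
  · intro hyX
    refine ⟨act_mem D (gm_det D hD) y hy, fun C hC => ?_⟩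
    exact sg_352 (xs_352 h hD hC hyX) (hP C hC)

theorem xx_coc (p0 : V3) (h : PB p0) : ∃ R : ℝ, ∀ x ∈ XX p0, ∃ A ∈ Gm,
    (∀ y ∈ U, (act A y ∈ XX p0 ↔ y ∈ XX p0)) ∧ ch o3 (act A x) ≤ R := by
  obtain ⟨R, hR⟩ := gm_cocompact
  obtain ⟨M, hM1, hM2, hM3⟩ := wall_ref
  obtain ⟨F, hF⟩ : ∃ F : Set (Matrix (Fin 2) (Fin 2) ℂ),
      F = {A | A ∈ Gm ∧ ∃ z ∈ U, ch o3 z ≤ R ∧ ch o3 (act A z) ≤ R} := ⟨_, rfl⟩
  have hFfin : F.Finite := by rw [hF]; exact bdd_fin R R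
  -- walls meeting the ball
  have hwall : ∀ B ∈ Gm, (∃ z ∈ U, ch o3 z ≤ R ∧ fW B z = 0) → M B ∈ F := by
    rintro B hB ⟨z, hz, hzR, hz0⟩
    have h1 := (hM2 B hB z hz).1 hz0
    rw [hF]
    refine ⟨hM1 B hB, sg z, ?_, ?_, ?_⟩
    · show 0 < sg z 2
      have : sg z 2 = z 2 := by simp [sg]
      rw [this]; exact hz
    · have : ch o3 (sg z) = ch o3 z := by
        rw [ch_o3_352, ch_o3_352]
        simp [sg]
      rw [this]; exact hzR
    · rw [h1]; exact hzR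
  choose! inv hinv1 hinv2 hinv3 using gm_inv
  -- sign vectors
  obtain ⟨σ, hσ⟩ : ∃ σ : Matrix (Fin 2) (Fin 2) ℂ → Set (Matrix (Fin 2) (Fin 2) ℂ),
      σ = fun A => {M0 | M0 ∈ F ∧ ∃ B ∈ Gm, M B = M0 ∧ 0 < fW B (act A p0)} := ⟨_, rfl⟩
  obtain ⟨S, hS⟩ : ∃ S : Set (Matrix (Fin 2) (Fin 2) ℂ),
      S = {A | A ∈ Gm ∧ ∃ y ∈ XX p0, ch o3 (act A y) ≤ R} := ⟨_, rfl⟩
  obtain ⟨S0, hS0, hbij⟩ := Set.exists_subset_bijOn S σ
  have hSfin : (σ '' S).Finite := by
    refine hFfin.finite_subsets.subset ?_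
    rintro _ ⟨A, -, rfl⟩
    show σ A ⊆ F
    rw [hσ]
    exact fun M0 h0 => h0.1
  have hS0fin : S0.Finite := by
    have h1 : (σ '' S0).Finite := by rw [hbij.image_eq]; exact hSfin
    exact Set.Finite.of_finite_image h1 hbij.injOn
  obtain ⟨b, hb⟩ := (hS0fin.image (fun A' => ch o3 (act (inv A') o3))).bddAbove
  have ho3 : o3 ∈ U := oU.2
  refine ⟨2 * b * R, fun x hx => ?_⟩
  obtain ⟨A, hA, hAR⟩ := hR x hx.1
  have hAS : A ∈ S := by rw [hS]; exact ⟨hA, x, hx, hAR⟩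
  obtain ⟨A', hA'0, hA'⟩ : ∃ A' ∈ S0, σ A' = σ A := by
    have : σ A ∈ σ '' S0 := by rw [hbij.image_eq]; exact ⟨A, hAS, rfl⟩
    exact this
  have hA'S : A' ∈ S := hS0 hA'0
  rw [hS] at hA'S
  obtain ⟨hA'G, y', hy', hA'R⟩ := hA'S
  have dA := gm_det A hA
  have dA' := gm_det A' hA'G
  have hiG := hinv1 A' hA'G
  have di := gm_det _ hiG
  -- signs agree
  have hsame : ∀ B ∈ Gm, 0 < fW B (act A p0) * fW B (act A' p0) := by
    intro B hB
    have n1 := ne_352 h hA hB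
    have n2 := ne_352 h hA'G hB
    by_cases hz : ∃ z ∈ U, ch o3 z ≤ R ∧ fW B z = 0
    · have hMB := hwall B hB hz
      have key : ∀ A₁ A₂ : Matrix (Fin 2) (Fin 2) ℂ, A₁ ∈ Gm → A₂ ∈ Gm → σ A₁ = σ A₂ →
          0 < fW B (act A₁ p0) → 0 < fW B (act A₂ p0) := by
        intro A₁ A₂ h1 h2 he hpos
        have m1 : M B ∈ σ A₁ := by
          rw [hσ]; exact ⟨hMB, B, hB, rfl, hpos⟩
        rw [he, hσ] at m1
        obtain ⟨-, B', hB', hMe, hpos'⟩ := m1
        have := hM3 B hB B' hB' hMe.symm (act A₂ p0) (act_mem A₂ (gm_det A₂ h2) p0 h.mem)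
        rw [← this]
        exact hpos'
      rcases lt_or_gt_of_ne n1 with h1 | h1
      · have h2 : fW B (act A' p0) < 0 := by
          rcases lt_or_gt_of_ne n2 with h2 | h2
          · exact h2
          · exact absurd (key A' A hA'G hA hA' h2) (by linarith)
        exact mul_pos_of_neg_of_neg h1 h2
      · exact mul_pos h1 (key A A' hA hA'G hA'.symm h1)
    · have uA : act A x ∈ U := act_mem A dA x hx.1
      have uA' : act A' y' ∈ U := act_mem A' dA' y' hy'.1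
      have c1 := cs_352 R B hz uA uA' hAR hA'R
      have c2 := xs_352 h hA hB hx
      have c3 := xs_352 h hA'G hB hy'
      have c4 : 0 ≤ fW B (act A p0) * fW B (act A' y') := by
        refine sg_352 ?_ c1
        rw [mul_comm]; exact c2
      have hne : fW B (act A' y') ≠ 0 := by
        intro h0
        rw [h0, mul_zero] at c1
        exact lt_irrefl _ c1
      have c5 : 0 < fW B (act A' y') * fW B (act A' p0) :=
        lt_of_le_of_ne c3 (Ne.symm (mul_ne_zero hne n2))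
      exact lt_of_le_of_ne (sg_352 c4 c5) (Ne.symm (mul_ne_zero n1 n2))
  have hD : inv A' * A ∈ Gm := gm_mul _ _ hiG hA
  refine ⟨inv A' * A, hD, dl_352 h hD ?_, ?_⟩
  · intro C hC
    have hB : C * inv A' ∈ Gm := gm_mul _ _ hC hiG
    have hs := hsame _ hB
    have uA : act A p0 ∈ U := act_mem A dA p0 h.mem
    have uA' : act A' p0 ∈ U := act_mem A' dA' p0 h.mem
    rw [fw_mul C (inv A') (gm_det C hC) di _ uA, fw_mul C (inv A') (gm_det C hC) di _ uA'] at hs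
    have e1 : act (inv A') (act A p0) = act (inv A' * A) p0 :=
      (act_mul (inv A') A di dA p0 h.mem).symm
    have e2 : act (inv A') (act A' p0) = p0 := by
      rw [← act_mul (inv A') A' di dA' p0 h.mem, hinv3 A' hA'G, act_one p0 h.mem]
    rw [e1, e2] at hs
    exact pp_352 (NN_pos _ di _ uA) (NN_pos _ di _ uA') hs
  · have uAx : act A x ∈ U := act_mem A dA x hx.1
    have e1 : act (inv A' * A) x = act (inv A') (act A x) := act_mul (inv A') A di dA x hx.1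
    rw [e1]
    have u1 : act (inv A') o3 ∈ U := act_mem _ di _ ho3
    have u2 : act (inv A') (act A x) ∈ U := act_mem _ di _ uAx
    have t := ch_tri o3 (act (inv A') o3) (act (inv A') (act A x)) ho3 u1 u2
    rw [act_ch (inv A') di o3 (act A x) ho3 uAx] at t
    have b1 : ch o3 (act (inv A') o3) ≤ b := hb ⟨A', hA'0, rfl⟩
    have b2 := ch_one_le o3 (act (inv A') o3) ho3 u1
    have b3 := ch_one_le o3 (act A x) ho3 uAx
    refine t.trans ?_
    have : 0 ≤ b := by linarith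
    gcongr

end J_xx_coc
export J_xx_coc (xx_coc)
end Pool.Agent.QG
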