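import Pool.Agent.QG.G
import Pool.Agent.QG.P_fw_real
import Pool.Agent.QG.P_cj_gm

set_option autoImplicit false

namespace Pool.Agent.QG
open Set Filter Topology MeasureTheory Pool.Agent.BL
open Pool.Agent.BL.ActAlg (zt NN)
open scoped ContDiff

namespace J_xx_misc














theorem xx_misc (p0 : V3) (h : PB p0) : IsOpen U ∧ (∃ F : Set V3, IsClosed F ∧ XX p0 = U ∩ F) ∧
    (∀ x ∈ U, x 1 = 0 → x ∈ XX p0) ∧ o3 ∈ XX p0 ∧ o3 ∉ interior (XX p0) := by
  have hU : IsOpen U := by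
    have : U = (fun x : V3 => x 2) ⁻¹' (Set.Ioi 0) := rfl
    rw [this]
    exact isOpen_Ioi.preimage (continuous_apply 2)
  have hplane : ∀ x ∈ U, x 1 = 0 → x ∈ XX p0 :=
    fun x hx h1 => ⟨hx, fun A hA => h.plane A hA x hx h1⟩
  have ho : o3 ∈ U := oU.2
  have ho1 : o3 ∈ XX p0 := hplane o3 ho (by simp [o3])
  refine ⟨hU, ⟨{x | ∀ A ∈ Gm, 0 ≤ fW A x * fW A p0}, ?_, ?_⟩, hplane, ho1, ?_⟩
  · have : {x | ∀ A ∈ Gm, 0 ≤ fW A x * fW A p0} =
        ⋂ A ∈ Gm, {x | 0 ≤ fW A x * fW A p0} := by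
      ext x; simp
    rw [this]
    refine isClosed_biInter fun A hA => isClosed_le continuous_const ?_
    unfold fW
    fun_prop
  · ext x; rfl
  · intro hi
    have hc : Continuous (fun s : ℝ => (![0, -s, 1] : V3)) := by
      refine continuous_pi fun i => ?_
      fin_cases i
      · exact continuous_const
      · exact continuous_neg
      · exact continuous_const
    have h0 : (fun s : ℝ => (![0, -s, 1] : V3)) 0 = o3 := by simp [o3]
    have hn : ∀ᶠ s in 𝓝 (0:ℝ), (![0, -s, 1] : V3) ∈ interior (XX p0) := by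
      have : Tendsto (fun s : ℝ => (![0, -s, 1] : V3)) (𝓝 0) (𝓝 o3) := by
        rw [← h0]; exact hc.tendsto 0
      exact this (isOpen_interior.mem_nhds hi)
    have hn2 : ∀ᶠ s in 𝓝[>] (0:ℝ), (![0, -s, 1] : V3) ∈ interior (XX p0) :=
      hn.filter_mono nhdsWithin_le_nhds
    have hn3 := hn2.and self_mem_nhdsWithin
    obtain ⟨s, hs, hs0⟩ := hn3.exists
    have h5 := (interior_subset hs).2 1 gm_one
    have e1 : cj (1 : Matrix (Fin 2) (Fin 2) ℂ) = 1 := cj_gm.2.2.2.2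
    rw [fw_real 1 e1 (by simp) _, fw_real 1 e1 (by simp) _] at h5
    have hp := h.pos
    have hs1 : (0:ℝ) < s := hs0
    have h6 : (![0, -s, 1] : V3) 1 = -s := rfl
    rw [h6] at h5
    nlinarith

end J_xx_misc
export J_xx_misc (xx_misc)
end Pool.Agent.QG
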