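import Pool.Agent.QG.G
import Pool.Agent.QG.P_bdd_fin
import Pool.Agent.QG.P_xx_misc
import Pool.Agent.QG.P_xx_coc

set_option autoImplicit false

namespace Pool.Agent.QG
open Set Filter Topology MeasureTheory Pool.Agent.BL
open Pool.Agent.BL.ActAlg (zt NN)
open scoped ContDiff

namespace J_gx























theorem gx_U {p0 : V3} (x : XX p0) : (x : V3) ∈ U := x.2.1

theorem gx_perm (p0 : V3) (A : Matrix (Fin 2) (Fin 2) ℂ) (hA : A ∈ Gm)
    (hi : ∀ y ∈ U, (act A y ∈ XX p0 ↔ y ∈ XX p0)) :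
    ∃ γ : Equiv.Perm (XX p0), ∀ x : XX p0, (γ x : V3) = act A x := by
  obtain ⟨B, hB, hAB, hBA⟩ := gm_inv A hA
  have dA := gm_det A hA
  have dB := gm_det B hB
  have e1 : ∀ y ∈ U, act A (act B y) = y := by
    intro y hy
    rw [← act_mul A B dA dB y hy, hAB, act_one y hy]
  have e2 : ∀ y ∈ U, act B (act A y) = y := by
    intro y hy
    rw [← act_mul B A dB dA y hy, hBA, act_one y hy]
  refine ⟨{ toFun := fun y => ⟨act A y, (hi y (gx_U y)).2 y.2⟩
            invFun := fun y => ⟨act B y, (hi _ (act_mem B dB y (gx_U y))).1 (by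
              rw [e1 y (gx_U y)]
              exact y.2)⟩
            left_inv := fun y => Subtype.ext (e2 y (gx_U y))
            right_inv := fun y => Subtype.ext (e1 y (gx_U y)) }, fun x => rfl⟩

theorem gx_ch_cont (p0 : V3) : Continuous (fun x : XX p0 => ch o3 (x : V3)) := by
  unfold ch
  have h2 : ∀ x : XX p0, 2 * o3 2 * (x : V3) 2 ≠ 0 := by
    intro x
    have h1 : 0 < (x : V3) 2 := gx_U x
    have h3 : o3 2 = 1 := by simp [o3]
    rw [h3]
    positivity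
  have hc : ∀ i : Fin 3, Continuous (fun x : XX p0 => (x : V3) i) :=
    fun i => (continuous_apply i).comp continuous_subtype_val
  have hn : Continuous (fun x : XX p0 => ((x : V3) 0 - o3 0) ^ 2 + ((x : V3) 1 - o3 1) ^ 2 +
      ((x : V3) 2 - o3 2) ^ 2) :=
    ((((hc 0).sub continuous_const).pow 2).add (((hc 1).sub continuous_const).pow 2)).add
      (((hc 2).sub continuous_const).pow 2)
  have hd : Continuous (fun x : XX p0 => 2 * o3 2 * (x : V3) 2) := continuous_const.mul (hc 2)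
  exact continuous_const.add (Continuous.div hn hd h2)

theorem gx_compact (p0 : V3) (F : Set V3) (hF : IsClosed F) (hX : XX p0 = U ∩ F) (R : ℝ) :
    IsCompact {x : XX p0 | ch o3 (x : V3) ≤ R} := by
  rw [Subtype.isCompact_iff]
  have e : ((↑) '' {x : XX p0 | ch o3 (x : V3) ≤ R} : Set V3) =
      {z : V3 | z 0 ^ 2 + z 1 ^ 2 + (z 2 - 1) ^ 2 ≤ 2 * (R - 1) * z 2} ∩
        ({z : V3 | 0 ≤ z 2} ∩ F) := by
    have key : ∀ z : V3, 0 < z 2 →
        (ch o3 z ≤ R ↔ z 0 ^ 2 + z 1 ^ 2 + (z 2 - 1) ^ 2 ≤ 2 * (R - 1) * z 2) := by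
      intro z hz
      have h0 : o3 0 = 0 := by simp [o3]
      have h1 : o3 1 = 0 := by simp [o3]
      have h2 : o3 2 = 1 := by simp [o3]
      unfold ch
      rw [h0, h1, h2]
      have h3 : 1 + ((z 0 - 0) ^ 2 + (z 1 - 0) ^ 2 + (z 2 - 1) ^ 2) / (2 * 1 * z 2) ≤ R ↔
          (z 0 ^ 2 + z 1 ^ 2 + (z 2 - 1) ^ 2) / (2 * z 2) ≤ R - 1 := by
        rw [sub_zero, sub_zero, mul_one]
        constructor <;> intro h <;> linarith
      rw [h3, div_le_iff₀ (by positivity)]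
      constructor <;> intro h <;> linarith
    ext z
    constructor
    · rintro ⟨x, hx, rfl⟩
      have h1 : 0 < (x : V3) 2 := gx_U x
      have h2 : (x : V3) ∈ U ∩ F := by
        rw [← hX]
        exact x.2
      exact ⟨(key _ h1).1 hx, h1.le, h2.2⟩
    · rintro ⟨h1, h2, h3⟩
      have h1' : z 0 ^ 2 + z 1 ^ 2 + (z 2 - 1) ^ 2 ≤ 2 * (R - 1) * z 2 := h1
      have h2' : 0 ≤ z 2 := h2
      have h4 : 0 < z 2 := by
        rcases h2'.eq_or_lt with h | h
        · exfalso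
          rw [← h] at h1'
          nlinarith [sq_nonneg (z 0), sq_nonneg (z 1)]
        · exact h
      have h5 : z ∈ XX p0 := by
        rw [hX]
        exact ⟨h4, h3⟩
      exact ⟨⟨z, h5⟩, (key z h4).2 h1', rfl⟩
  rw [e]
  apply Metric.isCompact_of_isClosed_isBounded
  · refine IsClosed.inter ?_ (IsClosed.inter ?_ hF)
    · exact isClosed_le (by fun_prop) (by fun_prop)
    · exact isClosed_le continuous_const (continuous_apply 2)
  · apply (Metric.isBounded_closedBall (x := (0 : V3)) (r := 2 * |R|)).subset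
    rintro z ⟨h1, h2, -⟩
    have h1' : z 0 ^ 2 + z 1 ^ 2 + (z 2 - 1) ^ 2 ≤ 2 * (R - 1) * z 2 := h1
    have h2' : 0 ≤ z 2 := h2
    have h4 : 0 < z 2 := by
      rcases h2'.eq_or_lt with h | h
      · exfalso
        rw [← h] at h1'
        nlinarith [sq_nonneg (z 0), sq_nonneg (z 1)]
      · exact h
    have h5 : z 2 ≤ 2 * R := by
      by_contra hcon
      push Not at hcon
      nlinarith [sq_nonneg (z 0), sq_nonneg (z 1), mul_lt_mul_of_pos_right hcon h4]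
    have hR : 0 < R := by linarith
    rw [mem_closedBall_zero_iff, pi_norm_le_iff_of_nonneg (by positivity), abs_of_pos hR]
    have h6 : z 0 ^ 2 + z 1 ^ 2 ≤ R ^ 2 := by nlinarith [sq_nonneg (z 2 - R)]
    have h7 : |z 0| ≤ R := abs_le_of_sq_le_sq (by nlinarith [sq_nonneg (z 1)]) hR.le
    have h8 : |z 1| ≤ R := abs_le_of_sq_le_sq (by nlinarith [sq_nonneg (z 0)]) hR.le
    intro i
    fin_cases i
    · show |z 0| ≤ 2 * R
      linarith
    · show |z 1| ≤ 2 * R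
      linarith
    · show |z 2| ≤ 2 * R
      rw [abs_of_pos h4]
      exact h5

theorem gx (p0 : V3) (h : PB p0) : ∃ G : Subgroup (Equiv.Perm (XX p0)),
    (∀ γ ∈ G, ∃ A ∈ Gm, ∀ x : XX p0, (γ x : V3) = act A x) ∧
    (∀ γ ∈ G, (∃ x, γ x = x) → γ = 1) ∧
    (∀ K : Set (XX p0), IsCompact K → {γ | γ ∈ G ∧ (γ '' K ∩ K).Nonempty}.Finite) ∧
    (∃ K : Set (XX p0), IsCompact K ∧ ∀ x, ∃ γ ∈ G, γ x ∈ K) := by
  obtain ⟨-, ⟨F, hF, hX⟩, -, -, -⟩ := xx_misc p0 h
  obtain ⟨R, hR⟩ := xx_coc p0 h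
  let G : Subgroup (Equiv.Perm (XX p0)) :=
    { carrier := {γ | ∃ A ∈ Gm, ∀ x : XX p0, (γ x : V3) = act A x}
      one_mem' := ⟨1, gm_one, fun x => (act_one x (gx_U x)).symm⟩
      mul_mem' := by
        rintro a b ⟨A, hA, ha⟩ ⟨B, hB, hb⟩
        refine ⟨A * B, gm_mul A B hA hB, fun x => ?_⟩
        rw [Equiv.Perm.mul_apply, ha, hb, act_mul A B (gm_det A hA) (gm_det B hB) x (gx_U x)]
      inv_mem' := by
        rintro a ⟨A, hA, ha⟩
        obtain ⟨B, hB, hAB, hBA⟩ := gm_inv A hA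
        refine ⟨B, hB, fun y => ?_⟩
        have h1 := ha (a⁻¹ y)
        have h0 : a (a⁻¹ y) = y := Equiv.apply_symm_apply a y
        rw [h0] at h1
        rw [h1, ← act_mul B A (gm_det B hB) (gm_det A hA) _ (gx_U _), hBA, act_one _ (gx_U _)] }
  have hmem : ∀ γ, γ ∈ G ↔ ∃ A ∈ Gm, ∀ x : XX p0, (γ x : V3) = act A x := fun γ => Iff.rfl
  refine ⟨G, fun γ hγ => hγ, ?_, ?_, ?_⟩
  · rintro γ ⟨A, hA, hγ⟩ ⟨x, hx⟩
    have h1 : act A x = x := by
      rw [← hγ x, hx]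
    have h2 := gm_free A hA x (gx_U x) h1
    apply Equiv.ext
    intro y
    apply Subtype.ext
    rw [hγ y, h2, act_one y (gx_U y)]
    rfl
  · intro K hK
    obtain ⟨C, hC⟩ := hK.bddAbove_image (gx_ch_cont p0).continuousOn
    have hC' : ∀ x ∈ K, ch o3 (x : V3) ≤ C := fun x hx => hC ⟨x, hx, rfl⟩
    have hch : ∀ γ : Equiv.Perm (XX p0), ∃ A : Matrix (Fin 2) (Fin 2) ℂ,
        γ ∈ {γ | γ ∈ G ∧ (γ '' K ∩ K).Nonempty} →
        A ∈ {A | A ∈ Gm ∧ ∃ z ∈ U, ch o3 z ≤ C ∧ ch o3 (act A z) ≤ C} ∧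
          ∀ x : XX p0, (γ x : V3) = act A x := by
      intro γ
      by_cases hγ : γ ∈ {γ | γ ∈ G ∧ (γ '' K ∩ K).Nonempty}
      · obtain ⟨⟨A, hA, hA'⟩, y, ⟨x, hx, rfl⟩, hy⟩ := hγ
        refine ⟨A, fun _ => ⟨⟨hA, x, gx_U x, hC' x hx, ?_⟩, hA'⟩⟩
        rw [← hA' x]
        exact hC' _ hy
      · exact ⟨1, fun hc => absurd hc hγ⟩
    choose m hm using hch
    apply Set.Finite.of_injOn (f := m) (t := {A | A ∈ Gm ∧ ∃ z ∈ U, ch o3 z ≤ C ∧
      ch o3 (act A z) ≤ C})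
    · intro γ hγ
      exact (hm γ hγ).1
    · intro γ hγ γ' hγ' he
      apply Equiv.ext
      intro x
      apply Subtype.ext
      rw [(hm γ hγ).2 x, (hm γ' hγ').2 x, he]
    · exact bdd_fin C C
  · refine ⟨{x : XX p0 | ch o3 (x : V3) ≤ R}, gx_compact p0 F hF hX R, fun x => ?_⟩
    obtain ⟨A, hA, hi, hle⟩ := hR x x.2
    obtain ⟨γ, hγ⟩ := gx_perm p0 A hA hi
    refine ⟨γ, ⟨A, hA, hγ⟩, ?_⟩
    show ch o3 (γ x : V3) ≤ R
    rw [hγ x]
    exact hle

end J_gx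
export J_gx (gx)
end Pool.Agent.QG
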