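import Pool.Agent.QG.G

set_option autoImplicit false

namespace Pool.Agent.QG
open Set Filter Topology MeasureTheory Pool.Agent.BL
open Pool.Agent.BL.ActAlg (zt NN)
open scoped ContDiff

namespace J_img_len











theorem il_cont (u : V3 → ℝ) (hu : ContinuousOn u U) (c : ℝ → V3)
    (hc : ContDiffOn ℝ 1 c (Icc 0 1)) (hU : ∀ t ∈ Icc (0 : ℝ) 1, c t ∈ U) :
    ContinuousOn (fun t => Real.sqrt (hg u 0 (c t) (derivWithin c (Icc 0 1) t)
      (derivWithin c (Icc 0 1) t))) (Icc 0 1) := by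
  have hD : ContinuousOn (derivWithin c (Icc 0 1)) (Icc 0 1) :=
    hc.continuousOn_derivWithin (uniqueDiffOn_Icc one_pos) le_rfl
  have hDi : ∀ i : Fin 3, ContinuousOn (fun t => derivWithin c (Icc 0 1) t i) (Icc 0 1) :=
    fun i => (continuous_apply i).comp_continuousOn hD
  have hci : ∀ i : Fin 3, ContinuousOn (fun t => c t i) (Icc 0 1) :=
    fun i => (continuous_apply i).comp_continuousOn hc.continuousOn
  have h1 : ContinuousOn (fun t => u (c t)) (Icc 0 1) := hu.comp hc.continuousOn hU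
  have h2 : ContinuousOn (fun t => Real.log (c t 2)) (Icc 0 1) := by
    refine (hci 2).log ?_
    intro t ht
    have : 0 < c t 2 := hU t ht
    exact this.ne'
  apply ContinuousOn.sqrt
  unfold hg cg dot
  exact (((h1.sub h2).add continuousOn_const).const_mul 2).rexp.mul
    ((((hDi 0).mul (hDi 0)).add ((hDi 1).mul (hDi 1))).add ((hDi 2).mul (hDi 2)))

theorem il_dot_nonneg (v : V3) : 0 ≤ dot v v := by
  unfold dot
  nlinarith [mul_self_nonneg (v 0), mul_self_nonneg (v 1), mul_self_nonneg (v 2)]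

theorem il_hg (u : V3 → ℝ) (z : V3) (hz : z ∈ U) (v : V3) :
    hg u 0 z v v = Real.exp (u z) ^ 2 / z 2 ^ 2 * dot v v := by
  have hz2 : 0 < z 2 := hz
  unfold hg cg
  have e : Real.exp (2 * (u z - Real.log (z 2) + 0)) = Real.exp (u z) ^ 2 / z 2 ^ 2 := by
    have e1 : 2 * (u z - Real.log (z 2) + 0) = (u z + u z) - (Real.log (z 2) + Real.log (z 2)) := by
      ring
    rw [e1, Real.exp_sub, Real.exp_add, Real.exp_add, Real.exp_log hz2]
    ring
  rw [e]

theorem img_len (u : V3 → ℝ) (b : ℝ → ℝ) (C₁ : ℝ) (P : Pk u b C₁)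
    (A : Matrix (Fin 2) (Fin 2) ℂ) (hA : A.det = 1) (c : ℝ → V3)
    (hc : ContDiffOn ℝ 1 c (Icc 0 1)) (hU : ∀ t ∈ Icc (0 : ℝ) 1, c t ∈ U) :
    ContDiffOn ℝ 1 (fun t => act A (c t)) (Icc 0 1) ∧
    curveLen (hg u 0) (fun t => act A (c t)) ≤ Real.exp 1 * curveLen (hg u 0) c := by
  have hUo : IsOpen U := isOpen_lt continuous_const (continuous_apply 2)
  have hUA : ∀ t ∈ Icc (0 : ℝ) 1, act A (c t) ∈ U := fun t ht => act_mem A hA _ (hU t ht)
  have hcA : ContDiffOn ℝ 1 (fun t => act A (c t)) (Icc 0 1) :=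
    ((act_smooth A hA).of_le (by exact_mod_cast le_top)).comp hc hU
  refine ⟨hcA, ?_⟩
  have hder : ∀ t ∈ Icc (0 : ℝ) 1, derivWithin (fun t => act A (c t)) (Icc 0 1) t =
      fderiv ℝ (act A) (c t) (derivWithin c (Icc 0 1) t) := by
    intro t ht
    have h1 : HasFDerivAt (act A) (fderiv ℝ (act A) (c t)) (c t) := by
      have := (act_smooth A hA).contDiffAt (hUo.mem_nhds (hU t ht))
      exact (this.differentiableAt (by simp)).hasFDerivAt
    have h2 : HasDerivWithinAt c (derivWithin c (Icc 0 1) t) (Icc 0 1) t :=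
      (hc.differentiableOn one_ne_zero t ht).hasDerivWithinAt
    have h3 := h1.comp_hasDerivWithinAt t h2
    exact h3.derivWithin (uniqueDiffOn_Icc one_pos t ht)
  have hpt : ∀ t ∈ Icc (0 : ℝ) 1,
      Real.sqrt (hg u 0 (act A (c t)) (derivWithin (fun t => act A (c t)) (Icc 0 1) t)
        (derivWithin (fun t => act A (c t)) (Icc 0 1) t)) ≤
      Real.exp 1 * Real.sqrt (hg u 0 (c t) (derivWithin c (Icc 0 1) t)
        (derivWithin c (Icc 0 1) t)) := by
    intro t ht
    have hz := hU t ht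
    have hy := hUA t ht
    have hz2 : 0 < c t 2 := hz
    have hy2 : 0 < act A (c t) 2 := hy
    rw [hder t ht, il_hg u _ hy, il_hg u _ hz, act_deriv A hA _ hz]
    set v := derivWithin c (Icc 0 1) t with hv
    have hd := il_dot_nonneg v
    have e1 : Real.exp (u (act A (c t))) ^ 2 / act A (c t) 2 ^ 2 *
        ((act A (c t) 2 / c t 2) ^ 2 * dot v v) =
        (Real.exp (u (act A (c t))) / c t 2) ^ 2 * dot v v := by
      field_simp
    have e2 : Real.exp (u (c t)) ^ 2 / c t 2 ^ 2 * dot v v =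
        (Real.exp (u (c t)) / c t 2) ^ 2 * dot v v := by
      field_simp
    rw [e1, e2, Real.sqrt_mul (sq_nonneg _), Real.sqrt_mul (sq_nonneg _),
      Real.sqrt_sq (by positivity), Real.sqrt_sq (by positivity)]
    rw [← mul_assoc]
    refine mul_le_mul_of_nonneg_right ?_ (Real.sqrt_nonneg _)
    rw [← mul_div_assoc, ← Real.exp_add]
    refine div_le_div_of_nonneg_right ?_ hz2.le
    apply Real.exp_le_exp.2
    have h1 := P.nonpos _ hy
    have h2 := P.bdd _ hz
    linarith
  have hu : ContinuousOn u U := P.smooth.continuousOn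
  have i1 := (il_cont u hu _ hcA hUA).intervalIntegrable_of_Icc (μ := volume) zero_le_one
  have i2 := (il_cont u hu _ hc hU).intervalIntegrable_of_Icc (μ := volume) zero_le_one
  have h := intervalIntegral.integral_mono_on zero_le_one i1 (i2.const_mul (Real.exp 1)) hpt
  rw [intervalIntegral.integral_const_mul] at h
  exact h

end J_img_len
export J_img_len (img_len)
end Pool.Agent.QG
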