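import Pool.Agent.QG.G

set_option autoImplicit false

namespace Pool.Agent.QG
open Set Filter Topology MeasureTheory Pool.Agent.BL
open Pool.Agent.BL.ActAlg (zt NN)
open scoped ContDiff

namespace J_xx_conn




theorem xx_conn (p0 : V3) (x y : V3) (hx : x ∈ XX p0) (hy : y ∈ XX p0) :
    ∃ c : ℝ → V3, ContDiffOn ℝ 1 c (Icc 0 1) ∧ c 0 = x ∧ c 1 = y ∧
      ∀ t ∈ Icc (0 : ℝ) 1, c t ∈ XX p0 := by
  have hx2 : 0 < x 2 := hx.1
  have hy2 : 0 < y 2 := hy.1
  let D : ℝ → ℝ := fun t => (1 - t) * (x 0 ^ 2 + x 1 ^ 2 + x 2 ^ 2) +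
    t * (y 0 ^ 2 + y 1 ^ 2 + y 2 ^ 2) - ((1 - t) * x 0 + t * y 0) ^ 2 -
    ((1 - t) * x 1 + t * y 1) ^ 2
  have hD : ∀ t ∈ Icc (0 : ℝ) 1, 0 < D t := by
    intro t ht
    have h0 : 0 ≤ t := ht.1
    have h1 : 0 ≤ 1 - t := by linarith [ht.2]
    have e : D t = (1 - t) * x 2 ^ 2 + t * y 2 ^ 2 +
        t * (1 - t) * ((x 0 - y 0) ^ 2 + (x 1 - y 1) ^ 2) := by
      simp only [D]; ring
    rw [e]
    have h2 : 0 ≤ t * (1 - t) * ((x 0 - y 0) ^ 2 + (x 1 - y 1) ^ 2) := by positivity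
    have h3 : 0 < (1 - t) * x 2 ^ 2 + t * y 2 ^ 2 := by
      rcases eq_or_lt_of_le h0 with h | h
      · rw [← h]
        have : 0 < x 2 ^ 2 := by positivity
        linarith
      · have hp : 0 < t * y 2 ^ 2 := by positivity
        have hq : 0 ≤ (1 - t) * x 2 ^ 2 := by positivity
        linarith
    linarith
  refine ⟨fun t => ![(1 - t) * x 0 + t * y 0, (1 - t) * x 1 + t * y 1, Real.sqrt (D t)],
    ?_, ?_, ?_, ?_⟩
  · rw [contDiffOn_pi]
    intro i
    fin_cases i
    · show ContDiffOn ℝ 1 (fun t : ℝ => (1 - t) * x 0 + t * y 0) (Icc 0 1)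
      fun_prop
    · show ContDiffOn ℝ 1 (fun t : ℝ => (1 - t) * x 1 + t * y 1) (Icc 0 1)
      fun_prop
    · show ContDiffOn ℝ 1 (fun t : ℝ => Real.sqrt (D t)) (Icc 0 1)
      apply ContDiffOn.sqrt
      · simp only [D]
        fun_prop
      · intro t ht
        exact (hD t ht).ne'
  · funext i
    fin_cases i
    · simp
    · simp
    · have e : D 0 = x 2 ^ 2 := by simp only [D]; ring
      show Real.sqrt (D 0) = x 2
      rw [e, Real.sqrt_sq hx2.le]
  · funext i
    fin_cases i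
    · simp
    · simp
    · have e : D 1 = y 2 ^ 2 := by simp only [D]; ring
      show Real.sqrt (D 1) = y 2
      rw [e, Real.sqrt_sq hy2.le]
  · intro t ht
    have h0 : 0 ≤ t := ht.1
    have h1 : 0 ≤ 1 - t := by linarith [ht.2]
    constructor
    · show 0 < Real.sqrt (D t)
      exact Real.sqrt_pos.mpr (hD t ht)
    · intro A hA
      have hfx := hx.2 A hA
      have hfy := hy.2 A hA
      have hs : Real.sqrt (D t) ^ 2 = D t := Real.sq_sqrt (hD t ht).le
      have key : fW A ![(1 - t) * x 0 + t * y 0, (1 - t) * x 1 + t * y 1, Real.sqrt (D t)] =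
          (1 - t) * fW A x + t * fW A y := by
        unfold fW
        have e0 : (![(1 - t) * x 0 + t * y 0, (1 - t) * x 1 + t * y 1,
          Real.sqrt (D t)] : V3) 0 = (1 - t) * x 0 + t * y 0 := rfl
        have e1 : (![(1 - t) * x 0 + t * y 0, (1 - t) * x 1 + t * y 1,
          Real.sqrt (D t)] : V3) 1 = (1 - t) * x 1 + t * y 1 := rfl
        have e2 : (![(1 - t) * x 0 + t * y 0, (1 - t) * x 1 + t * y 1,
          Real.sqrt (D t)] : V3) 2 = Real.sqrt (D t) := rfl
        rw [e0, e1, e2, hs]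
        simp only [D]
        ring
      show 0 ≤ fW A ![(1 - t) * x 0 + t * y 0, (1 - t) * x 1 + t * y 1, Real.sqrt (D t)] *
        fW A p0
      rw [key]
      have : ((1 - t) * fW A x + t * fW A y) * fW A p0 =
          (1 - t) * (fW A x * fW A p0) + t * (fW A y * fW A p0) := by ring
      rw [this]
      positivity

end J_xx_conn
export J_xx_conn (xx_conn)
end Pool.Agent.QG
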