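import Pool.Agent.QG.G
import Pool.Agent.QG.P_xx_conn
import Pool.Agent.QG.P_img_len

set_option autoImplicit false

namespace Pool.Agent.QG
open Set Filter Topology MeasureTheory Pool.Agent.BL
open Pool.Agent.BL.ActAlg (zt NN)
open scoped ContDiff

namespace J_img_dist














theorem img_dist (u : V3 → ℝ) (b : ℝ → ℝ) (C₁ : ℝ) (P : Pk u b C₁) (p0 : V3)
    (A : Matrix (Fin 2) (Fin 2) ℂ) (hA : A.det = 1) (hX : ∀ x ∈ XX p0, act A x ∈ XX p0)
    (x y : V3) (hx : x ∈ XX p0) (hy : y ∈ XX p0) :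
    pdist (XX p0) (hg u 0) (act A x) (act A y) ≤
      Real.exp 1 * pdist (XX p0) (hg u 0) x y := by
  have he : 0 < Real.exp 1 := Real.exp_pos 1
  have hbdd : BddBelow {L | IsPath (XX p0) (hg u 0) (act A x) (act A y) L} := by
    refine ⟨0, ?_⟩
    rintro L ⟨n, pt, c, -, -, -, rfl⟩
    apply Finset.sum_nonneg
    intro i _
    apply intervalIntegral.integral_nonneg (by norm_num)
    intro t _
    exact Real.sqrt_nonneg _
  have hne : {L | IsPath (XX p0) (hg u 0) x y L}.Nonempty := by
    obtain ⟨c, hc, h0, h1, hXc⟩ := xx_conn p0 x y hx hy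
    refine ⟨_, 1, fun i => if i = 0 then x else y, fun _ => c, by simp, by simp, ?_, rfl⟩
    intro i hi
    have hi0 : i = 0 := by omega
    subst hi0
    exact ⟨hc, hXc, by simpa using h0, by simpa using h1⟩
  have key : ∀ L ∈ {L | IsPath (XX p0) (hg u 0) x y L},
      pdist (XX p0) (hg u 0) (act A x) (act A y) / Real.exp 1 ≤ L := by
    rintro L ⟨n, pt, c, hp0, hpn, hseg, rfl⟩
    rw [div_le_iff₀ he]
    have hXU : XX p0 ⊆ U := fun z hz => hz.1
    have hpath : IsPath (XX p0) (hg u 0) (act A x) (act A y)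
        (∑ i ∈ Finset.range n, curveLen (hg u 0) (fun t => act A (c i t))) := by
      refine ⟨n, fun i => act A (pt i), fun i t => act A (c i t), by simp [hp0], by simp [hpn],
        ?_, rfl⟩
      intro i hi
      obtain ⟨h1, h2, h3, h4⟩ := hseg i hi
      exact ⟨(img_len u b C₁ P A hA (c i) h1 (fun t ht => hXU (h2 t ht))).1,
        fun t ht => hX _ (h2 t ht), by simp [h3], by simp [h4]⟩
    refine (csInf_le hbdd hpath).trans ?_
    rw [Finset.sum_mul]
    apply Finset.sum_le_sum
    intro i hi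
    obtain ⟨h1, h2, h3, h4⟩ := hseg i (Finset.mem_range.1 hi)
    rw [mul_comm]
    exact (img_len u b C₁ P A hA (c i) h1 (fun t ht => hXU (h2 t ht))).2
  have h := le_csInf hne key
  rw [div_le_iff₀ he] at h
  rw [mul_comm]
  exact h

end J_img_dist
export J_img_dist (img_dist)
end Pool.Agent.QG
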