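import Pool.Agent.QG.G
import Pool.Agent.QG.P_wall_ref
import Pool.Agent.QG.P_bdd_fin

set_option autoImplicit false

namespace Pool.Agent.QG
open Set Filter Topology MeasureTheory Pool.Agent.BL
open Pool.Agent.BL.ActAlg (zt NN)
open scoped ContDiff

namespace J_lf




















theorem lf_zt : Continuous zt := by
  have h : zt = fun z : V3 => ((z 0 : ℝ) : ℂ) + ((z 1 : ℝ) : ℂ) * Complex.I := by
    funext z
    exact Complex.mk_eq_add_mul_I (z 0) (z 1)
  rw [h]
  fun_prop

theorem lf_act (A : Matrix (Fin 2) (Fin 2) ℂ) (hA : A.det = 1) (z : V3) (hz : z ∈ U) :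
    ContinuousAt (act A) z := by
  have hzt := lf_zt
  have hN0 : NN A z ≠ 0 := (NN_pos A hA z hz).ne'
  have h2 : Continuous (fun z : V3 => z 2) := continuous_apply 2
  have hN : Continuous (NN A) := by
    have h3 : Continuous (fun z => Complex.normSq (A 1 0 * zt z + A 1 1)) :=
      Complex.continuous_normSq.comp ((continuous_const.mul hzt).add continuous_const)
    exact h3.add (continuous_const.mul (h2.pow 2))
  have hE : Continuous (fun z : V3 => (A 0 0 * zt z + A 0 1) * (starRingEnd ℂ)
      (A 1 0 * zt z + A 1 1) + A 0 0 * (starRingEnd ℂ) (A 1 0) * (((z 2) ^ 2 : ℝ) : ℂ)) := by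
    have h4 : Continuous (fun z : V3 => (starRingEnd ℂ) (A 1 0 * zt z + A 1 1)) :=
      Complex.continuous_conj.comp ((continuous_const.mul hzt).add continuous_const)
    have h5 : Continuous (fun z : V3 => (((z 2) ^ 2 : ℝ) : ℂ)) :=
      Complex.continuous_ofReal.comp (h2.pow 2)
    exact (((continuous_const.mul hzt).add continuous_const).mul h4).add
      (continuous_const.mul h5)
  rw [continuousAt_pi]
  intro j
  fin_cases j
  · exact ((Complex.continuous_re.comp hE).continuousAt).div hN.continuousAt hN0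
  · exact ((Complex.continuous_im.comp hE).continuousAt).div hN.continuousAt hN0
  · exact h2.continuousAt.div hN.continuousAt hN0

theorem lf_sg_mem {y : V3} (hy : y ∈ U) : sg y ∈ U := by
  simpa [U, sg] using hy

theorem lf_sg_ch (y : V3) : ch o3 (sg y) = ch o3 y := by
  simp [ch, sg, o3]

theorem lf_sg_cont : Continuous sg := by
  refine continuous_pi ?_
  intro j
  fin_cases j
  · exact continuous_apply 0
  · exact (continuous_apply 1).neg
  · exact continuous_apply 2

/-- local finiteness of the walls -/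
theorem lf (x : V3) (hx : x ∈ U) : ∃ r > 0, Metric.ball x r ⊆ U ∧
    ∀ A ∈ Gm, ∀ y ∈ Metric.ball x r, fW A y = 0 → fW A x = 0 := by
  obtain ⟨M, hM1, hM2, -⟩ := wall_ref
  have hx2 : (0 : ℝ) < x 2 := hx
  have h2 : Continuous (fun z : V3 => z 2) := continuous_apply 2
  have hU : ∀ᶠ y in 𝓝 x, y ∈ U := (isOpen_lt continuous_const h2).mem_nhds hx
  have hch : ContinuousAt (ch o3) x := by
    unfold ch
    have h0 : Continuous (fun z : V3 => z 0) := continuous_apply 0
    have h1 : Continuous (fun z : V3 => z 1) := continuous_apply 1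
    refine continuousAt_const.add (ContinuousAt.div ?_ ?_ ?_)
    · exact ((((h0.sub continuous_const).pow 2).add ((h1.sub continuous_const).pow 2)).add
        ((h2.sub continuous_const).pow 2)).continuousAt
    · exact (continuous_const.mul h2).continuousAt
    · simp [o3]
      exact hx2.ne'
  have hR : ∀ᶠ y in 𝓝 x, ch o3 y < ch o3 x + 1 :=
    hch.eventually_lt continuousAt_const (by linarith)
  set S := {A | A ∈ Gm ∧ ∃ z ∈ U, ch o3 z ≤ ch o3 x + 1 ∧ ch o3 (act A z) ≤ ch o3 x + 1} with hS
  have hSf : S.Finite := bdd_fin (ch o3 x + 1) (ch o3 x + 1)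
  have hev : ∀ᶠ y in 𝓝 x, ∀ A ∈ S, act A (sg x) ≠ x → act A (sg y) ≠ y := by
    rw [Filter.eventually_all_finite hSf]
    intro A hA
    by_cases h : act A (sg x) = x
    · exact Filter.Eventually.of_forall (fun y hne => absurd h hne)
    · have hc : ContinuousAt (fun y => act A (sg y)) x :=
        ContinuousAt.comp (f := sg) (g := act A) (x := x)
          (lf_act A (gm_det A hA.1) (sg x) (lf_sg_mem hx)) lf_sg_cont.continuousAt
      have h3 : ∀ᶠ y in 𝓝 x, act A (sg y) - y ≠ 0 :=
        (hc.sub continuousAt_id).eventually_ne (sub_ne_zero.mpr h)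
      filter_upwards [h3] with y hy _
      exact sub_ne_zero.mp hy
  have hall := hU.and (hR.and hev)
  rw [Metric.eventually_nhds_iff_ball] at hall
  obtain ⟨r, hr, hall⟩ := hall
  refine ⟨r, hr, fun y hy => (hall y hy).1, ?_⟩
  intro A hA y hy hfy
  obtain ⟨hyU, hyR, hyS⟩ := hall y hy
  have h4 : act (M A) (sg y) = y := (hM2 A hA y hyU).mp hfy
  have h5 : M A ∈ S := by
    refine ⟨hM1 A hA, sg y, lf_sg_mem hyU, ?_, ?_⟩
    · rw [lf_sg_ch]
      exact hyR.le
    · rw [h4]
      exact hyR.le
  refine (hM2 A hA x hx).mpr ?_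
  by_contra hne
  exact hyS (M A) h5 hne h4

end J_lf
export J_lf (lf)
end Pool.Agent.QG
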