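import Pool.Agent.QG.G
import Pool.Agent.QG.P_fw_act
import Pool.Agent.QG.P_fw_lmul
import Pool.Agent.QG.P_act_cj
import Pool.Agent.QG.P_cj_gm

set_option autoImplicit false

namespace Pool.Agent.QG
open Set Filter Topology MeasureTheory Pool.Agent.BL
open Pool.Agent.BL.ActAlg (zt NN)
open scoped ContDiff

namespace J_wall























/-- two walls which meet are equal -/
theorem wall (A B : Matrix (Fin 2) (Fin 2) ℂ) (hA : A ∈ Gm) (hB : B ∈ Gm) (x : V3) (hx : x ∈ U)
    (h1 : fW A x = 0) (h2 : fW B x = 0) : ∀ y ∈ U, fW B y = fW A y := by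
  have hdA := gm_det A hA
  have hdB := gm_det B hB
  obtain ⟨A', hA', hAA', hA'A⟩ := gm_inv A hA
  have hM : B * A' ∈ Gm := gm_mul B A' hB hA'
  set M := B * A' with hMdef
  have hdM := gm_det M hM
  have hMA : M * A = B := by rw [hMdef, Matrix.mul_assoc, hA'A, Matrix.mul_one]
  obtain ⟨N, hN, hMN, hNM⟩ := gm_inv M hM
  have hdN := gm_det N hN
  obtain ⟨c1, c2, c3, c4, c5⟩ := cj_gm
  have hcM : cj M ∈ Gm := c1 M hM
  have hdcM := gm_det (cj M) hcM
  set y0 := act A x with hy0
  have hy0U : y0 ∈ U := act_mem A hdA x hx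
  have e1 : y0 1 = 0 := by
    have h := fw_act A hdA x hx
    rw [h1] at h
    have hp := NN_pos A hdA x hx
    rcases mul_eq_zero.mp h.symm with h' | h'
    · exact h'
    · exact absurd h' hp.ne'
  have hMy : act M y0 = act B x := by
    rw [hy0, ← act_mul M A hdM hdA x hx, hMA]
  have e2 : (act M y0) 1 = 0 := by
    rw [hMy]
    have h := fw_act B hdB x hx
    rw [h2] at h
    have hp := NN_pos B hdB x hx
    rcases mul_eq_zero.mp h.symm with h' | h'
    · exact h'
    · exact absurd h' hp.ne'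
  have hsg : ∀ v : V3, v 1 = 0 → sg v = v := by
    intro v hv
    funext i
    fin_cases i
    · simp [sg]
    · simp [sg, hv]
    · simp [sg]
  have e3 : act (cj M) y0 = act M y0 := by
    have h := act_cj M hdM y0 hy0U
    rw [hsg y0 e1, hsg _ e2] at h
    exact h
  have e4 : act (N * cj M) y0 = y0 := by
    rw [act_mul N (cj M) hdN hdcM y0 hy0U, e3, ← act_mul N M hdN hdM y0 hy0U, hNM,
      act_one y0 hy0U]
  have e5 : N * cj M = 1 := gm_free _ (gm_mul N (cj M) hN hcM) y0 hy0U e4
  have e6 : cj M = M := by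
    calc cj M = (M * N) * cj M := by rw [hMN, Matrix.one_mul]
      _ = M * (N * cj M) := by rw [Matrix.mul_assoc]
      _ = M := by rw [e5, Matrix.mul_one]
  intro y hy
  rw [← hMA]
  exact fw_lmul M A e6 hdM hdA y hy

end J_wall
export J_wall (wall)
end Pool.Agent.QG
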