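import Pool.Agent.QG.G
import Pool.Agent.QG.P_wall
import Pool.Agent.QG.P_fw_ivt
import Pool.Agent.QG.P_lf

set_option autoImplicit false

namespace Pool.Agent.QG
open Set Filter Topology MeasureTheory Pool.Agent.BL
open Pool.Agent.BL.ActAlg (zt NN)
open scoped ContDiff

namespace J_local_form

















theorem local_form_pos (p0 : V3) (h : PB p0) (x : V3) (hxU : x ∈ U)
    (hx' : ∀ A ∈ Gm, 0 ≤ fW A x * fW A p0) (r : ℝ) (hr : 0 < r) (hball : Metric.ball x r ⊆ U)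
    (hlf : ∀ A ∈ Gm, ∀ y ∈ Metric.ball x r, fW A y = 0 → fW A x = 0)
    (A : Matrix (Fin 2) (Fin 2) ℂ) (hA : A ∈ Gm) (hne : fW A x ≠ 0) (y : V3)
    (hy : y ∈ Metric.ball x r) : 0 < fW A y * fW A p0 := by
  by_contra hcon
  have hcon' : fW A y * fW A p0 ≤ 0 := not_lt.1 hcon
  have hp : fW A p0 ≠ 0 := h.ne A hA
  have hp2 : 0 < fW A p0 ^ 2 := by positivity
  have hxp : 0 ≤ fW A x * fW A p0 := hx' A hA
  have h1 : fW A x * fW A y ≤ 0 := by
    have h2 : (fW A x * fW A p0) * (fW A y * fW A p0) ≤ 0 :=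
      mul_nonpos_of_nonneg_of_nonpos hxp hcon'
    have h3 : (fW A x * fW A y) * fW A p0 ^ 2 ≤ 0 := by
      calc (fW A x * fW A y) * fW A p0 ^ 2 = (fW A x * fW A p0) * (fW A y * fW A p0) := by ring
        _ ≤ 0 := h2
    by_contra h4
    have h5 : 0 < (fW A x * fW A y) * fW A p0 ^ 2 := mul_pos (not_le.1 h4) hp2
    linarith
  obtain ⟨z, hz, _, hz0, _⟩ := fw_ivt A x y hxU (hball hy) h1
  have hzb : z ∈ Metric.ball x r :=
    (convex_ball x r).segment_subset (Metric.mem_ball_self hr) hy hz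
  exact hne (hlf A hA z hzb hz0)

theorem local_form (p0 : V3) (h : PB p0) (x : V3) (hx : x ∈ XX p0) :
    x ∈ interior (XX p0) ∨ ∃ A ∈ Gm, ∃ s : ℝ, s ≠ 0 ∧ fW A x = 0 ∧
      ∀ᶠ y in 𝓝 x, (y ∈ XX p0 ↔ 0 ≤ s * fW A y) := by
  obtain ⟨hxU, hx'⟩ := hx
  obtain ⟨r, hr, hball, hlf⟩ := lf x hxU
  by_cases hcase : ∃ A ∈ Gm, fW A x = 0
  · right
    obtain ⟨A, hA, hA0⟩ := hcase
    refine ⟨A, hA, fW A p0, h.ne A hA, hA0, ?_⟩
    filter_upwards [Metric.ball_mem_nhds x hr] with y hy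
    constructor
    · intro hyX
      have := hyX.2 A hA
      linarith [mul_comm (fW A y) (fW A p0)]
    · intro hs
      refine ⟨hball hy, ?_⟩
      intro B hB
      by_cases hB0 : fW B x = 0
      · have hw := wall A B hA hB x hxU hA0 hB0
        rw [hw y (hball hy), hw p0 h.mem]
        linarith [mul_comm (fW A y) (fW A p0)]
      · exact (local_form_pos p0 h x hxU hx' r hr hball hlf B hB hB0 y hy).le
  · left
    rw [mem_interior]
    refine ⟨Metric.ball x r, ?_, Metric.isOpen_ball, Metric.mem_ball_self hr⟩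
    intro y hy
    refine ⟨hball hy, ?_⟩
    intro B hB
    have hB0 : fW B x ≠ 0 := fun h0 => hcase ⟨B, hB, h0⟩
    exact (local_form_pos p0 h x hxU hx' r hr hball hlf B hB hB0 y hy).le

end J_local_form
export J_local_form (local_form)
end Pool.Agent.QG
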