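import Pool.Agent.QG.G
import Pool.Agent.QG.P_fw_real
import Pool.Agent.QG.P_cj_gm
import Pool.Agent.QG.P_wall
import Pool.Agent.QG.P_gapw
import Pool.Agent.QG.P_dis_ex
import Pool.Agent.QG.P_fw_ivt

set_option autoImplicit false

namespace Pool.Agent.QG
open Set Filter Topology MeasureTheory Pool.Agent.BL
open Pool.Agent.BL.ActAlg (zt NN)
open scoped ContDiff

namespace J_pb_ex































theorem pb_ex : ∃ p0 : V3, PB p0 := by
  obtain ⟨C, hC1, hC⟩ := dis_ex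
  have hoU : o3 ∈ U := by
    show 0 < o3 2
    simp [o3]
  have ho1 : o3 1 = 0 := by simp [o3]
  have hfw1 : ∀ x : V3, fW 1 x = x 1 := fun x => fw_real 1 cj_gm.2.2.2.2 Matrix.det_one x
  have hτ0 : 0 < Real.sqrt (C - 1) := Real.sqrt_pos.2 (by linarith)
  have hτ2 : Real.sqrt (C - 1) ^ 2 = C - 1 := Real.sq_sqrt (by linarith)
  obtain ⟨t, ht⟩ : ∃ t, t = Real.sqrt (C - 1) := ⟨_, rfl⟩
  rw [← ht] at hτ0 hτ2
  have hpU : (![0, t, 1] : V3) ∈ U := by
    show 0 < (![0, t, 1] : V3) 2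
    simp
  have hp1 : (![0, t, 1] : V3) 1 = t := by simp
  have hz1 : ∀ A ∈ Gm, fW A o3 ≠ 0 → 0 < fW A o3 * fW A ![0, t, 1] := by
    intro A hA h0
    by_contra hcon
    push Not at hcon
    obtain ⟨z, hzs, hzU, hz0, _⟩ := fw_ivt A o3 _ hoU hpU hcon
    apply h0
    have h1 := gapw C hC A 1 hA gm_one z hzU hz0 (by
      rw [act_one o3 hoU]
      obtain ⟨a, b, ha, hb, hab, rfl⟩ := hzs
      have e0 : (a • o3 + b • (![0, t, 1] : V3)) 0 = 0 := by simp [o3]
      have e1 : (a • o3 + b • (![0, t, 1] : V3)) 1 = b * t := by simp [o3]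
      have e2 : (a • o3 + b • (![0, t, 1] : V3)) 2 = 1 := by
        simp [o3]
        exact hab
      have o0 : o3 0 = 0 := by simp [o3]
      have o2 : o3 2 = 1 := by simp [o3]
      unfold ch
      rw [e0, e1, e2, o0, ho1, o2]
      have hb1 : b ≤ 1 := by linarith
      have hb2 : b ^ 2 ≤ 1 := by nlinarith
      have h3 : (b * t) ^ 2 ≤ C - 1 := by
        rw [mul_pow, hτ2]
        nlinarith
      have h4 : 1 + ((0 - 0 : ℝ) ^ 2 + (b * t - 0) ^ 2 + (1 - 1) ^ 2) / (2 * 1 * 1) =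
        1 + (b * t) ^ 2 / 2 := by ring
      rw [h4]
      linarith)
    rw [act_one o3 hoU] at h1
    exact h1
  have hz2 : ∀ A ∈ Gm, fW A o3 ≠ 0 → ∀ x ∈ U, x 1 = 0 → 0 < fW A x * fW A o3 := by
    intro A hA h0 x hx hx1
    by_contra hcon
    push Not at hcon
    obtain ⟨z, _, hzU, hz0, hz1'⟩ := fw_ivt A x o3 hx hoU hcon
    apply h0
    have h1 := wall A 1 hA gm_one z hzU hz0 (by rw [hfw1]; exact hz1' hx1 ho1) o3 hoU
    rw [← h1, hfw1, ho1]
  have hz3 : ∀ A ∈ Gm, fW A o3 = 0 → ∀ x ∈ U, fW A x = x 1 := by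
    intro A hA h0 x hx
    have h1 := wall A 1 hA gm_one o3 hoU h0 (by rw [hfw1, ho1]) x hx
    rw [← h1, hfw1]
  refine ⟨![0, t, 1], hpU, by rw [hp1]; exact hτ0, ?_, ?_⟩
  · intro A hA
    by_cases h0 : fW A o3 = 0
    · rw [hz3 A hA h0 _ hpU, hp1]
      exact hτ0.ne'
    · intro h1
      have h2 := hz1 A hA h0
      rw [h1, mul_zero] at h2
      exact lt_irrefl _ h2
  · intro A hA x hx hx1
    by_cases h0 : fW A o3 = 0
    · rw [hz3 A hA h0 x hx, hx1, zero_mul]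
    · have h1 := hz1 A hA h0
      have h2 := hz2 A hA h0 x hx hx1
      have h3 := mul_pos h2 h1
      have h4 : 0 < fW A o3 ^ 2 := by positivity
      by_contra h5
      push Not at h5
      nlinarith

end J_pb_ex
export J_pb_ex (pb_ex)
end Pool.Agent.QG
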