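import Pool.Agent.QG.G
import Pool.Agent.QG.P_xx_conn

set_option autoImplicit false

namespace Pool.Agent.QG
open Set Filter Topology MeasureTheory Pool.Agent.BL
open Pool.Agent.BL.ActAlg (zt NN)
open scoped ContDiff

namespace J_pd_pm

theorem cl_nonneg (g : V3 → V3 → V3 → ℝ) (c : ℝ → V3) : 0 ≤ curveLen g c := by
  unfold curveLen
  apply intervalIntegral.integral_nonneg (by norm_num)
  intro t _
  exact Real.sqrt_nonneg _

theorem pl_nonneg {X : Set V3} {g : V3 → V3 → V3 → ℝ} {p q : V3} {L : ℝ}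
    (h : IsPath X g p q L) : 0 ≤ L := by
  obtain ⟨n, pt, c, _, _, _, rfl⟩ := h
  exact Finset.sum_nonneg (fun i _ => cl_nonneg g (c i))

theorem pl_bdd (X : Set V3) (g : V3 → V3 → V3 → ℝ) (p q : V3) :
    BddBelow {L | IsPath X g p q L} := ⟨0, fun _ hL => pl_nonneg hL⟩

theorem pl_nonempty (p0 : V3) (g : V3 → V3 → V3 → ℝ) (x y : V3) (hx : x ∈ XX p0)
    (hy : y ∈ XX p0) : {L | IsPath (XX p0) g x y L}.Nonempty := by
  obtain ⟨c, hc, hc0, hc1, hcU⟩ := xx_conn p0 x y hx hy
  refine ⟨∑ i ∈ Finset.range 1, curveLen g c, 1, fun i => if i = 0 then x else y,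
    fun _ => c, by simp, by simp, ?_, rfl⟩
  intro i hi
  have hi0 : i = 0 := by omega
  subst hi0
  exact ⟨hc, hcU, by simp [hc0], by simp [hc1]⟩

theorem dw_rev (c : ℝ → V3) (hc : ContDiffOn ℝ 1 c (Icc 0 1)) (t : ℝ) (ht : t ∈ Icc (0 : ℝ) 1) :
    derivWithin (fun t => c (1 - t)) (Icc 0 1) t = - derivWithin c (Icc 0 1) (1 - t) := by
  have ht' : 1 - t ∈ Icc (0 : ℝ) 1 := ⟨by linarith [ht.2], by linarith [ht.1]⟩
  have h1 : HasDerivWithinAt c (derivWithin c (Icc 0 1) (1 - t)) (Icc 0 1) (1 - t) :=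
    (hc.differentiableOn (by norm_num) (1 - t) ht').hasDerivWithinAt
  have h2 : HasDerivWithinAt (fun s : ℝ => 1 - s) (-1) (Icc 0 1) t := by
    simpa using ((hasDerivAt_id t).const_sub 1).hasDerivWithinAt
  have h3 : MapsTo (fun s : ℝ => 1 - s) (Icc (0 : ℝ) 1) (Icc 0 1) := by
    intro s hs
    exact ⟨by linarith [hs.2], by linarith [hs.1]⟩
  have h4 := HasDerivWithinAt.scomp t h1 h2 h3
  have h5 := h4.derivWithin (uniqueDiffOn_Icc (by norm_num) t ht)
  rw [show (fun t => c (1 - t)) = c ∘ (fun s : ℝ => 1 - s) from rfl, h5]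
  simp

theorem cl_rev (w : V3 → ℝ) (c : ℝ → V3) (hc : ContDiffOn ℝ 1 c (Icc 0 1)) :
    curveLen (cg w) (fun t => c (1 - t)) = curveLen (cg w) c := by
  unfold curveLen
  have h1 : ∀ t ∈ Set.uIcc (0 : ℝ) 1, Real.sqrt (cg w (c (1 - t))
      (derivWithin (fun t => c (1 - t)) (Icc 0 1) t)
      (derivWithin (fun t => c (1 - t)) (Icc 0 1) t)) =
      (fun s => Real.sqrt (cg w (c s) (derivWithin c (Icc 0 1) s)
        (derivWithin c (Icc 0 1) s))) (1 - t) := by
    intro t ht
    rw [Set.uIcc_of_le (by norm_num)] at ht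
    rw [dw_rev c hc t ht]
    simp only [cg, dot, Pi.neg_apply, neg_mul_neg]
  rw [intervalIntegral.integral_congr h1]
  rw [intervalIntegral.integral_comp_sub_left (fun s => Real.sqrt (cg w (c s)
    (derivWithin c (Icc 0 1) s) (derivWithin c (Icc 0 1) s)))]
  norm_num

theorem pl_symm (X : Set V3) (w : V3 → ℝ) {p q : V3} {L : ℝ}
    (h : IsPath X (cg w) p q L) : IsPath X (cg w) q p L := by
  obtain ⟨n, pt, c, h0, hn, hc, rfl⟩ := h
  refine ⟨n, fun i => pt (n - i), fun i t => c (n - 1 - i) (1 - t), by simpa using hn,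
    by simpa using h0, ?_, ?_⟩
  · intro i hi
    obtain ⟨a1, a2, a3, a4⟩ := hc (n - 1 - i) (by omega)
    refine ⟨?_, ?_, ?_, ?_⟩
    · apply a1.comp (contDiffOn_const.sub contDiffOn_id)
      intro s hs
      exact ⟨by simpa using hs.2, by simpa using hs.1⟩
    · intro t ht
      exact a2 (1 - t) ⟨by linarith [ht.2], by linarith [ht.1]⟩
    · simp only [sub_zero]
      rw [a4]
      congr 1
      omega
    · simp only [sub_self]
      rw [a3]
      congr 1
      omega
  · have h1 : ∀ i ∈ Finset.range n, curveLen (cg w) (fun t => c (n - 1 - i) (1 - t))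
        = curveLen (cg w) (c (n - 1 - i)) := fun i hi =>
      cl_rev w (c (n - 1 - i)) (hc (n - 1 - i) (by have := Finset.mem_range.1 hi; omega)).1
    rw [Finset.sum_congr rfl h1]
    exact (Finset.sum_range_reflect (fun i => curveLen (cg w) (c i)) n).symm

theorem pl_trans (X : Set V3) (g : V3 → V3 → V3 → ℝ) {p q r : V3} {L L' : ℝ}
    (h : IsPath X g p q L) (h' : IsPath X g q r L') :
    IsPath X g p r (L + L') := by
  obtain ⟨n, pt, c, h0, hn, hc, rfl⟩ := h
  obtain ⟨n', pt', c', h0', hn', hc', rfl⟩ := h'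
  refine ⟨n + n', fun i => if i ≤ n then pt i else pt' (i - n),
    fun i => if i < n then c i else c' (i - n), by simpa using h0, ?_, ?_, ?_⟩
  · by_cases hz : n' = 0
    · subst hz
      simp only [add_zero, le_refl, if_true]
      rw [hn, ← h0', hn']
    · simp only
      rw [if_neg (by omega)]
      simpa using hn'
  · intro i hi
    by_cases hin : i < n
    · obtain ⟨a1, a2, a3, a4⟩ := hc i hin
      simp only [if_pos hin, if_pos hin.le, if_pos (show i + 1 ≤ n from hin)]
      exact ⟨a1, a2, a3, a4⟩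
    · obtain ⟨a1, a2, a3, a4⟩ := hc' (i - n) (by omega)
      simp only [if_neg hin, if_neg (show ¬ (i + 1 ≤ n) by omega)]
      refine ⟨a1, a2, ?_, ?_⟩
      · rw [a3]
        by_cases hin2 : i ≤ n
        · have : i = n := by omega
          subst this
          simp only [le_refl, if_true, Nat.sub_self]
          rw [h0', hn]
        · rw [if_neg hin2]
      · rw [a4]
        congr 1
        omega
  · rw [Finset.sum_range_add]
    congr 1
    · apply Finset.sum_congr rfl
      intro i hi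
      beta_reduce
      rw [if_pos (Finset.mem_range.mp hi)]
    · apply Finset.sum_congr rfl
      intro i hi
      beta_reduce
      rw [if_neg (show ¬ (n + i < n) by omega), Nat.add_sub_cancel_left]

theorem pd_pm (u : V3 → ℝ) (p0 : V3) :
    (∀ x y, 0 ≤ pdist (XX p0) (hg u 0) x y) ∧
    (∀ x ∈ XX p0, pdist (XX p0) (hg u 0) x x = 0) ∧
    (∀ x y, pdist (XX p0) (hg u 0) x y = pdist (XX p0) (hg u 0) y x) ∧
    (∀ x ∈ XX p0, ∀ y ∈ XX p0, ∀ z ∈ XX p0, pdist (XX p0) (hg u 0) x z ≤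
      pdist (XX p0) (hg u 0) x y + pdist (XX p0) (hg u 0) y z) := by
  have h0 : ∀ x y, 0 ≤ pdist (XX p0) (hg u 0) x y := fun x y =>
    Real.sInf_nonneg (fun L hL => pl_nonneg hL)
  refine ⟨h0, ?_, ?_, ?_⟩
  · intro x hx
    apply le_antisymm _ (h0 x x)
    apply csInf_le (pl_bdd _ _ _ _)
    exact ⟨0, fun _ => x, fun _ _ => x, rfl, rfl, fun i hi => absurd hi (by omega), by simp⟩
  · intro x y
    unfold pdist
    congr 1
    ext L
    exact ⟨fun h => pl_symm _ _ h, fun h => pl_symm _ _ h⟩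
  · intro x hx y hy z hz
    have h1 : ∀ L ∈ {L | IsPath (XX p0) (hg u 0) x y L}, ∀ L' ∈ {L | IsPath (XX p0) (hg u 0) y z L},
        pdist (XX p0) (hg u 0) x z ≤ L + L' := fun L hL L' hL' =>
      csInf_le (pl_bdd _ _ _ _) (pl_trans _ _ hL hL')
    have h2 : ∀ L ∈ {L | IsPath (XX p0) (hg u 0) x y L},
        pdist (XX p0) (hg u 0) x z - L ≤ pdist (XX p0) (hg u 0) y z := by
      intro L hL
      apply le_csInf (pl_nonempty p0 _ y z hy hz)
      intro L' hL'
      linarith [h1 L hL L' hL']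
    have h3 : pdist (XX p0) (hg u 0) x z - pdist (XX p0) (hg u 0) y z ≤
        pdist (XX p0) (hg u 0) x y := by
      apply le_csInf (pl_nonempty p0 _ x y hx hy)
      intro L hL
      linarith [h2 L hL]
    linarith

end J_pd_pm
export J_pd_pm (pd_pm)
end Pool.Agent.QG
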