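import Pool.Agent.QG.G

set_option autoImplicit false

namespace Pool.Agent.QG
open Set Filter Topology MeasureTheory Pool.Agent.BL
open Pool.Agent.BL.ActAlg (zt NN)
open scoped ContDiff

namespace J_rr_lip











theorem en_pos (z : V3) (hz : 0 < z 2) : 0 < en z := by
  unfold en
  apply Real.sqrt_pos.2
  positivity

theorem en_sq (z : V3) : en z ^ 2 = z 0 ^ 2 + z 1 ^ 2 + z 2 ^ 2 := by
  unfold en
  exact Real.sq_sqrt (by positivity)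

theorem ch_axis (q : V3) (hq : 0 < q 2) (t : ℝ) (ht : 0 < t) :
    ch q ![0, 0, t] = (en q ^ 2 + t ^ 2) / (2 * q 2 * t) := by
  rw [en_sq]
  unfold ch
  simp only [Matrix.cons_val_zero, Matrix.cons_val_one, Matrix.cons_val]
  have h1 : q 2 ≠ 0 := hq.ne'
  have h2 : t ≠ 0 := ht.ne'
  field_simp
  ring

theorem rr_le_ch (q : V3) (hq : 0 < q 2) (t : ℝ) (ht : 0 < t) : RR q ≤ ch q ![0, 0, t] := by
  rw [ch_axis q hq t ht]
  unfold RR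
  rw [div_le_div_iff₀ hq (by positivity)]
  nlinarith [mul_nonneg hq.le (sq_nonneg (en q - t))]

theorem ch_foot (z : V3) (hz : 0 < z 2) : ch z ![0, 0, en z] = RR z := by
  have h := en_pos z hz
  rw [ch_axis z hz _ h]
  unfold RR
  have h1 : z 2 ≠ 0 := hz.ne'
  have h2 : en z ≠ 0 := h.ne'
  field_simp
  ring

theorem rr_lip (κ : ℝ) (hκ : 1 < κ) : ∃ C κ' : ℝ, 1 < C ∧ 1 < κ' ∧ ∀ q ∈ U, ∀ z ∈ U,
    κ ≤ RR q → ch q z < C → κ' ≤ RR z := by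
  obtain ⟨s, hs, hs2⟩ : ∃ s : ℝ, 0 < s ∧ Real.cosh (2 * s) = κ := by
    refine ⟨Real.arcosh κ / 2, ?_, ?_⟩
    · have := Real.arcosh_pos hκ
      linarith
    · rw [mul_div_cancel₀ _ (by norm_num : (2 : ℝ) ≠ 0), Real.cosh_arcosh hκ.le]
  have hc : 1 < Real.cosh s := Real.one_lt_cosh.2 hs.ne'
  refine ⟨Real.cosh s, Real.cosh s, hc, hc, fun q hq z hz hκq hqz => ?_⟩
  by_contra hcon
  push Not at hcon
  have hq' : 0 < q 2 := hq
  have hz' : 0 < z 2 := hz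
  have he := en_pos z hz'
  have ha : (![0, 0, en z] : V3) ∈ U := by
    show 0 < (![0, 0, en z] : V3) 2
    simpa using he
  have h1 : RR q ≤ ch q ![0, 0, en z] := rr_le_ch q hq' _ he
  have h2 : ch z ![0, 0, en z] = RR z := ch_foot z hz'
  have t := hd_tri ⟨q, hq⟩ ⟨z, hz⟩ ⟨_, ha⟩
  have e1 := cosh_hd ⟨q, hq⟩ ⟨z, hz⟩
  have e2 := cosh_hd ⟨z, hz⟩ ⟨_, ha⟩
  have e3 := cosh_hd ⟨q, hq⟩ ⟨_, ha⟩
  have n1 := hd_nn ⟨q, hq⟩ ⟨z, hz⟩
  have n2 := hd_nn ⟨z, hz⟩ ⟨_, ha⟩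
  have n3 := hd_nn ⟨q, hq⟩ ⟨_, ha⟩
  simp only at e1 e2 e3
  have l1 : hd ⟨q, hq⟩ ⟨z, hz⟩ < s := by
    have : Real.cosh (hd ⟨q, hq⟩ ⟨z, hz⟩) < Real.cosh s := by rw [e1]; exact hqz
    rw [Real.cosh_lt_cosh, abs_of_nonneg n1, abs_of_pos hs] at this
    exact this
  have l2 : hd ⟨z, hz⟩ ⟨_, ha⟩ < s := by
    have : Real.cosh (hd ⟨z, hz⟩ ⟨_, ha⟩) < Real.cosh s := by rw [e2, h2]; exact hcon
    rw [Real.cosh_lt_cosh, abs_of_nonneg n2, abs_of_pos hs] at this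
    exact this
  have l3 : Real.cosh (hd ⟨q, hq⟩ ⟨_, ha⟩) < Real.cosh (2 * s) := by
    rw [Real.cosh_lt_cosh, abs_of_nonneg n3, abs_of_pos (by linarith)]
    linarith
  rw [e3, hs2] at l3
  linarith

end J_rr_lip
export J_rr_lip (rr_lip)
end Pool.Agent.QG
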