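import Pool.Agent.QG.G

set_option autoImplicit false

namespace Pool.Agent.QG
open Set Filter Topology MeasureTheory Pool.Agent.BL
open Pool.Agent.BL.ActAlg (zt NN)
open scoped ContDiff

namespace J_tg1





theorem h939_coord (y v : V3) (i : Fin 3) :
    HasDerivAt (fun t : ℝ => (y + t • v) i) (v i) 0 := by
  have h := ((hasDerivAt_id (0 : ℝ)).mul_const (v i)).const_add (y i)
  simpa using h

theorem h939_ch_dir (p y v : V3) (hp : p 2 ≠ 0) (hy : y 2 ≠ 0) :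
    HasDerivAt (fun t : ℝ => ch p (y + t • v))
      (((2 * (y 0 - p 0) * v 0 + 2 * (y 1 - p 1) * v 1 + 2 * (y 2 - p 2) * v 2) *
        (2 * p 2 * y 2) - ((y 0 - p 0) ^ 2 + (y 1 - p 1) ^ 2 + (y 2 - p 2) ^ 2) *
          (2 * p 2 * v 2)) / (2 * p 2 * y 2) ^ 2) 0 := by
  have e0 := ((h939_coord y v 0).sub_const (p 0)).pow 2
  have e1 := ((h939_coord y v 1).sub_const (p 1)).pow 2
  have e2 := ((h939_coord y v 2).sub_const (p 2)).pow 2
  have ed := (h939_coord y v 2).const_mul (2 * p 2)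
  have hne : 2 * p 2 * (y + (0 : ℝ) • v) 2 ≠ 0 := by
    simp [hp, hy]
  have h := (((e0.add e1).add e2).div ed hne).const_add 1
  refine (h.congr_deriv ?_)
  simp

theorem h939_ch_diff (p y : V3) (hp : p 2 ≠ 0) (hy : y 2 ≠ 0) :
    DifferentiableAt ℝ (ch p) y := by
  have h : DifferentiableAt ℝ (fun x : V3 =>
      ((x 0 - p 0) ^ 2 + (x 1 - p 1) ^ 2 + (x 2 - p 2) ^ 2) / (2 * p 2 * x 2)) y := by
    simp only [div_eq_mul_inv]
    refine DifferentiableAt.fun_mul (by fun_prop) (DifferentiableAt.fun_inv (by fun_prop) ?_)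
    simp [hp, hy]
  exact h.const_add 1

theorem h939_ch_fderiv (p y v : V3) (hp : p 2 ≠ 0) (hy : y 2 ≠ 0) :
    fderiv ℝ (ch p) y v =
      ((2 * (y 0 - p 0) * v 0 + 2 * (y 1 - p 1) * v 1 + 2 * (y 2 - p 2) * v 2) *
        (2 * p 2 * y 2) - ((y 0 - p 0) ^ 2 + (y 1 - p 1) ^ 2 + (y 2 - p 2) ^ 2) *
          (2 * p 2 * v 2)) / (2 * p 2 * y 2) ^ 2 := by
  rw [← (h939_ch_diff p y hp hy).lineDeriv_eq_fderiv]
  exact (h939_ch_dir p y v hp hy).deriv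

theorem h939_q_fderiv (a b c d : ℝ) (y v : V3) :
    fderiv ℝ (fun x : V3 => a * (x 0 ^ 2 + x 1 ^ 2 + x 2 ^ 2) + b * x 0 + c * x 1 + d) y v =
      a * (2 * y 0 * v 0 + 2 * y 1 * v 1 + 2 * y 2 * v 2) + b * v 0 + c * v 1 := by
  have hd : DifferentiableAt ℝ
      (fun x : V3 => a * (x 0 ^ 2 + x 1 ^ 2 + x 2 ^ 2) + b * x 0 + c * x 1 + d) y := by
    fun_prop
  rw [← hd.lineDeriv_eq_fderiv]
  have e0 := (h939_coord y v 0).pow 2
  have e1 := (h939_coord y v 1).pow 2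
  have e2 := (h939_coord y v 2).pow 2
  have h := (((((e0.add e1).add e2).const_mul a).add ((h939_coord y v 0).const_mul b)).add
    ((h939_coord y v 1).const_mul c)).add_const d
  have h' := h.deriv
  refine Eq.trans h' ?_
  simp

theorem h939_alg (a b c d p0 p1 p2 y0 y1 y2 : ℝ) (hp : p2 ≠ 0) (hy : y2 ≠ 0)
    (h1 : a * (p0 ^ 2 + p1 ^ 2 + p2 ^ 2) + b * p0 + c * p1 + d = 0)
    (h2 : a * (y0 ^ 2 + y1 ^ 2 + y2 ^ 2) + b * y0 + c * y1 + d = 0) :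
    (2 * (y0 - p0) * (2 * p2 * y2)) / (2 * p2 * y2) ^ 2 * (a * (2 * y0) + b) +
    (2 * (y1 - p1) * (2 * p2 * y2)) / (2 * p2 * y2) ^ 2 * (a * (2 * y1) + c) +
    (2 * (y2 - p2) * (2 * p2 * y2) - ((y0 - p0) ^ 2 + (y1 - p1) ^ 2 + (y2 - p2) ^ 2) *
      (2 * p2)) / (2 * p2 * y2) ^ 2 * (a * (2 * y2)) = 0 := by
  have key : (2 * (y0 - p0) * (2 * p2 * y2)) / (2 * p2 * y2) ^ 2 * (a * (2 * y0) + b) +
    (2 * (y1 - p1) * (2 * p2 * y2)) / (2 * p2 * y2) ^ 2 * (a * (2 * y1) + c) +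
    (2 * (y2 - p2) * (2 * p2 * y2) - ((y0 - p0) ^ 2 + (y1 - p1) ^ 2 + (y2 - p2) ^ 2) *
      (2 * p2)) / (2 * p2 * y2) ^ 2 * (a * (2 * y2)) =
      ((a * (y0 ^ 2 + y1 ^ 2 + y2 ^ 2) + b * y0 + c * y1 + d) -
        (a * (p0 ^ 2 + p1 ^ 2 + p2 ^ 2) + b * p0 + c * p1 + d)) / (p2 * y2) := by
    field_simp
    ring
  rw [key, h1, h2]
  simp

/-- the gradient of the distance to a point of a wall is tangent to the wall -/
theorem tg1 (A : Matrix (Fin 2) (Fin 2) ℂ) (p y : V3) (hp : p ∈ U) (hy : y ∈ U)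
    (h1 : fW A p = 0) (h2 : fW A y = 0) :
    ∑ i : Fin 3, fderiv ℝ (ch p) y (Pi.single i 1) * fderiv ℝ (fW A) y (Pi.single i 1) = 0 := by
  have hp' : p 2 ≠ 0 := ne_of_gt hp
  have hy' : y 2 ≠ 0 := ne_of_gt hy
  have hf : ∀ v : V3, fderiv ℝ (fW A) y v = _ := fun v => h939_q_fderiv _ _ _ _ y v
  rw [Fin.sum_univ_three]
  simp only [h939_ch_fderiv p y _ hp' hy', hf]
  have h := h939_alg _ _ _ _ (p 0) (p 1) (p 2) (y 0) (y 1) (y 2) hp' hy' h1 h2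
  simpa using h

end J_tg1
export J_tg1 (tg1)
end Pool.Agent.QG
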