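import Pool.Agent.QG.G
import Pool.Agent.QG.P_gapw
import Pool.Agent.QG.P_tg1

set_option autoImplicit false

namespace Pool.Agent.QG
open Set Filter Topology MeasureTheory Pool.Agent.BL
open Pool.Agent.BL.ActAlg (zt NN)
open scoped ContDiff

namespace J_tg2




















theorem tg2 (u : V3 → ℝ) (b : ℝ → ℝ) (C₁ : ℝ) (P : Pk u b C₁) (A : Matrix (Fin 2) (Fin 2) ℂ)
    (hA : A ∈ Gm) (y : V3) (hy : y ∈ U) (h2 : fW A y = 0) :
    ∑ i : Fin 3, fderiv ℝ u y (Pi.single i 1) * fderiv ℝ (fW A) y (Pi.single i 1) = 0 := by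
  obtain ⟨B, hB, hloc⟩ := P.loc y hy
  have ho3 : o3 ∈ U := by
    change 0 < o3 2
    simp [o3]
  have hp : act B o3 ∈ U := act_mem B (gm_det B hB) o3 ho3
  obtain ⟨p, hpe⟩ : ∃ p, p = act B o3 := ⟨_, rfl⟩
  rw [← hpe] at hloc hp
  have hp2 : 0 < p 2 := hp
  have hy2 : 0 < y 2 := hy
  have hden : 2 * p 2 * y 2 ≠ 0 := by positivity
  have hpr : ∀ i : Fin 3, DifferentiableAt ℝ (fun x : V3 => x i) y := fun i =>
    differentiableAt_apply i y
  have hch : DifferentiableAt ℝ (ch p) y := by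
    unfold ch
    apply DifferentiableAt.const_add
    simp only [div_eq_mul_inv]
    apply DifferentiableAt.mul
    · exact (((hpr 0).sub_const _).pow 2).add (((hpr 1).sub_const _).pow 2) |>.add
        (((hpr 2).sub_const _).pow 2)
    · exact ((hpr 2).const_mul _).fun_inv hden
  have hbd : HasDerivAt b (deriv b (ch p y)) (ch p y) :=
    (P.hb.differentiable (by simp) _).hasDerivAt
  have hcomp : HasFDerivAt (fun x => b (ch p x)) (deriv b (ch p y) • fderiv ℝ (ch p) y) y :=
    hbd.comp_hasFDerivAt y hch.hasFDerivAt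
  have hu : fderiv ℝ u y = deriv b (ch p y) • fderiv ℝ (ch p) y := by
    rw [Filter.EventuallyEq.fderiv_eq hloc, hcomp.fderiv]
  have hsum : ∑ i : Fin 3, fderiv ℝ u y (Pi.single i 1) * fderiv ℝ (fW A) y (Pi.single i 1) =
      deriv b (ch p y) * ∑ i : Fin 3, fderiv ℝ (ch p) y (Pi.single i 1) *
        fderiv ℝ (fW A) y (Pi.single i 1) := by
    rw [Finset.mul_sum]
    apply Finset.sum_congr rfl
    intro i _
    rw [hu, smul_apply, smul_eq_mul, mul_assoc]
  rw [hsum]
  by_cases hC : ch p y < C₁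
  · have h1 : fW A p = 0 := by
      rw [hpe]
      apply gapw C₁ P.dis A B hA hB y hy h2
      rw [← hpe]
      exact hC
    rw [tg1 A p y hp hy h1 h2, mul_zero]
  · push Not at hC
    have e1 : HasDerivWithinAt b (deriv b (ch p y)) (Ici (ch p y)) (ch p y) :=
      hbd.hasDerivWithinAt
    have e2 : HasDerivWithinAt b 0 (Ici (ch p y)) (ch p y) := by
      refine (hasDerivWithinAt_const (ch p y) (Ici (ch p y)) (0 : ℝ)).congr ?_ ?_
      · intro x hx
        exact P.hb0 x (hC.trans hx)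
      · exact P.hb0 _ hC
    have e3 : deriv b (ch p y) = 0 :=
      (uniqueDiffWithinAt_Ici (ch p y)).eq_deriv _ e1 e2
    rw [e3, zero_mul]

end J_tg2
export J_tg2 (tg2)
end Pool.Agent.QG
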