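import Pool.Agent.QG.G
import Pool.Agent.QG.P_fw_calc
import Pool.Agent.QG.P_tg2

set_option autoImplicit false

namespace Pool.Agent.QG
open Set Filter Topology MeasureTheory Pool.Agent.BL
open Pool.Agent.BL.ActAlg (zt NN)
open scoped ContDiff

namespace J_tg3














/-- the walls are totally geodesic for `e^{2u} g_hyp` -/
theorem tg3 (u : V3 → ℝ) (b : ℝ → ℝ) (C₁ : ℝ) (P : Pk u b C₁) (A : Matrix (Fin 2) (Fin 2) ℂ)
    (hA : A ∈ Gm) (y : V3) (hy : y ∈ U) (h2 : fW A y = 0) (v w : V3)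
    (hv : fderiv ℝ (fW A) y v = 0) (hw : fderiv ℝ (fW A) y w = 0) :
    fderiv ℝ (fun z => fderiv ℝ (fW A) z w) y v
      - fderiv ℝ (fW A) y (chr (fun y => u y - Real.log (y 2) + 0) y v w) = 0 := by
  obtain ⟨-, -, a, b', c, hL, hLL⟩ := fw_calc A (gm_det A hA)
  have hUo : IsOpen U := isOpen_lt continuous_const (continuous_apply 2)
  have hy2 : (0 : ℝ) < y 2 := hy
  have hud : DifferentiableAt ℝ u y :=
    (P.smooth.contDiffAt (hUo.mem_nhds hy)).differentiableAt (by simp)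
  have hlog : HasFDerivAt (fun y : V3 => Real.log (y 2))
      ((y 2)⁻¹ • (ContinuousLinearMap.proj 2 : V3 →L[ℝ] ℝ)) y :=
    (hasFDerivAt_apply (𝕜 := ℝ) 2 y).log hy2.ne'
  have hD : HasFDerivAt (fun y : V3 => u y - Real.log (y 2) + 0)
      (fderiv ℝ u y - (y 2)⁻¹ • (ContinuousLinearMap.proj 2 : V3 →L[ℝ] ℝ)) y :=
    (hud.hasFDerivAt.sub hlog).add_const 0
  have hsum := tg2 u b C₁ P A hA y hy h2
  rw [hLL y v w, chr, map_sub, map_add, map_smul, map_smul, map_smul, hv, hw, hD.fderiv]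
  have hgrad : (fun i : Fin 3 => (fderiv ℝ u y - (y 2)⁻¹ •
      (ContinuousLinearMap.proj 2 : V3 →L[ℝ] ℝ)) (Pi.single i 1)) =
      ∑ i : Fin 3, ((fderiv ℝ u y - (y 2)⁻¹ •
      (ContinuousLinearMap.proj 2 : V3 →L[ℝ] ℝ)) (Pi.single i 1)) • (Pi.single i 1 : V3) := by
    funext j
    simp [Finset.sum_apply, Pi.single_apply]
  rw [hgrad, map_sum]
  simp only [map_smul, smul_eq_mul]
  rw [Fin.sum_univ_three] at hsum ⊢
  have e0 : (ContinuousLinearMap.proj 2 : V3 →L[ℝ] ℝ) (Pi.single 0 1) = 0 := by simp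
  have e1 : (ContinuousLinearMap.proj 2 : V3 →L[ℝ] ℝ) (Pi.single 1 1) = 0 := by simp
  have e2 : (ContinuousLinearMap.proj 2 : V3 →L[ℝ] ℝ) (Pi.single 2 1) = 1 := by simp
  simp only [ContinuousLinearMap.sub_apply, ContinuousLinearMap.smul_apply, e0, e1, e2,
    smul_eq_mul, mul_zero, mul_one, sub_zero]
  have l2 : fderiv ℝ (fW A) y (Pi.single 2 1) = 2 * a * y 2 := by
    rw [hL]
    simp [dot]
  rw [l2] at hsum ⊢
  field_simp
  linear_combination (dot v w) * hsum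

end J_tg3
export J_tg3 (tg3)
end Pool.Agent.QG
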