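import Pool.Agent.QG.G

set_option autoImplicit false

namespace Pool.Agent.QG
open Set Filter Topology MeasureTheory Pool.Agent.BL
open Pool.Agent.BL.ActAlg (zt NN)
open scoped ContDiff

namespace J_xx_contr




/-- the affine function with `fW A x = j30179_af A (x 0, x 1, |x|^2)` -/
noncomputable def j30179_af (A : Matrix (Fin 2) (Fin 2) ℂ) (p q r : ℝ) : ℝ :=
  (A 0 0 * (starRingEnd ℂ) (A 1 0)).im * r +
    (A 0 0 * (starRingEnd ℂ) (A 1 1) + A 0 1 * (starRingEnd ℂ) (A 1 0)).im * p +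
    (A 0 0 * (starRingEnd ℂ) (A 1 1) - A 0 1 * (starRingEnd ℂ) (A 1 0)).re * q +
    (A 0 1 * (starRingEnd ℂ) (A 1 1)).im

theorem j30179_fW (A : Matrix (Fin 2) (Fin 2) ℂ) (x : V3) :
    fW A x = j30179_af A (x 0) (x 1) (x 0 ^ 2 + x 1 ^ 2 + x 2 ^ 2) := rfl

/-- the convex model of the chamber -/
def j30179_D (p0 : V3) : Set V3 :=
  {v | v 0 ^ 2 + v 1 ^ 2 < v 2 ∧ ∀ A ∈ Gm, 0 ≤ j30179_af A (v 0) (v 1) (v 2) * fW A p0}

theorem j30179_conv (p0 : V3) : Convex ℝ (j30179_D p0) := by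
  intro v hv w hw s t hs ht hst
  constructor
  · have h1 := hv.1
    have h2 := hw.1
    simp only [Pi.add_apply, Pi.smul_apply, smul_eq_mul]
    have e : t = 1 - s := by linarith
    rcases hs.eq_or_lt with hs0 | hs0
    · subst hs0
      have : t = 1 := by linarith
      subst this
      simpa using h2
    · have k1 : s * (v 0 ^ 2 + v 1 ^ 2) < s * v 2 := mul_lt_mul_of_pos_left h1 hs0
      have k2 : t * (w 0 ^ 2 + w 1 ^ 2) ≤ t * w 2 := mul_le_mul_of_nonneg_left h2.le ht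
      have k3 : (s * v 0 + t * w 0) ^ 2 ≤ s * v 0 ^ 2 + t * w 0 ^ 2 := by
        subst e
        nlinarith [mul_nonneg (mul_nonneg hs ht) (sq_nonneg (v 0 - w 0))]
      have k4 : (s * v 1 + t * w 1) ^ 2 ≤ s * v 1 ^ 2 + t * w 1 ^ 2 := by
        subst e
        nlinarith [mul_nonneg (mul_nonneg hs ht) (sq_nonneg (v 1 - w 1))]
      linarith
  · intro A hA
    have h1 := mul_nonneg hs (hv.2 A hA)
    have h2 := mul_nonneg ht (hw.2 A hA)
    have e : j30179_af A ((s • v + t • w) 0) ((s • v + t • w) 1) ((s • v + t • w) 2) =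
        s * j30179_af A (v 0) (v 1) (v 2) + t * j30179_af A (w 0) (w 1) (w 2) := by
      unfold j30179_af
      simp only [Pi.add_apply, Pi.smul_apply, smul_eq_mul]
      have : t = 1 - s := by linarith
      subst this
      ring
    rw [e, add_mul, mul_assoc, mul_assoc]
    exact add_nonneg h1 h2

theorem j30179_c3 {α : Type} [TopologicalSpace α] (f g h : α → ℝ) (hf : Continuous f)
    (hg : Continuous g) (hh : Continuous h) : Continuous (fun x => (![f x, g x, h x] : V3)) := by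
  apply continuous_pi
  intro i
  fin_cases i
  · exact hf
  · exact hg
  · exact hh

theorem j30179_e3 (f : Fin 3 → ℝ) (a b c : ℝ) (h0 : f 0 = a) (h1 : f 1 = b) (h2 : f 2 = c) :
    ![a, b, c] = f := by
  funext i
  fin_cases i
  · exact h0.symm
  · exact h1.symm
  · exact h2.symm

/-- the chamber is homeomorphic to its convex model -/
noncomputable def j30179_hom (p0 : V3) : XX p0 ≃ₜ j30179_D p0 where
  toFun x := ⟨![x.1 0, x.1 1, x.1 0 ^ 2 + x.1 1 ^ 2 + x.1 2 ^ 2], by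
    refine ⟨?_, fun A hA => x.2.2 A hA⟩
    have h2 : 0 < x.1 2 := x.2.1
    change x.1 0 ^ 2 + x.1 1 ^ 2 < x.1 0 ^ 2 + x.1 1 ^ 2 + x.1 2 ^ 2
    have := pow_pos h2 2
    linarith⟩
  invFun v := ⟨![v.1 0, v.1 1, √(v.1 2 - v.1 0 ^ 2 - v.1 1 ^ 2)], by
    have h1 : v.1 0 ^ 2 + v.1 1 ^ 2 < v.1 2 := v.2.1
    have h2 : 0 < v.1 2 - v.1 0 ^ 2 - v.1 1 ^ 2 := by linarith
    refine ⟨Real.sqrt_pos.2 h2, fun A hA => ?_⟩
    rw [j30179_fW]
    change 0 ≤ j30179_af A (v.1 0) (v.1 1) (v.1 0 ^ 2 + v.1 1 ^ 2 +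
      √(v.1 2 - v.1 0 ^ 2 - v.1 1 ^ 2) ^ 2) * fW A p0
    rw [Real.sq_sqrt h2.le]
    have e : v.1 0 ^ 2 + v.1 1 ^ 2 + (v.1 2 - v.1 0 ^ 2 - v.1 1 ^ 2) = v.1 2 := by ring
    rw [e]
    exact v.2.2 A hA⟩
  left_inv x := by
    apply Subtype.ext
    have h2 : 0 < x.1 2 := x.2.1
    apply j30179_e3
    · rfl
    · rfl
    · change x.1 2 = √((x.1 0 ^ 2 + x.1 1 ^ 2 + x.1 2 ^ 2) - x.1 0 ^ 2 - x.1 1 ^ 2)
      have e : (x.1 0 ^ 2 + x.1 1 ^ 2 + x.1 2 ^ 2) - x.1 0 ^ 2 - x.1 1 ^ 2 = x.1 2 ^ 2 := by ring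
      rw [e, Real.sqrt_sq h2.le]
  right_inv v := by
    apply Subtype.ext
    have h1 : v.1 0 ^ 2 + v.1 1 ^ 2 < v.1 2 := v.2.1
    have h2 : 0 < v.1 2 - v.1 0 ^ 2 - v.1 1 ^ 2 := by linarith
    apply j30179_e3
    · rfl
    · rfl
    · change v.1 2 = v.1 0 ^ 2 + v.1 1 ^ 2 + √(v.1 2 - v.1 0 ^ 2 - v.1 1 ^ 2) ^ 2
      rw [Real.sq_sqrt h2.le]
      ring
  continuous_toFun := by
    have hc : ∀ i : Fin 3, Continuous (fun x : XX p0 => (x : V3) i) := fun i =>
      (continuous_apply i).comp continuous_subtype_val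
    apply Continuous.subtype_mk
    apply j30179_c3
    · exact hc 0
    · exact hc 1
    · exact (((hc 0).pow 2).add ((hc 1).pow 2)).add ((hc 2).pow 2)
  continuous_invFun := by
    have hc : ∀ i : Fin 3, Continuous (fun x : j30179_D p0 => (x : V3) i) := fun i =>
      (continuous_apply i).comp continuous_subtype_val
    apply Continuous.subtype_mk
    apply j30179_c3
    · exact hc 0
    · exact hc 1
    · exact (((hc 2).sub ((hc 0).pow 2)).sub ((hc 1).pow 2)).sqrt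

theorem xx_contr (p0 : V3) (h : PB p0) : ContractibleSpace (XX p0) := by
  have hne : (XX p0).Nonempty := ⟨p0, h.mem, fun A _ => mul_self_nonneg _⟩
  have hne2 : (j30179_D p0).Nonempty := by
    obtain ⟨x, hx⟩ := hne
    exact ⟨_, (j30179_hom p0 ⟨x, hx⟩).2⟩
  have : ContractibleSpace (j30179_D p0) := (j30179_conv p0).contractibleSpace hne2
  exact (j30179_hom p0).contractibleSpace

end J_xx_contr
export J_xx_contr (xx_contr)
end Pool.Agent.QG
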