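import Pool.Agent.QG.G
import Pool.Agent.QG.P_fw_mul
import Pool.Agent.QG.P_fw_real
import Pool.Agent.QG.P_fw_lmul
import Pool.Agent.QG.P_cj_gm
import Pool.Agent.QG.P_wall

set_option autoImplicit false

namespace Pool.Agent.QG
open Set Filter Topology MeasureTheory Pool.Agent.BL
open Pool.Agent.BL.ActAlg (zt NN)
open scoped ContDiff

namespace J_xx_real


























theorem xx_real (p0 : V3) (h : PB p0) (R : Matrix (Fin 2) (Fin 2) ℂ) (hR : cj R = R)
    (hd : R.det = 1) (hn : ∀ A ∈ Gm, ∃ A' ∈ Gm, A * R = R * A') (x : V3) (hx : x ∈ XX p0) :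
    act R x ∈ XX p0 := by
  obtain ⟨hxU, hxA⟩ := hx
  refine ⟨act_mem R hd x hxU, ?_⟩
  intro A hA
  obtain ⟨A', hA', hAR⟩ := hn A hA
  have hE : ∀ y ∈ U, fW A (act R y) * NN R y = fW A' y := by
    intro y hy
    rw [← fw_mul A R (gm_det A hA) hd y hy, hAR, fw_lmul R A' hR hd (gm_det A' hA') y hy]
  have ho3 : o3 ∈ U := by simp [U, o3]
  have ho31 : o3 1 = 0 := by simp [o3]
  have hone : ∀ y, fW 1 y = y 1 := fun y => fw_real 1 cj_gm.2.2.2.2 (by simp) y
  set r := act R o3 with hr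
  have hrU : r ∈ U := act_mem R hd o3 ho3
  have hNo : 0 < NN R o3 := NN_pos R hd o3 ho3
  have hNx : 0 < NN R x := NN_pos R hd x hxU
  have hr1 : r 1 = 0 := by
    have h1 := fw_mul 1 R (by simp) hd o3 ho3
    rw [one_mul, fw_real R hR hd o3, ho31, ← hr, hone] at h1
    rcases mul_eq_zero.1 h1.symm with h2 | h2
    · exact h2
    · exact absurd h2 hNo.ne'
  have ha0 : fW A p0 ≠ 0 := h.ne A hA
  have ha0' : fW A' p0 ≠ 0 := h.ne A' hA'
  have p1 := h.plane A' hA' o3 ho3 ho31
  have p2 := h.plane A hA r hrU hr1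
  have e1 := hE o3 ho3
  rw [← hr] at e1
  have hpos : 0 < fW A p0 * fW A' p0 := by
    by_cases h0 : fW A' o3 = 0
    · have h0' : fW A r = 0 := by
        rw [h0] at e1
        rcases mul_eq_zero.1 e1 with h2 | h2
        · exact h2
        · exact absurd h2 hNo.ne'
      have w1 := wall A' 1 hA' gm_one o3 ho3 h0 (by rw [hone, ho31]) p0 h.mem
      have w2 := wall A 1 hA gm_one r hrU h0' (by rw [hone, hr1]) p0 h.mem
      rw [← w1, ← w2, hone]
      exact mul_pos h.pos h.pos
    · have h0' : fW A r ≠ 0 := by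
        intro h2
        rw [h2, zero_mul] at e1
        exact h0 e1.symm
      have q1 : 0 < fW A' o3 * fW A' p0 := lt_of_le_of_ne p1 (mul_ne_zero h0 ha0').symm
      have q2 : 0 < fW A r * fW A p0 := lt_of_le_of_ne p2 (mul_ne_zero h0' ha0).symm
      have q3 : 0 < (fW A' o3 * fW A' p0) * (fW A r * fW A p0) := mul_pos q1 q2
      rw [← e1] at q3
      have q4 : fW A r * NN R o3 * fW A' p0 * (fW A r * fW A p0) =
          (NN R o3 * (fW A r) ^ 2) * (fW A p0 * fW A' p0) := by ring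
      rw [q4] at q3
      have q5 : 0 < NN R o3 * (fW A r) ^ 2 := by positivity
      exact (mul_pos_iff_of_pos_left q5).1 q3
  have p3 := hxA A' hA'
  have e2 := hE x hxU
  have q6 : 0 ≤ (fW A' x * fW A' p0) * (fW A p0 * fW A' p0) := mul_nonneg p3 hpos.le
  rw [← e2] at q6
  have q7 : fW A (act R x) * NN R x * fW A' p0 * (fW A p0 * fW A' p0) =
      (NN R x * (fW A' p0) ^ 2) * (fW A (act R x) * fW A p0) := by ring
  rw [q7] at q6
  have q8 : 0 < NN R x * (fW A' p0) ^ 2 := by positivity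
  exact (mul_nonneg_iff_of_pos_left q8).1 q6

end J_xx_real
export J_xx_real (xx_real)
end Pool.Agent.QG
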