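import Pool.Agent.QG.G
import Pool.Agent.QG.P_pb_ex
import Pool.Agent.QG.P_dis_ex
import Pool.Agent.QG.P_axis_gap
import Pool.Agent.QG.P_rr_lip
import Pool.Agent.QG.P_rr_ge
import Pool.Agent.QG.P_gx
import Pool.Agent.QG.P_xx_misc
import Pool.Agent.QG.P_xx_contr
import Pool.Agent.QG.P_local_form
import Pool.Agent.QG.P_fw_calc
import Pool.Agent.QG.P_tg3
import Pool.Agent.QG.P_xx_real
import Pool.Agent.QG.P_img_dist
import Pool.Agent.QG.P_pd_pm
import Pool.Agent.QG.P_pd_lower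
import Pool.Agent.QG.P_axis_path
import Pool.Agent.QG.P_lam_gm
import Pool.Agent.QG.P_gapw
import Pool.Agent.BL.Bump
import Pool.Agent.BL.Prof0
import Pool.Agent.BL.SecB
import Pool.Agent.BL.QfB
import Pool.Agent.BL.Model

set_option autoImplicit false

namespace Pool.Agent.QG
open Set Filter Topology MeasureTheory Pool.Agent.BL
open Pool.Agent.BL.ActAlg (zt NN)
open scoped ContDiff

theorem pk_prop : ∀ K : Set U, IsCompact K →
    {γ | γ ∈ Pool.Agent.BL.Latt.latG ∧ (γ '' K ∩ K).Nonempty}.Finite := by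
  intro K hK
  obtain ⟨C, hC⟩ : ∃ C : ℝ, ∀ x ∈ K, ch o3 x ≤ C := by
    obtain ⟨C, hC⟩ := hK.bddAbove_image Pool.Agent.BL.Latt.ch_cont.continuousOn
    exact ⟨C, fun x hx => hC (Set.mem_image_of_mem _ hx)⟩
  have ho3 : (0 : ℝ) < o3 2 := by simp [o3]
  choose! g hg1 hg2 using fun (γ : Equiv.Perm U) (h : γ ∈ Pool.Agent.BL.Latt.latG) =>
    (show ∃ A ∈ Gm, ∀ x : U, (γ x : V3) = act A x from h)
  apply Set.Finite.of_injOn (f := g) (t := {A | A ∈ Gm ∧ ch o3 (act A o3) ≤ 2 * C * C})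
    _ _ (gm_finite _)
  · rintro γ ⟨hγ, y, ⟨x, hx, hxy⟩, hy⟩
    refine ⟨hg1 γ hγ, ?_⟩
    have hdet := gm_det _ (hg1 γ hγ)
    have hw : act (g γ) o3 ∈ U := act_mem _ hdet o3 ho3
    have h1 := ch_tri o3 y (act (g γ) o3) ho3 y.2 hw
    have h2 : ch y (act (g γ) o3) = ch o3 x := by
      rw [← hxy, hg2 γ hγ x, act_ch _ hdet x o3 x.2 ho3, ch_symm]
    rw [h2] at h1
    have h3 := hC x hx
    have h4 := hC y hy
    have h5 : 0 ≤ ch o3 x := le_trans zero_le_one (ch_one_le o3 x ho3 x.2)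
    have h6 : 0 ≤ ch o3 y := le_trans zero_le_one (ch_one_le o3 y ho3 y.2)
    have h7 : ch o3 y * ch o3 x ≤ C * C := mul_le_mul h4 h3 h5 (h6.trans h4)
    linarith
  · rintro γ ⟨hγ, _⟩ γ' ⟨hγ', _⟩ h
    ext1 x
    apply Subtype.ext
    rw [hg2 γ hγ, hg2 γ' hγ', h]

theorem pk_ex (δ : ℝ) (hδ : 0 < δ) : ∃ (u : V3 → ℝ) (b : ℝ → ℝ) (C₁ : ℝ), Pk u b C₁ ∧
    ∀ c Q, 1 ≤ c → 0 ≤ Q → Q ≤ c ^ 2 - 1 → |kappa b c Q + 1| ≤ δ := by
  obtain ⟨C, hC1, hC⟩ := dis_ex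
  obtain ⟨κ, hκ, hax⟩ := axis_gap
  obtain ⟨C', κ', hC', hκ', hlip⟩ := rr_lip κ hκ
  obtain ⟨hRR, hB0, hB1, -, -, -, -, -, -, hnorm⟩ := rr_ge
  have ho3 : o3 ∈ U := by simp [U, o3]
  have hC₀1 : 1 < (1 + C) / 2 := by linarith
  have hC₀C : (1 + C) / 2 < C := by linarith
  generalize hC₀ : (1 + C) / 2 = C₀ at hC₀1 hC₀C
  obtain ⟨C₁, h1C₁, hC₁C₀, hC₁C'⟩ : ∃ C₁ : ℝ, 1 < C₁ ∧ C₁ < C₀ ∧ C₁ ≤ C' := by
    refine ⟨min ((1 + C₀) / 2) C', lt_min (by linarith) hC', ?_, min_le_right _ _⟩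
    exact lt_of_le_of_lt (min_le_left _ _) (by linarith)
  obtain ⟨β, K, c1, hβ, hβ01, hc1, hβ1, hβ0, hK, hkap⟩ :=
    Pool.Agent.BL.Prof0.profile0 C₁ h1C₁
  obtain ⟨ε, hε0, hε1, hεK, hεδ, hεκ⟩ :
      ∃ ε : ℝ, 0 < ε ∧ ε ≤ 1 ∧ K * ε < 1 ∧ K * ε ≤ δ ∧ Real.exp ε ≤ κ' := by
    have hlog : 0 < Real.log κ' := Real.log_pos hκ'
    have hm : 0 < min 1 δ := lt_min one_pos hδ
    refine ⟨min (min 1 (min 1 δ / (2 * K))) (Real.log κ'), ?_, ?_, ?_, ?_, ?_⟩
    · exact lt_min (lt_min one_pos (by positivity)) hlog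
    · exact (min_le_left _ _).trans (min_le_left _ _)
    · have h1 : min (min 1 (min 1 δ / (2 * K))) (Real.log κ') ≤ min 1 δ / (2 * K) :=
        (min_le_left _ _).trans (min_le_right _ _)
      have h2 : K * min (min 1 (min 1 δ / (2 * K))) (Real.log κ') ≤ K * (min 1 δ / (2 * K)) :=
        mul_le_mul_of_nonneg_left h1 hK.le
      have h3 : K * (min 1 δ / (2 * K)) = min 1 δ / 2 := by field_simp
      have h4 : min 1 δ ≤ 1 := min_le_left _ _
      linarith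
    · have h1 : min (min 1 (min 1 δ / (2 * K))) (Real.log κ') ≤ min 1 δ / (2 * K) :=
        (min_le_left _ _).trans (min_le_right _ _)
      have h2 : K * min (min 1 (min 1 δ / (2 * K))) (Real.log κ') ≤ K * (min 1 δ / (2 * K)) :=
        mul_le_mul_of_nonneg_left h1 hK.le
      have h3 : K * (min 1 δ / (2 * K)) = min 1 δ / 2 := by field_simp
      have h4 : min 1 δ ≤ δ := min_le_right _ _
      linarith
    · calc Real.exp (min (min 1 (min 1 δ / (2 * K))) (Real.log κ'))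
          ≤ Real.exp (Real.log κ') := Real.exp_le_exp.2 (min_le_right _ _)
        _ = κ' := Real.exp_log (by linarith)
  have hG : ∀ γ ∈ Pool.Agent.BL.Latt.latG, ∃ A : Matrix (Fin 2) (Fin 2) ℂ, A.det = 1 ∧
      ∀ x : U, (γ x : V3) = act A x := by
    rintro γ ⟨A, hA, hγ⟩
    exact ⟨A, gm_det A hA, hγ⟩
  have hdis : ∀ γ ∈ Pool.Agent.BL.Latt.latG, ∀ γ' ∈ Pool.Agent.BL.Latt.latG, ∀ z : U,
      ch (γ oU) z ≤ C₀ → ch (γ' oU) z ≤ C₀ → γ oU = γ' oU := by
    rintro γ ⟨A, hA, hγ⟩ γ' ⟨B, hB, hγ'⟩ z h1 h2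
    apply Subtype.ext
    rw [hγ, hγ'] at *
    exact hC A hA B hB z z.2 (lt_of_le_of_lt h1 hC₀C) (lt_of_le_of_lt h2 hC₀C)
  obtain ⟨ub, hub⟩ := Pool.Agent.BL.Bump.bump _ hG pk_prop oU C₀ hC₀1 hdis
  have hb : ContDiff ℝ ∞ (fun c => -(ε * β c)) := (contDiff_const.mul hβ).neg
  have hb0 : ∀ c, C₁ ≤ c → (fun c => -(ε * β c)) c = 0 := by
    intro c hc
    simp [hβ0 c hc]
  obtain ⟨hs, hi, hl, hba, hsu⟩ := hub (fun c => -(ε * β c)) C₁ hb hC₁C₀ hb0
  have hoU : ((oU : U) : V3) = o3 := rfl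
  refine ⟨ub (fun c => -(ε * β c)), fun c => -(ε * β c), C₁, ⟨h1C₁, ?_, hb, hb0, hs, ?_, ?_, ?_,
    ?_, ?_, ?_, ?_⟩, fun c Q h1 h2 h3 => (hkap ε hε0.le hε1 c Q h1 h2 h3).trans hεδ⟩
  · intro A hA B hB z hz h1 h2
    exact hC A hA B hB z hz (h1.trans (hC₁C₀.trans hC₀C)) (h2.trans (hC₁C₀.trans hC₀C))
  · intro A hA x hx
    obtain ⟨γ, hγ, h⟩ := Pool.Agent.BL.Latt.latG_of A hA
    have h1 := hi γ hγ ⟨x, hx⟩
    rw [h] at h1
    exact h1
  · intro x hx
    obtain ⟨γ, ⟨A, hA, hγ⟩, hev⟩ := hl x hx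
    refine ⟨A, hA, ?_⟩
    have h1 := hγ oU
    rw [hoU] at h1
    rw [← h1]
    exact hev
  · intro x hx
    by_cases h0 : ub (fun c => -(ε * β c)) x = 0
    · rw [h0]
    · obtain ⟨γ, hγ, h1, h2⟩ := hsu ⟨x, hx⟩ h0
      have h3 : ub (fun c => -(ε * β c)) x = -(ε * β (ch (γ oU) x)) := h2
      rw [h3]
      have := (hβ01 (ch (γ oU) x)).1
      nlinarith
  · intro x hx
    by_cases h0 : ub (fun c => -(ε * β c)) x = 0
    · rw [h0]; norm_num
    · obtain ⟨γ, hγ, h1, h2⟩ := hsu ⟨x, hx⟩ h0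
      have h3 : ub (fun c => -(ε * β c)) x = -(ε * β (ch (γ oU) x)) := h2
      rw [h3]
      have h4 := (hβ01 (ch (γ oU) x)).1
      have h5 := (hβ01 (ch (γ oU) x)).2
      nlinarith
  · have hch : ch o3 o3 = 1 := by simp [ch]
    have h1 := hba 1 (one_mem _) oU (by
      show ch o3 o3 < C₀
      rw [hch]; exact hC₀1)
    have h2 : ub (fun c => -(ε * β c)) o3 = -(ε * β (ch o3 o3)) := h1
    rw [h2, hch, hβ1 1 hc1.le]
    linarith
  · intro c Q h1 h2 h3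
    have h4 := hkap ε hε0.le hε1 c Q h1 h2 h3
    have h5 := (abs_le.1 h4).2
    linarith
  · intro z hz
    have hz' := act_mem B0 hB0 z hz
    by_cases h0 : ub (fun c => -(ε * β c)) z = 0
    · rw [h0]; simpa using hRR _ hz'
    · obtain ⟨γ, ⟨A, hA, hγ⟩, h1, h2⟩ := hsu ⟨z, hz⟩ h0
      have hdA := gm_det A hA
      have h3 : ub (fun c => -(ε * β c)) z = -(ε * β (ch (γ oU) z)) := h2
      have h4 := (hβ01 (ch (γ oU) z)).2
      have h5 : Real.exp (-(ub (fun c => -(ε * β c)) z)) ≤ Real.exp ε := by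
        rw [h3]
        apply Real.exp_le_exp.2
        nlinarith
      refine h5.trans (hεκ.trans ?_)
      have h6 : ((γ oU : U) : V3) = act A o3 := hγ oU
      have h7 : ch (act A o3) z < C₁ := by rw [← h6]; exact h1
      obtain ⟨A', hA', hAA'⟩ := hnorm A hA
      have hq := act_mem A hdA o3 ho3
      refine hlip (act B0 (act A o3)) (act_mem B0 hB0 _ hq) (act B0 z) hz' ?_ ?_
      · rw [← act_mul B0 A hB0 hdA o3 ho3, hAA']
        exact hax A' hA'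
      · rw [act_ch B0 hB0 _ _ hq hz]
        exact lt_of_lt_of_le h7 hC₁C'

theorem model_ex (p0 : V3) (h : PB p0) (u : V3 → ℝ) (b : ℝ → ℝ) (C₁ : ℝ) (P : Pk u b C₁) :
    ∃ G : Subgroup (Equiv.Perm (XX p0)),
      IsBdryModel U (XX p0) (hg u 0) (chr (fun y => u y - Real.log (y 2) + 0)) G := by
  obtain ⟨G, hG, hfree, hprop, hcoc⟩ := gx p0 h
  obtain ⟨hop, hF, hpl, ho, hni⟩ := xx_misc p0 h
  have ho3 : o3 ∈ U := by simp [U, o3]
  refine ⟨G, hop, hF, xx_contr p0 h, Pool.Agent.BL.HgM.hg_metric u P.smooth 0,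
    hg_levi u P.smooth 0, ?_, ?_, ⟨o3, ho, hni⟩, ?_, hfree, hprop, hcoc⟩
  · intro z hz x y hxy
    have hzU : z ∈ U := hz.1
    obtain ⟨A, hA, hev⟩ := P.loc z hzU
    have hp : act A o3 ∈ U := act_mem A (gm_det A hA) o3 ho3
    rw [Pool.Agent.BL.SecB.sec_bump b P.hb (act A o3) z hp hzU u hev 0 x y hxy]
    obtain ⟨q1, q2⟩ := Pool.Agent.BL.QfB.qf_bounds (act A o3) z x y hp hzU hxy
    have h1 := P.kap _ _ (ch_one_le _ _ hp hzU) q1 q2
    have h2 : 0 < Real.exp (-2 * (0 : ℝ)) := Real.exp_pos _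
    exact mul_neg_of_pos_of_neg h2 h1
  · intro x hx
    rcases local_form p0 h x hx with hi | ⟨A, hA, s, hs, h0, hev⟩
    · exact Or.inl hi
    · right
      obtain ⟨hsm, hgr, -⟩ := fw_calc A (gm_det A hA)
      have hd : ∀ z, DifferentiableAt ℝ (fW A) z := fun z =>
        hsm.contDiffAt.differentiableAt (by simp)
      have hfd : ∀ z v, fderiv ℝ (fun y => s * fW A y) z v = s * fderiv ℝ (fW A) z v := by
        intro z v
        rw [fderiv_const_mul (hd z)]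
        simp
      refine ⟨fun y => s * fW A y, contDiff_const.mul hsm, by simp [h0], ?_, hev, ?_⟩
      · intro hz
        apply hgr x hx.1 h0
        ext v
        have h1 := hfd x v
        rw [hz] at h1
        simp only [zero_apply] at h1 ⊢
        have h2 := (mul_eq_zero.1 h1.symm).resolve_left hs
        exact h2
      · filter_upwards [hop.mem_nhds hx.1] with y hy hfy v w hv hw
        have hfy' : fW A y = 0 := (mul_eq_zero.1 hfy).resolve_left hs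
        rw [hfd] at hv hw
        have hv' := (mul_eq_zero.1 hv).resolve_left hs
        have hw' := (mul_eq_zero.1 hw).resolve_left hs
        have h3 := tg3 u b C₁ P A hA y hy hfy' v w hv' hw'
        have h4 : (fun z => fderiv ℝ (fun y => s * fW A y) z w) =
            fun z => s * fderiv ℝ (fW A) z w := by
          funext z; exact hfd z w
        have h5 : DifferentiableAt ℝ (fun z => fderiv ℝ (fW A) z w) y := by
          have : ContDiff ℝ ∞ (fun z => fderiv ℝ (fW A) z w) :=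
            (hsm.fderiv_right (m := ∞) (by simp)).clm_apply contDiff_const
          exact this.contDiffAt.differentiableAt (by simp)
        rw [h4, fderiv_const_mul h5, hfd]
        change s * fderiv ℝ (fun z => fderiv ℝ (fW A) z w) y v - _ = 0
        rw [← mul_sub, h3, mul_zero]
  · intro γ hγ
    obtain ⟨A, hA, hAx⟩ := hG γ hγ
    have hdet := gm_det A hA
    refine ⟨act A, act_smooth A hdet, hAx, ?_⟩
    intro x hx v w
    have hxU : x ∈ U := hx.1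
    have hx2 : 0 < x 2 := hxU
    have hy : act A x ∈ U := act_mem A hdet x hxU
    have hy2 : 0 < (act A x) 2 := hy
    have huy : u (act A x) = u x := P.inv A hA x hxU
    unfold hg cg
    rw [act_deriv A hdet x hxU v w, Pool.Agent.BL.Model.h396_exp _ _ _ hy2,
      Pool.Agent.BL.Model.h396_exp _ _ _ hx2, huy]
    field_simp

theorem qi_ex (p0 : V3) (h : PB p0) (u : V3 → ℝ) (b : ℝ → ℝ) (C₁ : ℝ) (P : Pk u b C₁) :
    ∃ f : XX p0 → XX p0, IsQI (fun x y : XX p0 => pdist (XX p0) (hg u 0) x y) f ∧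
      ∀ k : XX p0 → XX p0,
        (∀ x y, pdist (XX p0) (hg u 0) (k x) (k y) = pdist (XX p0) (hg u 0) x y) →
        ∀ C : ℝ, ∃ x, C < pdist (XX p0) (hg u 0) (f x) (k x) := by
  obtain ⟨-, hB0, hB1, h01, h10, hc0, hc1, hn0, hn1, -⟩ := rr_ge
  obtain ⟨hnn, hself, hsymm, htri⟩ := pd_pm u p0
  have hX1 : ∀ x ∈ XX p0, act B1 x ∈ XX p0 := fun x hx => xx_real p0 h B1 hc1 hB1 hn1 x hx
  have hX0 : ∀ x ∈ XX p0, act B0 x ∈ XX p0 := fun x hx => xx_real p0 h B0 hc0 hB0 hn0 x hx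
  have h01' : ∀ x ∈ XX p0, act B0 (act B1 x) = x := by
    intro x hx
    rw [← act_mul B0 B1 hB0 hB1 x hx.1, h01, act_one x hx.1]
  have h10' : ∀ x ∈ XX p0, act B1 (act B0 x) = x := by
    intro x hx
    rw [← act_mul B1 B0 hB1 hB0 x hx.1, h10, act_one x hx.1]
  refine ⟨fun x => ⟨act B1 x, hX1 x x.2⟩, ?_, ?_⟩
  · refine ⟨Real.exp 1, 0, Real.one_le_exp zero_le_one, le_refl _, ?_, ?_⟩
    · intro x y
      constructor
      · have h1 := img_dist u b C₁ P p0 B0 hB0 hX0 (act B1 x) (act B1 y) (hX1 x x.2) (hX1 y y.2)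
        rw [h01' x x.2, h01' y y.2] at h1
        have h2 : 0 < Real.exp 1 := Real.exp_pos 1
        show (Real.exp 1)⁻¹ * pdist (XX p0) (hg u 0) x y - 0 ≤
          pdist (XX p0) (hg u 0) (act B1 x) (act B1 y)
        rw [sub_zero, inv_mul_le_iff₀ h2]
        exact h1
      · have h1 := img_dist u b C₁ P p0 B1 hB1 hX1 x y x.2 y.2
        show pdist (XX p0) (hg u 0) (act B1 x) (act B1 y) ≤
          Real.exp 1 * pdist (XX p0) (hg u 0) x y + 0
        rw [add_zero]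
        exact h1
    · intro y
      refine ⟨⟨act B0 y, hX0 y y.2⟩, ?_⟩
      show pdist (XX p0) (hg u 0) (act B1 (act B0 y)) y ≤ 0
      rw [h10' y y.2, hself y y.2]
  · intro k hk C
    by_contra hcon
    push Not at hcon
    obtain ⟨L0, hL0, hpath⟩ := axis_path u b C₁ P p0 h
    obtain ⟨hop, hF, hpl, ho, hni⟩ := xx_misc p0 h
    have hl1 : 1 < lam := lam_gm.1
    have hxn : ∀ n : ℕ, (![0, 0, lam ^ n] : V3) ∈ XX p0 := by
      intro n
      apply hpl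
      · show 0 < (![0, 0, lam ^ n] : V3) 2
        simp only [Matrix.cons_val]
        positivity
      · simp
    have key : ∀ n : ℕ, (n : ℝ) * Real.log lam ≤ 2 * C + n * L0 := by
      intro n
      set o : XX p0 := ⟨o3, ho⟩ with hoo
      set x : XX p0 := ⟨![0, 0, lam ^ n], hxn n⟩ with hxx
      have h1 := pd_lower u b C₁ P p0 (act B1 o) (act B1 x) (hX1 o o.2) (hX1 x x.2)
      rw [h01' o o.2, h01' x x.2] at h1
      have h2 : Real.log (en (x : V3)) = n * Real.log lam := by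
        have : en (x : V3) = lam ^ n := by
          show Real.sqrt ((![0, 0, lam ^ n] : V3) 0 ^ 2 + (![0, 0, lam ^ n] : V3) 1 ^ 2 +
            (![0, 0, lam ^ n] : V3) 2 ^ 2) = lam ^ n
          simp only [Matrix.cons_val]
          rw [show (0 : ℝ) ^ 2 + 0 ^ 2 + (lam ^ n) ^ 2 = (lam ^ n) ^ 2 by ring]
          exact Real.sqrt_sq (by positivity)
        rw [this, Real.log_pow]
      have h3 : Real.log (en (o : V3)) = 0 := by
        have : en (o : V3) = 1 := by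
          show Real.sqrt (o3 0 ^ 2 + o3 1 ^ 2 + o3 2 ^ 2) = 1
          simp [o3]
        rw [this, Real.log_one]
      rw [h2, h3, sub_zero] at h1
      have h4 := htri (act B1 o) (hX1 o o.2) (k o) (k o).2 (act B1 x) (hX1 x x.2)
      have h5 := htri (k o) (k o).2 (k x) (k x).2 (act B1 x) (hX1 x x.2)
      have h6 := hk o x
      have h7 := hcon o
      have h8 := hcon x
      have h9 := hpath n
      have h7' : pdist (XX p0) (hg u 0) (act B1 o) (k o) ≤ C := h7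
      have h8' : pdist (XX p0) (hg u 0) (act B1 x) (k x) ≤ C := h8
      rw [hsymm (act B1 x) (k x)] at h8'
      have h9' : pdist (XX p0) (hg u 0) o x ≤ n * L0 := h9
      linarith
    obtain ⟨n, hn⟩ := exists_nat_gt (2 * C / (Real.log lam - L0))
    have hpos : 0 < Real.log lam - L0 := by linarith
    rw [div_lt_iff₀ hpos] at hn
    have := key n
    linarith

theorem sec_near (p0 : V3) (u : V3 → ℝ) (b : ℝ → ℝ) (C₁ : ℝ) (P : Pk u b C₁) (δ : ℝ)
    (hk : ∀ c Q, 1 ≤ c → 0 ≤ Q → Q ≤ c ^ 2 - 1 → |kappa b c Q + 1| ≤ δ) :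
    ∀ z ∈ XX p0, ∀ x y, LinearIndependent ℝ ![x, y] →
      |sec (hg u 0) (chr (fun y => u y - Real.log (y 2) + 0)) z x y + 1| ≤ δ := by
  intro z hz x y hxy
  have ho3 : o3 ∈ U := by simp [U, o3]
  have hzU : z ∈ U := hz.1
  obtain ⟨A, hA, hev⟩ := P.loc z hzU
  have hp : act A o3 ∈ U := act_mem A (gm_det A hA) o3 ho3
  rw [Pool.Agent.BL.SecB.sec_bump b P.hb (act A o3) z hp hzU u hev 0 x y hxy]
  obtain ⟨q1, q2⟩ := Pool.Agent.BL.QfB.qf_bounds (act A o3) z x y hp hzU hxy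
  have h1 := hk _ _ (ch_one_le _ _ hp hzU) q1 q2
  simpa using h1

theorem main (δ : ℝ) (hδ : 0 < δ) :
    ∃ (Y X : Set V3) (g : V3 → V3 → V3 → ℝ) (Ch : V3 → V3 → V3 → V3)
    (G : Subgroup (Equiv.Perm X)), IsBdryModel Y X g Ch G ∧
      (∀ z ∈ X, ∀ u v, LinearIndependent ℝ ![u, v] → |sec g Ch z u v + 1| ≤ δ) ∧
      ∃ f : X → X, IsQI (fun x y : X => pdist X g x y) f ∧
        ∀ k : X → X, (∀ x y, pdist X g (k x) (k y) = pdist X g x y) →
          ∀ C : ℝ, ∃ x, C < pdist X g (f x) (k x) := by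
  obtain ⟨p0, h⟩ := pb_ex
  obtain ⟨u, b, C₁, P, hk⟩ := pk_ex δ hδ
  obtain ⟨G, hG⟩ := model_ex p0 h u b C₁ P
  exact ⟨U, XX p0, hg u 0, _, G, hG, sec_near p0 u b C₁ P δ hk, qi_ex p0 h u b C₁ P⟩

end Pool.Agent.QG
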