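import Pool.Agent.QG.G

set_option autoImplicit false

namespace Pool.Agent.QG
open Set Filter Topology MeasureTheory Pool.Agent.BL
open Pool.Agent.BL.ActAlg (zt NN)
open scoped ContDiff

namespace J_lip









theorem lip_det_B0 : B0.det = 1 := by
  have h5 : ((Real.sqrt 5 : ℝ) : ℂ) * ((Real.sqrt 5 : ℝ) : ℂ) = 5 := by
    rw [← Complex.ofReal_mul, Real.mul_self_sqrt (by norm_num)]
    norm_num
  have e0 : (((2 : GaussianInt)) : ℂ) = 2 := by
    rw [map_ofNat]
  have e1 : (((-1 : GaussianInt)) : ℂ) = -1 := by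
    rw [map_neg, map_one]
  have e2 : (((-2 : GaussianInt)) : ℂ) = -2 := by
    rw [map_neg, map_ofNat]
  unfold B0 qm
  rw [Matrix.det_fin_two_of]
  change (((2 : GaussianInt) : ℂ) + ((-1 : GaussianInt) : ℂ) * ((Real.sqrt 5 : ℝ) : ℂ))
      * (((2 : GaussianInt) : ℂ) - ((-1 : GaussianInt) : ℂ) * ((Real.sqrt 5 : ℝ) : ℂ))
      - 2 * (((-2 : GaussianInt) : ℂ) + ((-1 : GaussianInt) : ℂ) * ((Real.sqrt 5 : ℝ) : ℂ))
      * (((-2 : GaussianInt) : ℂ) - ((-1 : GaussianInt) : ℂ) * ((Real.sqrt 5 : ℝ) : ℂ)) = 1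
  rw [e0, e1, e2]
  linear_combination h5

theorem lip_dot_nonneg (v : V3) : 0 ≤ dot v v := by
  unfold dot
  nlinarith [mul_self_nonneg (v 0), mul_self_nonneg (v 1), mul_self_nonneg (v 2)]

theorem lip_dot_pos (y : V3) (hy : y ∈ U) : 0 < dot y y := by
  have h : 0 < y 2 := hy
  unfold dot
  nlinarith [mul_self_nonneg (y 0), mul_self_nonneg (y 1), mul_pos h h]

theorem lip_en (y : V3) : en y = Real.sqrt (dot y y) := by
  unfold en dot
  congr 1
  ring

theorem lip_cs (v w : V3) : |dot v w| ≤ Real.sqrt (dot v v) * Real.sqrt (dot w w) := by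
  rw [← Real.sqrt_mul (lip_dot_nonneg v)]
  apply Real.abs_le_sqrt
  unfold dot
  nlinarith [sq_nonneg (v 0 * w 1 - v 1 * w 0), sq_nonneg (v 0 * w 2 - v 2 * w 0),
    sq_nonneg (v 1 * w 2 - v 2 * w 1)]

theorem lip_hg (u : V3 → ℝ) (z v : V3) (hz : z ∈ U) :
    Real.sqrt (hg u 0 z v v) = Real.exp (u z) / z 2 * Real.sqrt (dot v v) := by
  have hz2 : 0 < z 2 := hz
  unfold hg cg
  rw [Real.sqrt_mul (Real.exp_pos _).le]
  congr 1
  have h1 : Real.exp (2 * (u z - Real.log (z 2) + 0)) = (Real.exp (u z) / z 2) ^ 2 := by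
    have h2 : 2 * (u z - Real.log (z 2) + 0)
        = (u z - Real.log (z 2)) + (u z - Real.log (z 2)) := by ring
    rw [h2, Real.exp_add, Real.exp_sub, Real.exp_log hz2]
    ring
  rw [h1]
  exact Real.sqrt_sq (div_pos (Real.exp_pos _) hz2).le

theorem lip_point (u : V3 → ℝ) (b : ℝ → ℝ) (C₁ : ℝ) (P : Pk u b C₁) (z v : V3) (hz : z ∈ U) :
    dot (act B0 z) (fderiv ℝ (act B0) z v) / dot (act B0 z) (act B0 z)
      ≤ Real.sqrt (hg u 0 z v v) := by
  have hz2 : 0 < z 2 := hz
  have hY : act B0 z ∈ U := act_mem B0 lip_det_B0 z hz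
  have hY2 : 0 < (act B0 z) 2 := hY
  have hYp := lip_dot_pos _ hY
  rw [lip_hg u z v hz]
  have h1 := lip_cs (act B0 z) (fderiv ℝ (act B0) z v)
  have h2 : Real.sqrt (dot (fderiv ℝ (act B0) z v) (fderiv ℝ (act B0) z v))
      = (act B0 z) 2 / z 2 * Real.sqrt (dot v v) := by
    rw [act_deriv B0 lip_det_B0 z hz v v, Real.sqrt_mul (sq_nonneg _),
      Real.sqrt_sq (div_pos hY2 hz2).le]
  rw [h2] at h1
  have h3 := P.axis z hz
  unfold RR at h3
  rw [lip_en] at h3
  have hsY : 0 < Real.sqrt (dot (act B0 z) (act B0 z)) := Real.sqrt_pos.mpr hYp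
  have h4 : (act B0 z) 2 / Real.sqrt (dot (act B0 z) (act B0 z)) ≤ Real.exp (u z) := by
    rw [Real.exp_neg, inv_le_comm₀ (Real.exp_pos _) (div_pos hsY hY2), inv_div] at h3
    exact h3
  have h5 : dot (act B0 z) (fderiv ℝ (act B0) z v) / dot (act B0 z) (act B0 z)
      ≤ (act B0 z) 2 / Real.sqrt (dot (act B0 z) (act B0 z)) * (Real.sqrt (dot v v) / z 2) := by
    rw [div_le_iff₀ hYp]
    refine (le_abs_self _).trans (h1.trans (le_of_eq ?_))
    have h6 : Real.sqrt (dot (act B0 z) (act B0 z)) * Real.sqrt (dot (act B0 z) (act B0 z))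
        = dot (act B0 z) (act B0 z) := Real.mul_self_sqrt hYp.le
    generalize Real.sqrt (dot (act B0 z) (act B0 z)) = r at h6 hsY
    rw [← h6]
    have hr : r ≠ 0 := hsY.ne'
    field_simp
  calc dot (act B0 z) (fderiv ℝ (act B0) z v) / dot (act B0 z) (act B0 z)
      ≤ (act B0 z) 2 / Real.sqrt (dot (act B0 z) (act B0 z)) * (Real.sqrt (dot v v) / z 2) := h5
    _ ≤ Real.exp (u z) * (Real.sqrt (dot v v) / z 2) :=
        mul_le_mul_of_nonneg_right h4 (div_nonneg (Real.sqrt_nonneg _) hz2.le)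
    _ = Real.exp (u z) / z 2 * Real.sqrt (dot v v) := by ring

theorem lip_U_open : IsOpen U := isOpen_lt continuous_const (continuous_apply 2)



theorem lip (u : V3 → ℝ) (b : ℝ → ℝ) (C₁ : ℝ) (P : Pk u b C₁) (c : ℝ → V3)
    (hc : ContDiffOn ℝ 1 c (Icc 0 1)) (hU : ∀ t ∈ Icc (0 : ℝ) 1, c t ∈ U) :
    Real.log (en (act B0 (c 1))) - Real.log (en (act B0 (c 0))) ≤ curveLen (hg u 0) c := by
  have hlog : ∀ t ∈ Icc (0 : ℝ) 1, Real.log (en (act B0 (c t)))
      = Real.log (dot (act B0 (c t)) (act B0 (c t))) / 2 := by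
    intro t ht
    rw [lip_en, Real.log_sqrt (lip_dot_nonneg _)]
  rw [hlog 1 ⟨zero_le_one, le_rfl⟩, hlog 0 ⟨le_rfl, zero_le_one⟩]
  have hcc : ContinuousOn c (Icc 0 1) := hc.continuousOn
  have hcd : ContinuousOn (derivWithin c (Icc 0 1)) (Icc 0 1) :=
    hc.continuousOn_derivWithin (uniqueDiffOn_Icc zero_lt_one) le_rfl
  have hsm := act_smooth B0 lip_det_B0
  have hYc : ContinuousOn (fun t => act B0 (c t)) (Icc 0 1) := hsm.continuousOn.comp hcc hU
  have hYi : ∀ i : Fin 3, ContinuousOn (fun t => act B0 (c t) i) (Icc 0 1) := fun i =>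
    (continuous_apply i).comp_continuousOn hYc
  have hcdi : ∀ i : Fin 3, ContinuousOn (fun t => derivWithin c (Icc 0 1) t i) (Icc 0 1) :=
    fun i => (continuous_apply i).comp_continuousOn hcd
  have hpos : ∀ t ∈ Icc (0 : ℝ) 1, 0 < dot (act B0 (c t)) (act B0 (c t)) := fun t ht =>
    lip_dot_pos _ (act_mem B0 lip_det_B0 _ (hU t ht))
  unfold curveLen
  refine intervalIntegral.sub_le_integral_of_hasDeriv_right_of_le
    (g := fun t => Real.log (dot (act B0 (c t)) (act B0 (c t))) / 2)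
    (g' := fun t => dot (act B0 (c t)) (fderiv ℝ (act B0) (c t) (derivWithin c (Icc 0 1) t))
      / dot (act B0 (c t)) (act B0 (c t))) zero_le_one ?_ ?_ ?_ ?_
  · apply ContinuousOn.div_const
    apply ContinuousOn.log
    · unfold dot
      exact (((hYi 0).mul (hYi 0)).add ((hYi 1).mul (hYi 1))).add ((hYi 2).mul (hYi 2))
    · exact fun t ht => (hpos t ht).ne'
  · intro t ht
    have htI : t ∈ Icc (0 : ℝ) 1 := Ioo_subset_Icc_self ht
    have hnh : Icc (0 : ℝ) 1 ∈ 𝓝 t := Icc_mem_nhds ht.1 ht.2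
    have hct : HasDerivAt c (derivWithin c (Icc 0 1) t) t :=
      ((hc.differentiableOn one_ne_zero t htI).hasDerivWithinAt).hasDerivAt hnh
    have hact : HasFDerivAt (act B0) (fderiv ℝ (act B0) (c t)) (c t) := by
      have h1 : ContDiffAt ℝ ∞ (act B0) (c t) :=
        hsm.contDiffAt (lip_U_open.mem_nhds (hU t htI))
      exact (h1.differentiableAt (by simp)).hasFDerivAt
    have hY : HasDerivAt (fun t => act B0 (c t))
        (fderiv ℝ (act B0) (c t) (derivWithin c (Icc 0 1) t)) t :=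
      hact.comp_hasDerivAt t hct
    have hYd : ∀ i : Fin 3, HasDerivAt (fun t => act B0 (c t) i)
        (fderiv ℝ (act B0) (c t) (derivWithin c (Icc 0 1) t) i) t := fun i =>
      (hasDerivAt_pi.mp hY) i
    have hD : HasDerivAt (fun t => dot (act B0 (c t)) (act B0 (c t)))
        (2 * dot (act B0 (c t)) (fderiv ℝ (act B0) (c t) (derivWithin c (Icc 0 1) t))) t := by
      unfold dot
      refine ((((hYd 0).mul (hYd 0)).add ((hYd 1).mul (hYd 1))).add
        ((hYd 2).mul (hYd 2))).congr_deriv ?_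
      ring
    have hL := (hD.log (hpos t htI).ne').div_const 2
    refine (hL.congr_deriv ?_).hasDerivWithinAt
    ring
  · apply ContinuousOn.integrableOn_Icc
    have h1 : ContinuousOn (fun t => Real.exp (u (c t)) / c t 2
        * Real.sqrt (dot (derivWithin c (Icc 0 1) t) (derivWithin c (Icc 0 1) t))) (Icc 0 1) := by
      apply ContinuousOn.mul
      · apply ContinuousOn.div
        · exact Real.continuous_exp.comp_continuousOn (P.smooth.continuousOn.comp hcc hU)
        · exact (continuous_apply 2).comp_continuousOn hcc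
        · intro t ht
          have h2 : 0 < c t 2 := hU t ht
          exact h2.ne'
      · apply ContinuousOn.sqrt
        unfold dot
        exact (((hcdi 0).mul (hcdi 0)).add ((hcdi 1).mul (hcdi 1))).add
          ((hcdi 2).mul (hcdi 2))
    exact h1.congr (fun t ht => lip_hg u (c t) _ (hU t ht))
  · intro t ht
    exact lip_point u b C₁ P (c t) _ (hU t (Ioo_subset_Icc_self ht))

end J_lip
export J_lip (lip)
end Pool.Agent.QG
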