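import Pool.Agent.QG.G
import Pool.Agent.QG.P_xx_conn
import Pool.Agent.QG.P_lip

set_option autoImplicit false

namespace Pool.Agent.QG
open Set Filter Topology MeasureTheory Pool.Agent.BL
open Pool.Agent.BL.ActAlg (zt NN)
open scoped ContDiff

namespace J_pd_lower











theorem pd_lower (u : V3 → ℝ) (b : ℝ → ℝ) (C₁ : ℝ) (P : Pk u b C₁) (p0 : V3) (x y : V3)
    (hx : x ∈ XX p0) (hy : y ∈ XX p0) :
    Real.log (en (act B0 y)) - Real.log (en (act B0 x)) ≤ pdist (XX p0) (hg u 0) x y := by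
  unfold pdist
  apply le_csInf
  · obtain ⟨c, hc, h0, h1, hX⟩ := xx_conn p0 x y hx hy
    refine ⟨_, 1, fun i => if i = 0 then x else y, fun _ => c, by simp, by simp, ?_, rfl⟩
    intro i hi
    have : i = 0 := by omega
    subst this
    exact ⟨hc, hX, by simpa using h0, by simpa using h1⟩
  · rintro L ⟨n, pt, c, hp0, hpn, hc, rfl⟩
    have h1 : ∀ i ∈ Finset.range n, Real.log (en (act B0 (pt (i + 1)))) - Real.log (en (act B0 (pt i))) ≤
        curveLen (hg u 0) (c i) := by
      intro i hi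
      obtain ⟨a1, a2, a3, a4⟩ := hc i (Finset.mem_range.1 hi)
      rw [← a3, ← a4]
      exact lip u b C₁ P (c i) a1 (fun t ht => (a2 t ht).1)
    have h2 := Finset.sum_le_sum h1
    rw [Finset.sum_range_sub (fun i => Real.log (en (act B0 (pt i)))), hp0, hpn] at h2
    exact h2

end J_pd_lower
export J_pd_lower (pd_lower)
end Pool.Agent.QG
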